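import Mathlib

-- part MP_b746ed_mp.Basic
section

/-! Inner products, rank one matrices and block Gram families. -/

set_option autoImplicit false
open scoped ComplexOrder
open Matrix

namespace Pool.Agent.MP_b746ed_mp.KF

section Basic
variable {β : Type*} [Fintype β]

/-- the inner product, conjugate linear in the first slot -/
def ip (x y : β → ℂ) : ℂ := star x ⬝ᵥ y

/-- the rank one matrix `x y^*` -/
def op (x y : β → ℂ) : Matrix β β ℂ := vecMulVec x (star y)

lemma ip_eq (x y : β → ℂ) : ip x y = ∑ i, star (x i) * y i := rfl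

omit [Fintype β] in
lemma op_apply (x y : β → ℂ) (i j : β) : op x y i j = x i * star (y j) := rfl

lemma ip_add_left (x y z : β → ℂ) : ip (x + y) z = ip x z + ip y z := by
  simp [ip, add_dotProduct]
lemma ip_add_right (x y z : β → ℂ) : ip x (y + z) = ip x y + ip x z := by
  simp [ip, dotProduct_add]
lemma ip_sub_left (x y z : β → ℂ) : ip (x - y) z = ip x z - ip y z := by
  simp [ip, sub_dotProduct]
lemma ip_sub_right (x y z : β → ℂ) : ip x (y - z) = ip x y - ip x z := by
  simp [ip, dotProduct_sub]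
lemma ip_neg_right (x y : β → ℂ) : ip x (-y) = -ip x y := by
  simp [ip]
lemma ip_neg_left (x y : β → ℂ) : ip (-x) y = -ip x y := by
  simp [ip]
lemma ip_smul_left (c : ℂ) (x y : β → ℂ) : ip (c • x) y = star c * ip x y := by
  simp [ip, smul_dotProduct]
lemma ip_smul_right (c : ℂ) (x y : β → ℂ) : ip x (c • y) = c * ip x y := by
  simp [ip, dotProduct_smul]
lemma ip_zero_right (x : β → ℂ) : ip x 0 = 0 := by simp [ip]
lemma ip_zero_left (x : β → ℂ) : ip 0 x = 0 := by simp [ip]
lemma ip_sum_right {ρ : Type*} (s : Finset ρ) (x : β → ℂ) (y : ρ → β → ℂ) :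
    ip x (∑ r ∈ s, y r) = ∑ r ∈ s, ip x (y r) := by
  simp [ip, dotProduct_sum]
lemma ip_sum_left {ρ : Type*} (s : Finset ρ) (x : β → ℂ) (y : ρ → β → ℂ) :
    ip (∑ r ∈ s, y r) x = ∑ r ∈ s, ip (y r) x := by
  simp [ip, sum_dotProduct]

lemma star_ip (x y : β → ℂ) : star (ip x y) = ip y x := by
  simp [ip_eq, mul_comm]

lemma ip_self_eq (x : β → ℂ) : ip x x = ((∑ i, ‖x i‖ ^ 2 : ℝ) : ℂ) := by
  simp only [ip_eq, Complex.ofReal_sum]
  refine Finset.sum_congr rfl fun i _ => ?_
  rw [mul_comm, Complex.star_def, Complex.mul_conj, Complex.normSq_eq_norm_sq]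

lemma ip_self_re (x : β → ℂ) : (ip x x).re = ∑ i, ‖x i‖ ^ 2 := by
  rw [ip_self_eq, Complex.ofReal_re]

lemma ip_self_re_nonneg (x : β → ℂ) : 0 ≤ (ip x x).re := by
  rw [ip_self_re]; positivity

lemma ip_self_im (x : β → ℂ) : (ip x x).im = 0 := by
  rw [ip_self_eq, Complex.ofReal_im]

lemma ip_self_ofReal (x : β → ℂ) : ip x x = ((ip x x).re : ℂ) := by
  rw [ip_self_re, ip_self_eq]

lemma eq_zero_of_ip_self {x : β → ℂ} (h : (ip x x).re = 0) : x = 0 := by
  rw [ip_self_re] at h
  have := (Finset.sum_eq_zero_iff_of_nonneg (fun i _ => by positivity)).1 h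
  funext i
  simpa using this i (Finset.mem_univ i)

lemma ip_mulVec {γ : Type*} [Fintype γ] (A : Matrix β γ ℂ) (x : β → ℂ) (y : γ → ℂ) :
    ip x (A *ᵥ y) = ip (Aᴴ *ᵥ x) y := by
  simp [ip, dotProduct_mulVec, star_mulVec]

lemma op_mulVec (x y z : β → ℂ) : op x y *ᵥ z = ip y z • x := by
  simp [op, ip, vecMulVec_mulVec]

lemma op_mul_op (x y z w : β → ℂ) : op x y * op z w = ip y z • op x w := by
  simp [op, ip, vecMulVec_mul_vecMulVec, vecMulVec_smul]

omit [Fintype β] in
lemma op_conjTranspose (x y : β → ℂ) : (op x y)ᴴ = op y x := by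
  simp [op]

omit [Fintype β] in
lemma op_add_left (x y z : β → ℂ) : op (x + y) z = op x z + op y z := by
  simp [op, add_vecMulVec]
omit [Fintype β] in
lemma op_add_right (x y z : β → ℂ) : op x (y + z) = op x y + op x z := by
  simp [op, vecMulVec_add]
omit [Fintype β] in
lemma op_sub_left (x y z : β → ℂ) : op (x - y) z = op x z - op y z := by
  simp [op, sub_vecMulVec]
omit [Fintype β] in
lemma op_sub_right (x y z : β → ℂ) : op x (y - z) = op x y - op x z := by
  simp [op, vecMulVec_sub]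
omit [Fintype β] in
lemma op_smul_left (c : ℂ) (x y : β → ℂ) : op (c • x) y = c • op x y := by
  simp [op, smul_vecMulVec]
omit [Fintype β] in
lemma op_smul_right (c : ℂ) (x y : β → ℂ) : op x (c • y) = star c • op x y := by
  simp [op, vecMulVec_smul]
omit [Fintype β] in
lemma op_neg_left (x y : β → ℂ) : op (-x) y = -op x y := by
  simp [op]
omit [Fintype β] in
lemma op_neg_right (x y : β → ℂ) : op x (-y) = -op x y := by
  simp [op]
omit [Fintype β] in
lemma op_zero_left (y : β → ℂ) : op 0 y = 0 := by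
  simp [op]

/-- Cauchy-Schwarz -/
lemma normSq_ip_le (x y : β → ℂ) : Complex.normSq (ip x y) ≤ (ip x x).re * (ip y y).re := by
  have h := norm_inner_le_norm (𝕜 := ℂ) (WithLp.toLp 2 x : EuclideanSpace ℂ β) (WithLp.toLp 2 y)
  have e : inner ℂ (WithLp.toLp 2 x : EuclideanSpace ℂ β) (WithLp.toLp 2 y) = ip x y := by
    rw [EuclideanSpace.inner_eq_star_dotProduct, dotProduct_comm]; rfl
  rw [e] at h
  rw [ip_self_re, ip_self_re, Complex.normSq_eq_norm_sq]
  have hx : ∑ i, ‖x i‖ ^ 2 = ‖(WithLp.toLp 2 x : EuclideanSpace ℂ β)‖ ^ 2 := by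
    rw [EuclideanSpace.norm_sq_eq]
  have hy : ∑ i, ‖y i‖ ^ 2 = ‖(WithLp.toLp 2 y : EuclideanSpace ℂ β)‖ ^ 2 := by
    rw [EuclideanSpace.norm_sq_eq]
  rw [hx, hy, ← mul_pow]
  exact pow_le_pow_left₀ (norm_nonneg _) h 2

lemma psd_re_nonneg {S : Matrix β β ℂ} (hS : S.PosSemidef) (z : β → ℂ) :
    0 ≤ (ip z (S *ᵥ z)).re :=
  (Complex.nonneg_iff.1 (hS.dotProduct_mulVec_nonneg z)).1

/-- a positive semidefinite 2 by 2 matrix paired with a positive operator -/
lemma psd_pair {T : Matrix (Fin 2) (Fin 2) ℂ} (hT : T.PosSemidef) {S : Matrix β β ℂ}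
    (hS : S.PosSemidef) (u : Fin 2 → β → ℂ) :
    0 ≤ (∑ a, ip (∑ b, T a b • u b) (S *ᵥ u a)).re := by
  classical
  obtain ⟨m, g, hg⟩ := Matrix.posSemidef_iff_eq_sum_vecMulVec.1 hT
  have : ∑ a, ip (∑ b, T a b • u b) (S *ᵥ u a) =
      ∑ r, ip (∑ a, star (g r a) • u a) (S *ᵥ ∑ a, star (g r a) • u a) := by
    rw [hg]
    simp only [Matrix.sum_apply, vecMulVec_apply, Fin.sum_univ_two, ip_add_left, ip_smul_left,
      mulVec_add, mulVec_smul, ip_add_right, ip_smul_right, star_sum, Finset.sum_mul,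
      ← Finset.sum_add_distrib, star_mul', star_star, Pi.star_apply]
    refine Finset.sum_congr rfl fun r _ => ?_
    ring
  rw [this, Complex.re_sum]
  exact Finset.sum_nonneg fun r _ => psd_re_nonneg hS _

end Basic

end Pool.Agent.MP_b746ed_mp.KF

end

-- part MP_b746ed_mp.Local
section

/-! One site estimates. -/

set_option autoImplicit false
open scoped ComplexOrder
open Matrix

namespace Pool.Agent.MP_b746ed_mp.KF

variable {α Ω : Type} [Fintype α] [DecidableEq α] [Fintype Ω] [DecidableEq Ω]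

/-- inner product of pairs of vectors -/
def ip2 {β : Type} [Fintype β] (x y : Fin 2 → β → ℂ) : ℂ := ∑ a, ip (x a) (y a)

/-- the marginal form of the pair `u` on the auxiliary qubit and one site -/
def bf (L : Matrix α α ℂ →⋆ₐ[ℂ] Matrix Ω Ω ℂ) (u : Fin 2 → Ω → ℂ) (x y : Fin 2 → α → ℂ) : ℂ :=
  ∑ a, ∑ b, ip (u a) (L (op (x a) (y b)) *ᵥ u b)

lemma L_conj (L : Matrix α α ℂ →⋆ₐ[ℂ] Matrix Ω Ω ℂ) (X : Matrix α α ℂ) : (L X)ᴴ = L Xᴴ :=
  (map_star L X).symm

lemma ip_single_self (o : α) : ip (Pi.single o (1 : ℂ)) (Pi.single o 1) = 1 := by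
  simp [ip_eq, Pi.single_apply]

lemma L_op_eq (L : Matrix α α ℂ →⋆ₐ[ℂ] Matrix Ω Ω ℂ) (o : α) (x y : α → ℂ) :
    L (op x y) = (L (op (Pi.single o 1) x))ᴴ * L (op (Pi.single o 1) y) := by
  rw [L_conj, op_conjTranspose, ← map_mul, op_mul_op, ip_single_self, one_smul]

lemma bf_eq (L : Matrix α α ℂ →⋆ₐ[ℂ] Matrix Ω Ω ℂ) (o : α) (u : Fin 2 → Ω → ℂ)
    (x y : Fin 2 → α → ℂ) : bf L u x y =
      ip (∑ a, L (op (Pi.single o 1) (x a)) *ᵥ u a) (∑ a, L (op (Pi.single o 1) (y a)) *ᵥ u a) := by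
  simp only [bf, ip_sum_left, ip_sum_right]
  rw [Finset.sum_comm]
  refine Finset.sum_congr rfl fun b _ => Finset.sum_congr rfl fun a _ => ?_
  rw [L_op_eq L o, ← mulVec_mulVec, ip_mulVec, conjTranspose_conjTranspose]

lemma bf_nonneg [Nonempty α] (L : Matrix α α ℂ →⋆ₐ[ℂ] Matrix Ω Ω ℂ) (u : Fin 2 → Ω → ℂ)
    (x : Fin 2 → α → ℂ) : 0 ≤ (bf L u x x).re := by
  obtain ⟨o⟩ := ‹Nonempty α›
  rw [bf_eq L o]; exact ip_self_re_nonneg _

lemma star_bf [Nonempty α] (L : Matrix α α ℂ →⋆ₐ[ℂ] Matrix Ω Ω ℂ) (u : Fin 2 → Ω → ℂ)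
    (x y : Fin 2 → α → ℂ) : star (bf L u x y) = bf L u y x := by
  obtain ⟨o⟩ := ‹Nonempty α›
  rw [bf_eq L o, bf_eq L o, star_ip]

lemma bf_expand (L : Matrix α α ℂ →⋆ₐ[ℂ] Matrix Ω Ω ℂ) (u : Fin 2 → Ω → ℂ)
    (x y : Fin 2 → α → ℂ) (s : ℂ) : bf L u (x + s • y) (x + s • y) =
      bf L u x x + star s * bf L u x y + s * bf L u y x + s * star s * bf L u y y := by
  simp only [bf, Pi.add_apply, Pi.smul_apply, op_add_left, op_add_right, op_smul_left,
    op_smul_right, map_add, map_smul, add_mulVec, smul_mulVec, ip_add_right, ip_smul_right,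
    Fin.sum_univ_two]
  ring

lemma ip2_expand {β : Type} [Fintype β] (x y : Fin 2 → β → ℂ) (s : ℂ) :
    ip2 (x + s • y) (x + s • y) =
      ip2 x x + star s * ip2 y x + s * ip2 x y + s * star s * ip2 y y := by
  simp only [ip2, Pi.add_apply, Pi.smul_apply, ip_add_left, ip_add_right, ip_smul_left,
    ip_smul_right, Fin.sum_univ_two]
  ring

lemma star_ip2 {β : Type} [Fintype β] (x y : Fin 2 → β → ℂ) : star (ip2 x y) = ip2 y x := by
  simp only [ip2, star_sum, star_ip]

/-- comparison of the marginal form with its eigenvector part -/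
lemma bf_ge [Nonempty α] (L : Matrix α α ℂ →⋆ₐ[ℂ] Matrix Ω Ω ℂ) (u : Fin 2 → Ω → ℂ)
    (c : Fin 2 → α → ℂ) (lam : ℝ) (hc : ip2 c c = 1)
    (hK : ∀ x, bf L u x c = lam * ip2 c x) (g : Fin 2 → α → ℂ) :
    lam * Complex.normSq (ip2 c g) ≤ (bf L u g g).re := by
  have h := bf_nonneg L u (g + (-ip2 c g) • c)
  rw [bf_expand, ← star_bf L u g c, hK g, hK c, hc] at h
  have e : bf L u g g + star (-ip2 c g) * (lam * ip2 c g) + -ip2 c g * star (lam * ip2 c g) +
      -ip2 c g * star (-ip2 c g) * (lam * 1) =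
      bf L u g g - ((lam * Complex.normSq (ip2 c g) : ℝ) : ℂ) := by
    simp only [star_neg, star_mul', Complex.star_def, Complex.conj_ofReal, Complex.ofReal_mul,
      Complex.normSq_eq_conj_mul_self]
    ring
  rw [e, Complex.sub_re, Complex.ofReal_re] at h
  linarith

/-- block matrices that are sums of rank one positive blocks -/
def IsGram (Y : Fin 2 → Fin 2 → Matrix α α ℂ) : Prop :=
  ∃ (ρ : Type) (_ : Fintype ρ) (g : ρ → Fin 2 → α → ℂ), ∀ a b, Y a b = ∑ r, op (g r a) (g r b)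

lemma gram_ge [Nonempty α] (L : Matrix α α ℂ →⋆ₐ[ℂ] Matrix Ω Ω ℂ) (u : Fin 2 → Ω → ℂ)
    (c : Fin 2 → α → ℂ) (lam : ℝ) (hc : ip2 c c = 1)
    (hK : ∀ x, bf L u x c = lam * ip2 c x) {Y : Fin 2 → Fin 2 → Matrix α α ℂ} (hY : IsGram Y) :
    lam * (∑ a, ∑ b, ip (c a) (Y a b *ᵥ c b)).re ≤ (∑ a, ∑ b, ip (u a) (L (Y a b) *ᵥ u b)).re := by
  obtain ⟨ρ, _, g, hg⟩ := hY
  have e1 : ∑ a, ∑ b, ip (u a) (L (Y a b) *ᵥ u b) = ∑ r, bf L u (g r) (g r) := by
    simp only [hg, map_sum, sum_mulVec, ip_sum_right, bf, Fin.sum_univ_two,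
      Finset.sum_add_distrib]
  have e2 : ∑ a, ∑ b, ip (c a) (Y a b *ᵥ c b) = ∑ r, (Complex.normSq (ip2 c (g r)) : ℂ) := by
    simp only [hg, sum_mulVec, ip_sum_right, op_mulVec, ip_smul_right, Fin.sum_univ_two,
      ← Finset.sum_add_distrib, Complex.normSq_eq_conj_mul_self, ← Complex.star_def, ip2]
    refine Finset.sum_congr rfl fun r _ => ?_
    simp only [star_add, star_ip]
    ring
  rw [e1, e2, Complex.re_sum, Complex.re_sum, Finset.mul_sum]
  refine Finset.sum_le_sum fun r _ => ?_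
  rw [Complex.ofReal_re]
  exact bf_ge L u c lam hc hK _

omit [Fintype α] [DecidableEq α] in
lemma IsGram.congr {Y : Fin 2 → Fin 2 → Matrix α α ℂ} (hY : IsGram Y)
    (T : Matrix (Fin 2) (Fin 2) ℂ) :
    IsGram (fun b' b => ∑ a', ∑ a, (star (T a' b') * T a b) • Y a' a) := by
  obtain ⟨ρ, _, g, hg⟩ := hY
  refine ⟨ρ, inferInstance, fun r b => ∑ a, star (T a b) • g r a, fun b' b => ?_⟩
  simp only [hg, Fin.sum_univ_two, op_add_left, op_add_right, op_smul_left, op_smul_right,
    star_star, Finset.smul_sum, ← Finset.sum_add_distrib]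
  refine Finset.sum_congr rfl fun r _ => ?_
  module

/-- the marginal on the auxiliary qubit -/
def tau (c : Fin 2 → α → ℂ) : Matrix (Fin 2) (Fin 2) ℂ := Matrix.of fun a b => ip (c b) (c a)

/-- its determinant -/
def del (c : Fin 2 → α → ℂ) : ℂ := tau c 0 0 * tau c 1 1 - tau c 0 1 * tau c 1 0

/-- the blocks of `tau - chi` -/
def mu (c : Fin 2 → α → ℂ) (a b : Fin 2) : Matrix α α ℂ := tau c a b • 1 - op (c a) (c b)

/-- the block adjugate of `mu` -/
def nu (c : Fin 2 → α → ℂ) : Fin 2 → Fin 2 → Matrix α α ℂ :=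
  ![![mu c 1 1, -mu c 0 1], ![-mu c 1 0, mu c 0 0]]

omit [DecidableEq α] in
lemma tau_psd (c : Fin 2 → α → ℂ) : (tau c).PosSemidef := by
  have : tau c = Matrix.of c * (Matrix.of c)ᴴ := by
    ext a b
    simp [tau, ip_eq, Matrix.mul_apply, mul_comm]
  rw [this]
  exact posSemidef_self_mul_conjTranspose _

omit [DecidableEq α] in
lemma del_im (c : Fin 2 → α → ℂ) : del c = ((del c).re : ℂ) := by
  have h := (tau_psd c).det_nonneg
  rw [det_fin_two] at h
  exact (Complex.ext rfl (by simpa [del] using (Complex.nonneg_iff.1 h).2.symm))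

omit [DecidableEq α] in
lemma del_nonneg (c : Fin 2 → α → ℂ) : 0 ≤ (del c).re := by
  have h := (tau_psd c).det_nonneg
  rw [det_fin_two] at h
  exact (Complex.nonneg_iff.1 h).1

/-- wedge vectors -/
noncomputable def wv (x : α → ℂ) (r : α × α) : α → ℂ :=
  ((1 + Complex.I) / 2) • (star (x r.1) • Pi.single r.2 (1 : ℂ) - star (x r.2) • Pi.single r.1 1)

lemma sum_op_single : ∑ w : α, op (Pi.single w (1 : ℂ)) (Pi.single w 1) = 1 := by
  ext s t
  simp [Matrix.sum_apply, op_apply, Pi.single_apply, one_apply]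

lemma op_eq_sum (x y : α → ℂ) :
    ∑ a, ∑ b, (x a * star (y b)) • op (Pi.single a (1 : ℂ)) (Pi.single b 1) = op x y := by
  ext s t
  simp [Matrix.sum_apply, op_apply, Pi.single_apply]

lemma sum_op_wv (x y : α → ℂ) : ∑ r, op (wv y r) (wv x r) = ip y x • 1 - op x y := by
  have hh : (1 + Complex.I) / 2 * star ((1 + Complex.I) / 2) = 1 / 2 := by
    simp only [star_div₀, star_add, star_one, Complex.star_def, Complex.conj_I, map_ofNat]
    ring_nf
    simp only [Complex.I_sq]
    ring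
  have e : ∀ r : α × α, op (wv y r) (wv x r) =
      (1 / 2 : ℂ) • ((star (y r.1) * x r.1) • op (Pi.single r.2 (1 : ℂ)) (Pi.single r.2 1)
        - (x r.2 * star (y r.1)) • op (Pi.single r.2 (1 : ℂ)) (Pi.single r.1 1)
        - (x r.1 * star (y r.2)) • op (Pi.single r.1 (1 : ℂ)) (Pi.single r.2 1)
        + (star (y r.2) * x r.2) • op (Pi.single r.1 (1 : ℂ)) (Pi.single r.1 1)) := by
    intro r
    rw [wv, wv, op_smul_left, op_smul_right, smul_smul, hh]
    simp only [op_sub_left, op_sub_right, op_smul_left, op_smul_right, star_star]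
    module
  have e1 : ∑ a, ∑ b, (star (y a) * x a) • op (Pi.single b (1 : ℂ)) (Pi.single b 1) =
      ip y x • (1 : Matrix α α ℂ) := by
    simp only [← Finset.smul_sum, sum_op_single, ← Finset.sum_smul, ip_eq]
  simp only [e, ← Finset.smul_sum, Finset.sum_add_distrib, Finset.sum_sub_distrib,
    Fintype.sum_prod_type]
  rw [op_eq_sum, Finset.sum_comm (f := fun a b => (x b * star (y a)) •
    op (Pi.single b (1 : ℂ)) (Pi.single a 1)), op_eq_sum, Finset.sum_comm (f := fun a b =>
    (star (y b) * x b) • op (Pi.single a (1 : ℂ)) (Pi.single a 1)), e1]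
  simp only [sum_op_single, ← Finset.sum_smul, ← ip_eq]
  module

lemma nu_gram (c : Fin 2 → α → ℂ) : IsGram (nu c) := by
  refine ⟨α × α, inferInstance, fun r => ![wv (c 1) r, -wv (c 0) r], fun a b => ?_⟩
  fin_cases a <;> fin_cases b <;>
    simp [nu, mu, tau, op_neg_left, op_neg_right, sum_op_wv, Finset.sum_neg_distrib]

lemma tau_sq_gram (c : Fin 2 → α → ℂ) :
    IsGram (fun a b => (tau c * tau c) a b • (1 : Matrix α α ℂ)) := by
  refine ⟨Fin 2 × α, inferInstance, fun r a => tau c a r.1 • Pi.single r.2 1, fun a b => ?_⟩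
  simp only [op_smul_left, op_smul_right, smul_smul, Fintype.sum_prod_type, ← Finset.smul_sum,
    sum_op_single, ← Finset.sum_smul, Matrix.mul_apply, tau, of_apply, star_ip]
  congr 1
  refine Finset.sum_congr rfl fun e _ => ?_
  ring

/-- the operator `del (1 - P)` with `P` the projection onto the span of `c 0`, `c 1` -/
def dd (c : Fin 2 → α → ℂ) : Matrix α α ℂ :=
  del c • 1 - (tau c 1 1 • op (c 0) (c 0) + tau c 0 0 • op (c 1) (c 1) -
    tau c 1 0 • op (c 0) (c 1) - tau c 0 1 • op (c 1) (c 0))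

lemma dd_conj (c : Fin 2 → α → ℂ) : (dd c)ᴴ = dd c := by
  simp only [dd, del, tau, of_apply, conjTranspose_sub, conjTranspose_add, conjTranspose_smul,
    conjTranspose_one, op_conjTranspose, star_ip, star_sub, star_mul']
  module

lemma dd_sq (c : Fin 2 → α → ℂ) : dd c * dd c = del c • dd c := by
  simp only [dd, del, tau, of_apply, sub_mul, mul_sub, add_mul, mul_add, smul_mul_assoc,
    mul_smul_comm, one_mul, mul_one, op_mul_op]
  module

lemma dd_psd (c : Fin 2 → α → ℂ) : (dd c).PosSemidef := by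
  have h := dd_sq c
  have h2 : (dd c)ᴴ * dd c = del c • dd c := by rw [dd_conj, h]
  rcases (del_nonneg c).eq_or_lt with h0 | h0
  · rw [del_im, ← h0] at h2
    simp only [Complex.ofReal_zero, zero_smul] at h2
    rw [conjTranspose_mul_self_eq_zero.1 h2]
    exact PosSemidef.zero
  · have : dd c = (((del c).re⁻¹ : ℝ) : ℂ) • ((dd c)ᴴ * dd c) := by
      rw [h2, smul_smul]
      conv_rhs => rw [del_im c, Complex.ofReal_re, ← Complex.ofReal_mul, inv_mul_cancel₀ h0.ne']
      simp
    rw [this]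
    exact (posSemidef_conjTranspose_mul_self _).smul (by
      rw [← Complex.ofReal_zero, Complex.real_le_real]; positivity)

lemma nu_mu (c : Fin 2 → α → ℂ) (a b : Fin 2) : ∑ e, nu c a e * mu c e b =
    (if a = b then dd c else 0) - ∑ e, (adjugate (tau c)) a e • op (c e) (c b) := by
  fin_cases a <;> fin_cases b <;>
    simp [nu, mu, dd, del, tau, adjugate_fin_two, sub_mul, mul_sub, op_mul_op] <;> module

lemma L_psd [Nonempty α] (L : Matrix α α ℂ →⋆ₐ[ℂ] Matrix Ω Ω ℂ) {X : Matrix α α ℂ}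
    (hX : X.PosSemidef) : (L X).PosSemidef := by
  obtain ⟨o⟩ := ‹Nonempty α›
  obtain ⟨m, g, hg⟩ := Matrix.posSemidef_iff_eq_sum_vecMulVec.1 hX
  rw [hg, map_sum]
  refine posSemidef_sum _ fun r _ => ?_
  have := L_op_eq L o (g r) (g r)
  rw [op] at this
  rw [this]
  exact posSemidef_conjTranspose_mul_self _

/-- the eigenvector equation, one row at a time -/
lemma kkt_row (L : Matrix α α ℂ →⋆ₐ[ℂ] Matrix Ω Ω ℂ) (u : Fin 2 → Ω → ℂ)
    (c : Fin 2 → α → ℂ) (lam : ℝ) (hK : ∀ x, bf L u x c = lam * ip2 c x) (e : Fin 2) (w : α → ℂ) :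
    ∑ b, ip (u e) (L (op w (c b)) *ᵥ u b) = lam * ip (c e) w := by
  have := hK (Pi.single e w)
  fin_cases e <;> simpa [bf, ip2, op_zero_left, ip_zero_right] using this

lemma herm_entries {T : Matrix (Fin 2) (Fin 2) ℂ} (hT : T.PosSemidef) :
    star (T 0 0) = T 0 0 ∧ star (T 1 1) = T 1 1 ∧ star (T 0 1) = T 1 0 ∧ star (T 1 0) = T 0 1 ∧
      T 0 0 + T 1 1 = ((T 0 0 + T 1 1).re : ℂ) := by
  have h := hT.isHermitian
  refine ⟨h.apply 0 0, h.apply 1 1, h.apply 1 0, h.apply 0 1, ?_⟩
  have h0 := (Complex.nonneg_iff.1 (hT.diag_nonneg (i := 0))).2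
  have h1 := (Complex.nonneg_iff.1 (hT.diag_nonneg (i := 1))).2
  exact Complex.ext rfl (by simp [← h0, ← h1])

/-- the diagonal terms -/
lemma diag_ge [Nonempty α] (L : Matrix α α ℂ →⋆ₐ[ℂ] Matrix Ω Ω ℂ) (u : Fin 2 → Ω → ℂ)
    (c : Fin 2 → α → ℂ) (lam : ℝ) (hK : ∀ x, bf L u x c = lam * ip2 c x)
    {T : Matrix (Fin 2) (Fin 2) ℂ} (hT : T.PosSemidef) :
    -(lam * (del c).re * (T 0 0 + T 1 1).re) ≤
      (∑ a, ∑ e, ∑ b, ip (∑ g, T a g • u g) ((L (nu c a e) * L (mu c e b)) *ᵥ u b)).re := by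
  obtain ⟨h00, h11, h01, h10, htr⟩ := herm_entries hT
  have e1 : ∑ a, ∑ e, ∑ b, ip (∑ g, T a g • u g) ((L (nu c a e) * L (mu c e b)) *ᵥ u b) =
      ∑ a, ip (∑ g, T a g • u g) (L (dd c) *ᵥ u a) -
        ((lam * (del c).re * (T 0 0 + T 1 1).re : ℝ) : ℂ) := by
    have e2 : ∀ a, ∑ e, ∑ b, ip (∑ g, T a g • u g) ((L (nu c a e) * L (mu c e b)) *ᵥ u b) =
        ∑ b, ip (∑ g, T a g • u g) (L (∑ e, nu c a e * mu c e b) *ᵥ u b) := by
      intro a
      rw [Finset.sum_comm]
      simp only [map_sum, map_mul, sum_mulVec, ip_sum_right]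
    simp only [e2, nu_mu]
    have k00 := kkt_row L u c lam hK 0 (c 0)
    have k01 := kkt_row L u c lam hK 0 (c 1)
    have k10 := kkt_row L u c lam hK 1 (c 0)
    have k11 := kkt_row L u c lam hK 1 (c 1)
    rw [Complex.ofReal_mul, Complex.ofReal_mul, ← htr, ← del_im]
    simp only [Fin.sum_univ_two] at k00 k01 k10 k11
    simp only [Fin.sum_univ_two, map_sub, map_add, map_smul, sub_mulVec, add_mulVec, smul_mulVec,
      ip_sub_right, ip_add_right, ip_smul_right, ip_add_left, ip_smul_left, h00, h11, h01, h10,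
      adjugate_fin_two, del, tau, of_apply, if_true, Fin.isValue, zero_ne_one, one_ne_zero,
      if_false, map_zero, zero_mulVec, ip_zero_right, cons_val', cons_val_zero, cons_val_one,
      cons_val_fin_one]
    linear_combination (-(T 0 0 * ip (c 1) (c 1) - T 0 1 * ip (c 0) (c 1))) * k00
      - (T 0 1 * ip (c 0) (c 0) - T 0 0 * ip (c 1) (c 0)) * k01
      - (T 1 0 * ip (c 1) (c 1) - T 1 1 * ip (c 0) (c 1)) * k10
      - (T 1 1 * ip (c 0) (c 0) - T 1 0 * ip (c 1) (c 0)) * k11
  rw [e1, Complex.sub_re, Complex.ofReal_re]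
  have := psd_pair hT (L_psd L (dd_psd c)) u
  linarith

/-- the adjugate is large on `T u` -/
lemma nu_ge [Nonempty α] (L : Matrix α α ℂ →⋆ₐ[ℂ] Matrix Ω Ω ℂ) (u : Fin 2 → Ω → ℂ)
    (c : Fin 2 → α → ℂ) (lam : ℝ) (hc : ip2 c c = 1) (hK : ∀ x, bf L u x c = lam * ip2 c x)
    {T : Matrix (Fin 2) (Fin 2) ℂ} (hT : T.PosSemidef) :
    lam * (del c).re * (T 0 0 + T 1 1).re ^ 2 ≤
      (∑ a, ∑ e, ip (∑ g, T a g • u g) (L (nu c a e) *ᵥ ∑ g, T e g • u g)).re := by
  obtain ⟨h00, h11, h01, h10, htr⟩ := herm_entries hT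
  have h := gram_ge L u c lam hc hK ((nu_gram c).congr T)
  have e1 : ∑ a, ∑ e, ip (∑ g, T a g • u g) (L (nu c a e) *ᵥ ∑ g, T e g • u g) =
      ∑ a, ∑ b, ip (u a) (L (∑ a', ∑ e, (star (T a' a) * T e b) • nu c a' e) *ᵥ u b) := by
    simp only [Fin.sum_univ_two, map_add, map_smul, add_mulVec, smul_mulVec, mulVec_add,
      mulVec_smul, ip_add_right, ip_smul_right, ip_add_left, ip_smul_left]
    ring
  have e2 : ∑ a, ∑ b, ip (c a) ((∑ a', ∑ e, (star (T a' a) * T e b) • nu c a' e) *ᵥ c b) =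
      (((del c).re * (T 0 0 + T 1 1).re ^ 2 : ℝ) : ℂ) := by
    rw [Complex.ofReal_mul, Complex.ofReal_pow, ← htr, ← del_im]
    simp only [Fin.sum_univ_two, add_mulVec, smul_mulVec, ip_add_right, ip_smul_right, h00, h11,
      h01, h10, nu, mu, del, tau, of_apply, Fin.isValue, cons_val', cons_val_zero, cons_val_one,
      cons_val_fin_one, neg_mulVec, sub_mulVec, one_mulVec, op_mulVec, ip_neg_right, ip_sub_right]
    ring
  rw [e1, mul_assoc]
  rw [e2, Complex.ofReal_re] at h
  exact h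

/-- a product vector has weight at most one -/
lemma lam_le_one [Nonempty α] (L : Matrix α α ℂ →⋆ₐ[ℂ] Matrix Ω Ω ℂ) (u : Fin 2 → Ω → ℂ)
    (hu : ∀ a b, ip (u a) (u b) = if a = b then 1 else 0)
    (c : Fin 2 → α → ℂ) (lam : ℝ) (hc : ip2 c c = 1) (hK : ∀ x, bf L u x c = lam * ip2 c x)
    (h0 : (del c).re = 0) : lam ≤ 1 := by
  have h := gram_ge L u c lam hc hK (tau_sq_gram c)
  have hd := del_im c
  rw [h0, Complex.ofReal_zero] at hd
  simp only [ip2, Fin.sum_univ_two] at hc
  simp only [del, tau, of_apply] at hd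
  have e1 : ∑ a, ∑ b, ip (c a) (((tau c * tau c) a b • (1 : Matrix α α ℂ)) *ᵥ c b) = 1 := by
    simp only [Fin.sum_univ_two, smul_mulVec, one_mulVec, ip_smul_right, Matrix.mul_apply, tau,
      of_apply]
    linear_combination ((ip (c 0) (c 0) + ip (c 1) (c 1)) ^ 2 + ip (c 0) (c 0) + ip (c 1) (c 1)
      + 1) * hc - 3 * (ip (c 0) (c 0) + ip (c 1) (c 1)) * hd
  have e2 : ∑ a, ∑ b, ip (u a) (L ((tau c * tau c) a b • (1 : Matrix α α ℂ)) *ᵥ u b) = 1 := by
    simp only [Fin.sum_univ_two, map_smul, map_one, smul_mulVec, one_mulVec, ip_smul_right,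
      Matrix.mul_apply, tau, of_apply, hu, if_true, zero_ne_one, one_ne_zero, if_false]
    linear_combination (ip (c 0) (c 0) + ip (c 1) (c 1) + 1) * hc - 2 * hd
  rw [e1, e2] at h
  simpa using h

end Pool.Agent.MP_b746ed_mp.KF

end

-- part MP_b746ed_mp.Key
section

/-! The inequality at a critical point. -/

set_option autoImplicit false
open scoped ComplexOrder
open Matrix

namespace Pool.Agent.MP_b746ed_mp.KF

variable {α Ω : Type} [Fintype α] [DecidableEq α] [Fintype Ω] [DecidableEq Ω]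

/-- the mixed discriminant of two block adjugates at different sites -/
noncomputable def mixd (L L' : Matrix α α ℂ →⋆ₐ[ℂ] Matrix Ω Ω ℂ)
    (Y Y' : Fin 2 → Fin 2 → Matrix α α ℂ) : Matrix Ω Ω ℂ :=
  L (Y 0 0) * L' (Y' 1 1) - L (Y 0 1) * L' (Y' 1 0) - L (Y 1 0) * L' (Y' 0 1) +
    L (Y 1 1) * L' (Y' 0 0)

lemma mixd_psd [Nonempty α] (L L' : Matrix α α ℂ →⋆ₐ[ℂ] Matrix Ω Ω ℂ)
    (hL : ∀ X X', L' X' * L X = L X * L' X') {Y Y' : Fin 2 → Fin 2 → Matrix α α ℂ}
    (hY : IsGram Y) (hY' : IsGram Y') : (mixd L L' Y Y').PosSemidef := by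
  obtain ⟨o⟩ := ‹Nonempty α›
  obtain ⟨ρ, _, g, hg⟩ := hY
  obtain ⟨ρ', _, g', hg'⟩ := hY'
  set e : α → ℂ := Pi.single o 1 with he
  have hee : ip e e = 1 := ip_single_self o
  have key : ∀ x y x' y' : α → ℂ, (L (op x e) * L' (op x' e)) * (L (op y e) * L' (op y' e))ᴴ =
      L (op x y) * L' (op x' y') := by
    intro x y x' y'
    rw [conjTranspose_mul, L_conj, L_conj, op_conjTranspose, op_conjTranspose, mul_assoc,
      ← mul_assoc (L' _), ← map_mul, op_mul_op, hee, one_smul, hL, ← mul_assoc, ← map_mul,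
      op_mul_op, hee, one_smul]
  have : mixd L L' Y Y' = ∑ r, ∑ r',
      (L (op (g r 0) e) * L' (op (g' r' 1) e) - L (op (g r 1) e) * L' (op (g' r' 0) e)) *
      (L (op (g r 0) e) * L' (op (g' r' 1) e) - L (op (g r 1) e) * L' (op (g' r' 0) e))ᴴ := by
    simp only [conjTranspose_sub, sub_mul, mul_sub, key, mixd, hg, hg', map_sum,
      Finset.sum_mul_sum, Finset.sum_sub_distrib]
    abel
  rw [this]
  exact posSemidef_sum _ fun r _ => posSemidef_sum _ fun r' _ =>
    posSemidef_self_mul_conjTranspose _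

/-- polarised Cayley-Hamilton identity -/
lemma cross_eq (L L' : Matrix α α ℂ →⋆ₐ[ℂ] Matrix Ω Ω ℂ)
    (hL : ∀ X X', L' X' * L X = L X * L' X') (c c' : Fin 2 → α → ℂ) (a b : Fin 2) :
    ∑ e, (L (nu c a e) * L' (mu c' e b) + L' (nu c' a e) * L (mu c e b)) =
      if a = b then mixd L L' (nu c) (nu c') else 0 := by
  fin_cases a <;> fin_cases b <;> simp [nu, mixd, hL] <;> abel

lemma cross_ge [Nonempty α] (L L' : Matrix α α ℂ →⋆ₐ[ℂ] Matrix Ω Ω ℂ)
    (hL : ∀ X X', L' X' * L X = L X * L' X') (c c' : Fin 2 → α → ℂ) (u : Fin 2 → Ω → ℂ)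
    {T : Matrix (Fin 2) (Fin 2) ℂ} (hT : T.PosSemidef) :
    0 ≤ (∑ a, ∑ e, ∑ b, ip (∑ g, T a g • u g) ((L (nu c a e) * L' (mu c' e b)) *ᵥ u b)).re +
      (∑ a, ∑ e, ∑ b, ip (∑ g, T a g • u g) ((L' (nu c' a e) * L (mu c e b)) *ᵥ u b)).re := by
  have h := psd_pair hT (mixd_psd L L' hL (nu_gram c) (nu_gram c')) u
  rw [← Complex.add_re]
  convert h using 2
  rw [← Finset.sum_add_distrib]
  refine Finset.sum_congr rfl fun a _ => ?_
  have : ∀ b, ip (∑ g, T a g • u g) ((if a = b then mixd L L' (nu c) (nu c') else 0) *ᵥ u b) =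
      if a = b then ip (∑ g, T a g • u g) (mixd L L' (nu c) (nu c') *ᵥ u a) else 0 := by
    intro b
    split_ifs with hab
    · rw [hab]
    · simp [ip_zero_right]
  have h2 := Finset.sum_congr (s₁ := Finset.univ) rfl fun b _ => this b
  rw [Finset.sum_ite_eq, if_pos (Finset.mem_univ _)] at h2
  rw [← h2]
  simp only [← cross_eq L L' hL c c', add_mulVec, ip_add_right,
    Fin.sum_univ_two]
  ring

/-- the inequality at a critical point with all weights at least one -/
theorem critical_le {ι : Type} [DecidableEq ι] [Nonempty α] (I : Finset ι)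
    (L : ι → (Matrix α α ℂ →⋆ₐ[ℂ] Matrix Ω Ω ℂ))
    (hL : ∀ j l, j ≠ l → ∀ X X', L l X' * L j X = L j X * L l X')
    (u : Fin 2 → Ω → ℂ) (hu : ∀ a b, ip (u a) (u b) = if a = b then 1 else 0)
    (c : ι → Fin 2 → α → ℂ) (hc : ∀ j, ip2 (c j) (c j) = 1) (lam : ι → ℝ)
    (hlam : ∀ j ∈ I, 1 ≤ lam j)
    (hK : ∀ j ∈ I, ∀ x, bf (L j) u x (c j) = lam j * ip2 (c j) x)
    (hU : ∀ a, ∑ j ∈ I, ∑ b, L j (op (c j a) (c j b)) *ᵥ u b =
      ∑ e, ip (u e) (∑ j ∈ I, ∑ b, L j (op (c j a) (c j b)) *ᵥ u b) • u e) :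
    ∑ j ∈ I, (lam j - 1) ≤ 1 := by
  set T : Matrix (Fin 2) (Fin 2) ℂ := ∑ j ∈ I, ((lam j - 1 : ℝ) : ℂ) • tau (c j) with hTdef
  have hT : T.PosSemidef := posSemidef_sum _ fun j hj => (tau_psd _).smul (by
    rw [← Complex.ofReal_zero, Complex.real_le_real]; linarith [hlam j hj])
  have hX : (T 0 0 + T 1 1).re = ∑ j ∈ I, (lam j - 1) := by
    have : T 0 0 + T 1 1 = ∑ j ∈ I, ((lam j - 1 : ℝ) : ℂ) := by
      simp only [hTdef, Matrix.sum_apply, Matrix.smul_apply, smul_eq_mul,
        ← Finset.sum_add_distrib]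
      refine Finset.sum_congr rfl fun j _ => ?_
      have := hc j
      simp only [ip2, Fin.sum_univ_two] at this
      simp only [tau, of_apply]
      rw [← mul_add, this, mul_one]
    rw [this, ← Complex.ofReal_sum, Complex.ofReal_re]
  set X := ∑ j ∈ I, (lam j - 1) with hXdef
  have hE : ∀ a, ∑ l ∈ I, ∑ b, L l (mu (c l) a b) *ᵥ u b = -∑ g, T a g • u g := by
    intro a
    have h1 : ∀ e, ip (u e) (∑ j ∈ I, ∑ b, L j (op (c j a) (c j b)) *ᵥ u b) =
        ∑ j ∈ I, lam j * tau (c j) a e := by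
      intro e
      rw [ip_sum_right]
      refine Finset.sum_congr rfl fun j hj => ?_
      rw [ip_sum_right, kkt_row (L j) u (c j) (lam j) (hK j hj)]
      rfl
    have h2 := hU a
    simp only [h1] at h2
    simp only [mu, map_sub, map_smul, map_one, sub_mulVec, smul_mulVec, one_mulVec,
      Finset.sum_sub_distrib, h2, hTdef, Matrix.sum_apply, Matrix.smul_apply, smul_eq_mul,
      Finset.sum_smul]
    rw [Finset.sum_comm, ← Finset.sum_sub_distrib, ← Finset.sum_neg_distrib]
    refine Finset.sum_congr rfl fun g _ => ?_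
    rw [← Finset.sum_sub_distrib, ← Finset.sum_neg_distrib]
    refine Finset.sum_congr rfl fun j _ => ?_
    push_cast
    module
  set Q : ι → ι → ℝ := fun j l => (∑ a, ∑ e, ∑ b, ip (∑ g, T a g • u g)
    ((L j (nu (c j) a e) * L l (mu (c l) e b)) *ᵥ u b)).re with hQ
  set σ : ι → ℝ := fun j => lam j * (del (c j)).re with hσ
  have hsum : ∀ j ∈ I, ∑ l ∈ I, Q j l ≤ -(σ j * X ^ 2) := by
    intro j hj
    have h := nu_ge (L j) u (c j) (lam j) (hc j) (hK j hj) hT
    rw [hX] at h
    have e : ∑ l ∈ I, Q j l = -(∑ a, ∑ e, ip (∑ g, T a g • u g)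
        (L j (nu (c j) a e) *ᵥ ∑ g, T e g • u g)).re := by
      simp only [hQ]
      rw [← Complex.re_sum, ← Complex.neg_re, Finset.sum_comm, ← Finset.sum_neg_distrib]
      congr 1
      refine Finset.sum_congr rfl fun a _ => ?_
      rw [Finset.sum_comm, ← Finset.sum_neg_distrib]
      refine Finset.sum_congr rfl fun e _ => ?_
      rw [← ip_neg_right, ← mulVec_neg, ← hE e]
      simp only [mulVec_sum, ip_sum_right, mulVec_mulVec]
    rw [e]
    simp only [hσ]
    linarith
  have hpair : ∀ j ∈ I, ∀ l ∈ I, (if j = l then -(2 * (σ j * X)) else 0) ≤ Q j l + Q l j := by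
    intro j hj l _
    split_ifs with hjl
    · subst hjl
      have h := diag_ge (L j) u (c j) (lam j) (hK j hj) hT
      rw [hX] at h
      simp only [hQ, hσ]
      linarith
    · exact cross_ge (L j) (L l) (hL j l hjl) (c j) (c l) u hT
  have h1 : ∑ j ∈ I, ∑ l ∈ I, Q j l ≤ -((∑ j ∈ I, σ j) * X ^ 2) := by
    rw [Finset.sum_mul, ← Finset.sum_neg_distrib]
    exact Finset.sum_le_sum hsum
  have h2 : -(2 * ((∑ j ∈ I, σ j) * X)) ≤ 2 * ∑ j ∈ I, ∑ l ∈ I, Q j l := by
    have h3 := Finset.sum_le_sum fun j hj => Finset.sum_le_sum fun l hl => hpair j hj l hl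
    simp only [Finset.sum_add_distrib] at h3
    rw [Finset.sum_comm (f := fun j l => Q l j)] at h3
    have h4 : ∑ j ∈ I, ∑ l ∈ I, (if j = l then -(2 * (σ j * X)) else 0) =
        -(2 * ((∑ j ∈ I, σ j) * X)) := by
      rw [Finset.sum_mul, Finset.mul_sum, ← Finset.sum_neg_distrib]
      refine Finset.sum_congr rfl fun j hj => ?_
      rw [Finset.sum_ite_eq, if_pos hj]
    linarith
  have hσ0 : ∀ j ∈ I, 0 ≤ σ j := fun j hj =>
    mul_nonneg (by linarith [hlam j hj]) (del_nonneg _)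
  rcases (Finset.sum_nonneg hσ0).eq_or_lt with h0 | h0
  · have h5 := (Finset.sum_eq_zero_iff_of_nonneg hσ0).1 h0.symm
    have h6 : X ≤ 0 := Finset.sum_nonpos fun j hj => by
      have h7 : (del (c j)).re = 0 := by
        rcases mul_eq_zero.1 (h5 j hj) with h | h
        · linarith [hlam j hj]
        · exact h
      linarith [lam_le_one (L j) u hu (c j) (lam j) (hc j) (hK j hj) h7]
    linarith
  · by_contra hcon
    push Not at hcon
    have h8 : 0 < (∑ j ∈ I, σ j) * X * (X - 1) := by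
      apply mul_pos (mul_pos h0 (by linarith)) (by linarith)
    nlinarith

end Pool.Agent.MP_b746ed_mp.KF

end

-- part MP_b746ed_mp.Max
section

/-! First order conditions at a maximiser and the key inequality. -/

set_option autoImplicit false
open scoped ComplexOrder
open Matrix

namespace Pool.Agent.MP_b746ed_mp.KF

variable {α Ω : Type} [Fintype α] [DecidableEq α] [Fintype Ω] [DecidableEq Ω]

lemma quad_zero {z : ℂ} {h : ℝ} (H : ∀ s : ℂ, 0 ≤ 2 * (s * z).re + Complex.normSq s * h) :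
    z = 0 := by
  by_contra hz
  have hn : 0 < Complex.normSq z := Complex.normSq_pos.2 hz
  set t : ℝ := 1 / (|h| + 1) with ht
  have ht0 : 0 < t := by positivity
  have h1 := H (-(t : ℂ) * star z)
  have e1 : (-(t : ℂ) * star z * z).re = -t * Complex.normSq z := by
    rw [mul_assoc, Complex.star_def, ← Complex.normSq_eq_conj_mul_self, ← Complex.ofReal_neg,
      ← Complex.ofReal_mul, Complex.ofReal_re]
  have e2 : Complex.normSq (-(t : ℂ) * star z) = t ^ 2 * Complex.normSq z := by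
    simp [Complex.normSq_mul, sq]
  rw [e1, e2] at h1
  have h2 : t * h < 1 := by
    rw [ht, div_mul_eq_mul_div, one_mul, div_lt_one (by positivity)]
    linarith [le_abs_self h]
  have h3 : 0 < t * Complex.normSq z := mul_pos ht0 hn
  nlinarith

lemma bf_smul (L : Matrix α α ℂ →⋆ₐ[ℂ] Matrix Ω Ω ℂ) (u : Fin 2 → Ω → ℂ)
    (x : Fin 2 → α → ℂ) (s : ℝ) : bf L u ((s : ℂ) • x) ((s : ℂ) • x) = (s ^ 2 : ℝ) * bf L u x x := by
  simp only [bf, Pi.smul_apply, op_smul_left, op_smul_right, map_smul, smul_mulVec, ip_smul_right,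
    Fin.sum_univ_two, Complex.star_def, Complex.conj_ofReal]
  push_cast
  ring

lemma ip2_smul {β : Type} [Fintype β] (x : Fin 2 → β → ℂ) (s : ℝ) :
    ip2 ((s : ℂ) • x) ((s : ℂ) • x) = (s ^ 2 : ℝ) * ip2 x x := by
  simp only [ip2, Pi.smul_apply, ip_smul_left, ip_smul_right, Fin.sum_univ_two, Complex.star_def,
    Complex.conj_ofReal]
  push_cast
  ring

lemma ip2_self_nonneg {β : Type} [Fintype β] (x : Fin 2 → β → ℂ) : 0 ≤ (ip2 x x).re := by
  rw [ip2, Complex.re_sum]
  exact Finset.sum_nonneg fun a _ => ip_self_re_nonneg _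

lemma ip2_self_ofReal {β : Type} [Fintype β] (x : Fin 2 → β → ℂ) :
    ip2 x x = ((ip2 x x).re : ℂ) := by
  refine Complex.ext rfl ?_
  simp [ip2, ip_self_im]

lemma eq_zero_of_ip2 {β : Type} [Fintype β] {x : Fin 2 → β → ℂ} (h : (ip2 x x).re = 0) :
    x = 0 := by
  rw [ip2, Complex.re_sum] at h
  have := (Finset.sum_eq_zero_iff_of_nonneg (fun a _ => ip_self_re_nonneg (x a))).1 h
  funext a
  exact eq_zero_of_ip_self (this a (Finset.mem_univ _))

lemma ip2_normalize {β : Type} [Fintype β] {x : Fin 2 → β → ℂ} (h : 0 < (ip2 x x).re) :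
    ip2 ((((√(ip2 x x).re)⁻¹ : ℝ) : ℂ) • x) ((((√(ip2 x x).re)⁻¹ : ℝ) : ℂ) • x) = 1 := by
  rw [ip2_smul, inv_pow, Real.sq_sqrt h.le]
  conv_lhs => rw [ip2_self_ofReal x, Complex.ofReal_re, ← Complex.ofReal_mul,
    inv_mul_cancel₀ h.ne']
  simp

lemma bf_le_of_unit (L : Matrix α α ℂ →⋆ₐ[ℂ] Matrix Ω Ω ℂ) (u : Fin 2 → Ω → ℂ) (lam : ℝ)
    (H : ∀ g, ip2 g g = 1 → (bf L u g g).re ≤ lam) (g : Fin 2 → α → ℂ) :
    (bf L u g g).re ≤ lam * (ip2 g g).re := by
  rcases (ip2_self_nonneg g).eq_or_lt with h | h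
  · rw [← h, eq_zero_of_ip2 h.symm]
    simp [bf, op_zero_left, ip_zero_right]
  · have h1 := H _ (ip2_normalize h)
    rw [bf_smul, inv_pow, Real.sq_sqrt h.le, Complex.re_ofReal_mul, inv_mul_le_iff₀ h] at h1
    linarith

lemma kkt_c [Nonempty α] (L : Matrix α α ℂ →⋆ₐ[ℂ] Matrix Ω Ω ℂ) (u : Fin 2 → Ω → ℂ)
    (c : Fin 2 → α → ℂ) (hc : ip2 c c = 1)
    (H : ∀ g, ip2 g g = 1 → (bf L u g g).re ≤ (bf L u c c).re) (x : Fin 2 → α → ℂ) :
    bf L u x c = ((bf L u c c).re : ℝ) * ip2 c x := by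
  set lam := (bf L u c c).re with hlam
  have H' := bf_le_of_unit L u lam H
  have : (lam : ℂ) * ip2 c x - bf L u x c = 0 := by
    refine quad_zero (h := lam * (ip2 x x).re - (bf L u x x).re) fun s => ?_
    have h1 := H' (c + s • x)
    rw [bf_expand, ip2_expand, hc, ← star_bf L u x c, ← star_ip2 c x, ← star_mul', ← star_mul',
      Complex.star_def, Complex.mul_conj] at h1
    simp only [Complex.add_re, Complex.conj_re, Complex.re_ofReal_mul, Complex.one_re] at h1
    have e : (s * (lam * ip2 c x - bf L u x c)).re =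
        lam * (s * ip2 c x).re - (s * bf L u x c).re := by
      rw [mul_sub, Complex.sub_re, mul_left_comm, Complex.re_ofReal_mul]
    rw [e]
    nlinarith
  exact (sub_eq_zero.1 this).symm

lemma poly_limit {N a1 b1 b2 b3 : ℝ} (hN : 0 < N)
    (H : ∀ σ τ : ℝ, σ ^ 2 + τ ^ 2 * N = 1 →
      2 * (σ - 1) * a1 + 2 * τ * N + (σ - 1) ^ 2 * b1 + τ ^ 2 * b2 + (σ - 1) * τ * b3 ≤ 0) :
    False := by
  set g : ℝ → ℝ := fun t => -4 * t * N * (1 + t ^ 2 * N) * a1 + 4 * (1 + t ^ 2 * N) * N +
    4 * t ^ 3 * N ^ 2 * b1 + 4 * t * b2 - 4 * t ^ 2 * N * b3 with hg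
  have hc : ContinuousAt g 0 := by
    simp only [hg]; fun_prop
  have hle : ∀ t, 0 < t → g t ≤ 0 := by
    intro t ht
    have hD : 0 < 1 + t ^ 2 * N := by positivity
    have h1 := H ((1 - t ^ 2 * N) / (1 + t ^ 2 * N)) (2 * t / (1 + t ^ 2 * N)) (by
      field_simp; ring)
    have e : 2 * ((1 - t ^ 2 * N) / (1 + t ^ 2 * N) - 1) * a1 + 2 * (2 * t / (1 + t ^ 2 * N)) * N +
        ((1 - t ^ 2 * N) / (1 + t ^ 2 * N) - 1) ^ 2 * b1 + (2 * t / (1 + t ^ 2 * N)) ^ 2 * b2 +
        ((1 - t ^ 2 * N) / (1 + t ^ 2 * N) - 1) * (2 * t / (1 + t ^ 2 * N)) * b3 =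
        t / (1 + t ^ 2 * N) ^ 2 * g t := by
      simp only [hg]; field_simp; ring
    rw [e] at h1
    exact nonpos_of_mul_nonpos_right h1 (by positivity)
  have h0 : g 0 ≤ 0 :=
    le_of_tendsto (hc.tendsto.mono_left (nhdsWithin_le_nhds (s := Set.Ioi 0)))
      (eventually_nhdsWithin_of_forall hle)
  simp only [hg] at h0
  nlinarith

omit [DecidableEq Ω] in
lemma kkt_u (A : Fin 2 → Fin 2 → Matrix Ω Ω ℂ) (hA : ∀ a b, (A a b)ᴴ = A b a)
    (u : Fin 2 → Ω → ℂ) (hu : ∀ a b, ip (u a) (u b) = if a = b then 1 else 0)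
    (H : ∀ v : Fin 2 → Ω → ℂ, (∀ a b, ip (v a) (v b) = if a = b then 1 else 0) →
      (∑ a, ∑ b, ip (v a) (A a b *ᵥ v b)).re ≤ (∑ a, ∑ b, ip (u a) (A a b *ᵥ u b)).re)
    (a : Fin 2) : ∑ b, A a b *ᵥ u b = ∑ e, ip (u e) (∑ b, A a b *ᵥ u b) • u e := by
  set y := ∑ b, A a b *ᵥ u b with hy
  set r := y - ∑ e, ip (u e) y • u e with hr
  have h00 : ip (u 0) (u 0) = 1 := by simpa using hu 0 0
  have h01 : ip (u 0) (u 1) = 0 := by simpa using hu 0 1
  have h10 : ip (u 1) (u 0) = 0 := by simpa using hu 1 0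
  have h11 : ip (u 1) (u 1) = 1 := by simpa using hu 1 1
  have hr0 : ip (u 0) r = 0 := by
    simp [hr, ip_sub_right, ip_add_right, ip_smul_right, h00, h01]
  have hr1 : ip (u 1) r = 0 := by
    simp [hr, ip_sub_right, ip_add_right, ip_smul_right, h10, h11]
  have hr0' : ip r (u 0) = 0 := by rw [← star_ip, hr0, star_zero]
  have hr1' : ip r (u 1) = 0 := by rw [← star_ip, hr1, star_zero]
  have hry : ip r y = ip r r := by
    have : ip r r = ip r (y - ∑ e, ip (u e) y • u e) := rfl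
    rw [this]
    simp [ip_sub_right, ip_add_right, ip_smul_right, hr0', hr1']
  have hsym : ∀ a b p q, (ip p (A a b *ᵥ q)).re = (ip q (A b a *ᵥ p)).re := by
    intro a b p q
    rw [ip_mulVec, hA, ← star_ip, Complex.star_def, Complex.conj_re]
  rcases (ip_self_re_nonneg r).eq_or_lt with h | h
  · exact sub_eq_zero.1 (eq_zero_of_ip_self h.symm)
  exfalso
  have hN := ip_self_ofReal r
  set N := (ip r r).re with hNdef
  have hry' : (ip r y).re = N := by rw [hry]
  refine poly_limit (a1 := (ip (u a) y).re) (b1 := (ip (u a) (A a a *ᵥ u a)).re)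
    (b2 := (ip r (A a a *ᵥ r)).re) (b3 := 2 * (ip r (A a a *ᵥ u a)).re) h fun σ τ hst => ?_
  have hst' : (σ : ℂ) ^ 2 + (τ : ℂ) ^ 2 * N = 1 := by exact_mod_cast hst
  clear_value N r
  have h1 := H (Function.update u a ((σ : ℂ) • u a + (τ : ℂ) • r)) (by
    intro b b'
    fin_cases a <;> fin_cases b <;> fin_cases b' <;>
      simp [ip_add_left, ip_add_right, ip_smul_left, ip_smul_right, h00, h01, h10, h11, hr0, hr1,
        hr0', hr1', hN, -Complex.coe_smul] <;> linear_combination hst')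
  rw [hy] at hry' ⊢
  fin_cases a
  · simp [ip_add_left, ip_add_right, ip_smul_left, ip_smul_right, mulVec_add, mulVec_smul,
      -Complex.coe_smul] at h1 hry' ⊢
    rw [hsym 1 0 (u 1) (u 0), hsym 1 0 (u 1) r, hsym 0 0 (u 0) r] at h1
    have h2 := congrArg (τ * ·) hry'
    linarith
  · simp [ip_add_left, ip_add_right, ip_smul_left, ip_smul_right, mulVec_add, mulVec_smul,
      -Complex.coe_smul] at h1 hry' ⊢
    rw [hsym 0 1 (u 0) (u 1), hsym 0 1 (u 0) r, hsym 1 1 (u 1) r] at h1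
    have h2 := congrArg (τ * ·) hry'
    linarith

lemma norm_le_one_of_ip {β : Type} [Fintype β] {x : β → ℂ} (h : (ip x x).re ≤ 1) : ‖x‖ ≤ 1 := by
  rw [ip_self_re] at h
  refine (pi_norm_le_iff_of_nonneg zero_le_one).2 fun i => ?_
  have : ‖x i‖ ^ 2 ≤ ∑ i, ‖x i‖ ^ 2 :=
    Finset.single_le_sum (f := fun i => ‖x i‖ ^ 2) (fun _ _ => by positivity) (Finset.mem_univ i)
  nlinarith [norm_nonneg (x i)]

lemma continuous_ip {X β : Type} [TopologicalSpace X] [Fintype β] {f g : X → β → ℂ}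
    (hf : Continuous f) (hg : Continuous g) : Continuous fun x => ip (f x) (g x) := by
  unfold ip
  exact (continuous_star.comp hf).dotProduct hg

lemma continuous_bf {X : Type} [TopologicalSpace X] (L : Matrix α α ℂ →⋆ₐ[ℂ] Matrix Ω Ω ℂ)
    {u : X → Fin 2 → Ω → ℂ} {c : X → Fin 2 → α → ℂ} (hu : Continuous u) (hc : Continuous c) :
    Continuous fun x => bf L (u x) (c x) (c x) := by
  have hL : Continuous L :=
    LinearMap.continuous_of_finiteDimensional (L : Matrix α α ℂ →ₗ[ℂ] Matrix Ω Ω ℂ)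
  unfold bf
  refine continuous_finsetSum _ fun a _ => continuous_finsetSum _ fun b _ => ?_
  refine continuous_ip ((continuous_apply a).comp hu) (Continuous.matrix_mulVec (hL.comp ?_)
    ((continuous_apply b).comp hu))
  unfold op
  exact Continuous.matrix_vecMulVec ((continuous_apply a).comp hc)
    (continuous_star.comp ((continuous_apply b).comp hc))

/-- the key inequality in its local form -/
theorem key_local {ι : Type} [Fintype ι] [DecidableEq ι] [Nonempty α]
    (L : ι → (Matrix α α ℂ →⋆ₐ[ℂ] Matrix Ω Ω ℂ))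
    (hL : ∀ j l, j ≠ l → ∀ X X', L l X' * L j X = L j X * L l X') (I : Finset ι) :
    ∀ (u : Fin 2 → Ω → ℂ) (_ : ∀ a b, ip (u a) (u b) = if a = b then 1 else 0)
      (c : ι → Fin 2 → α → ℂ) (_ : ∀ j, ip2 (c j) (c j) = 1),
      ∑ j ∈ I, (bf (L j) u (c j) (c j)).re ≤ I.card + 1 := by
  induction I using Finset.strongInduction with
  | H I ih =>
  intro u₀ hu₀ c₀ hc₀
  set K : Set ((Fin 2 → Ω → ℂ) × (ι → Fin 2 → α → ℂ)) :=
    {p | (∀ a b, ip (p.1 a) (p.1 b) = if a = b then 1 else 0) ∧ ∀ j, ip2 (p.2 j) (p.2 j) = 1}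
    with hKdef
  have hK : IsCompact K := by
    refine Metric.isCompact_of_isClosed_isBounded ?_ ?_
    · simp only [hKdef, Set.ofPred_and, Set.ofPred_forall]
      refine IsClosed.inter (isClosed_iInter fun a => isClosed_iInter fun b =>
        isClosed_eq (continuous_ip (by fun_prop) (by fun_prop)) continuous_const)
        (isClosed_iInter fun j => isClosed_eq ?_ continuous_const)
      unfold ip2
      exact continuous_finsetSum _ fun a _ => continuous_ip (by fun_prop) (by fun_prop)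
    · refine (Metric.isBounded_closedBall (x := 0) (r := 1)).subset fun p hp => ?_
      rw [mem_closedBall_zero_iff, Prod.norm_def]
      refine max_le ((pi_norm_le_iff_of_nonneg zero_le_one).2 fun a => norm_le_one_of_ip ?_)
        ((pi_norm_le_iff_of_nonneg zero_le_one).2 fun j =>
          (pi_norm_le_iff_of_nonneg zero_le_one).2 fun a => norm_le_one_of_ip ?_)
      · rw [hp.1 a a]; simp
      · have h1 := congrArg Complex.re (hp.2 j)
        rw [ip2, Complex.re_sum, Complex.one_re] at h1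
        rw [← h1]
        exact Finset.single_le_sum (f := fun a => (ip (p.2 j a) (p.2 j a)).re)
          (fun _ _ => ip_self_re_nonneg _) (Finset.mem_univ a)
  have hF : Continuous fun p : (Fin 2 → Ω → ℂ) × (ι → Fin 2 → α → ℂ) =>
      ∑ j ∈ I, (bf (L j) p.1 (p.2 j) (p.2 j)).re :=
    continuous_finsetSum _ fun j _ =>
      Complex.continuous_re.comp (continuous_bf (L j) continuous_fst (by fun_prop))
  obtain ⟨⟨u, c⟩, ⟨hu, hc⟩, hmax⟩ := hK.exists_isMaxOn ⟨(u₀, c₀), hu₀, hc₀⟩ hF.continuousOn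
  simp only at hu hc
  have hmax' : ∀ (v : Fin 2 → Ω → ℂ) (d : ι → Fin 2 → α → ℂ),
      (∀ a b, ip (v a) (v b) = if a = b then 1 else 0) →
      (∀ j, ip2 (d j) (d j) = 1) → ∑ j ∈ I, (bf (L j) v (d j) (d j)).re ≤
        ∑ j ∈ I, (bf (L j) u (c j) (c j)).re := fun v d hv hd => by
    have h := isMaxOn_iff.1 hmax (v, d) ⟨hv, hd⟩
    simpa only using h
  refine (hmax' u₀ c₀ hu₀ hc₀).trans ?_
  by_cases hlam : ∀ j ∈ I, 1 ≤ (bf (L j) u (c j) (c j)).re
  · have h := critical_le I L hL u hu c hc (fun j => (bf (L j) u (c j) (c j)).re) hlam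
      (fun j hj => kkt_c (L j) u (c j) (hc j) fun g hg => ?_) (fun a => ?_)
    · simp only [Finset.sum_sub_distrib, Finset.sum_const, nsmul_eq_mul, mul_one] at h
      linarith
    · have h1 := hmax' u (Function.update c j g) hu (fun l => by
        rcases eq_or_ne l j with rfl | hl
        · simpa using hg
        · simpa [Function.update_of_ne hl] using hc l)
      rw [← Finset.add_sum_erase _ _ hj, ← Finset.add_sum_erase _ _ hj,
        Finset.sum_congr rfl (fun l hl => by
          rw [Function.update_of_ne (Finset.ne_of_mem_erase hl)]), Function.update_self] at h1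
      linarith
    · have e : ∀ v : Fin 2 → Ω → ℂ, (∑ a, ∑ b, ip (v a)
          ((∑ j ∈ I, L j (op (c j a) (c j b))) *ᵥ v b)).re =
          ∑ j ∈ I, (bf (L j) v (c j) (c j)).re := by
        intro v
        rw [← Complex.re_sum]
        simp only [sum_mulVec, ip_sum_right, bf, Fin.sum_univ_two, Finset.sum_add_distrib]
      have h2 := kkt_u (fun a b => ∑ j ∈ I, L j (op (c j a) (c j b))) (fun a b => by
        simp only [conjTranspose_sum, L_conj, op_conjTranspose]) u hu (fun v hv => by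
        rw [e, e]; exact hmax' v c hv hc) a
      simp only [sum_mulVec] at h2
      rwa [Finset.sum_comm] at h2
  · push Not at hlam
    obtain ⟨j, hj, hlt⟩ := hlam
    have h1 := ih (I.erase j) (Finset.erase_ssubset hj) u hu c hc
    rw [← Finset.add_sum_erase _ _ hj, ← Finset.card_erase_add_one hj]
    push_cast
    linarith

lemma op_eq_sum_left (x y : α → ℂ) : op y x = ∑ s, star (x s) • op y (Pi.single s 1) := by
  ext a b
  simp [Matrix.sum_apply, op_apply, Pi.single_apply, mul_comm]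

/-- the key inequality for `m` projections of the form (pure state) tensor (identity at one
site): the two largest eigenvalues of their sum add up to at most `m + 1` -/
theorem key_pair {ι : Type} [Fintype ι] [DecidableEq ι] (o : α)
    (L : ι → (Matrix α α ℂ →⋆ₐ[ℂ] Matrix Ω Ω ℂ))
    (hL : ∀ j l, j ≠ l → ∀ X X', L l X' * L j X = L j X * L l X') (I : Finset ι)
    (u : Fin 2 → Ω → ℂ) (hu : ∀ a b, ip (u a) (u b) = if a = b then 1 else 0)
    (φ : ι → Ω → ℂ) (hφ : ∀ j, ip (φ j) (φ j) = 1) :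
    ∑ j ∈ I, ∑ a, ∑ s, Complex.normSq
      (ip (L j (op (Pi.single s 1) (Pi.single o 1)) *ᵥ φ j) (u a)) ≤ I.card + 1 := by
  have : Nonempty α := ⟨o⟩
  set c' : ι → Fin 2 → α → ℂ := fun j a s =>
    ip (L j (op (Pi.single s 1) (Pi.single o 1)) *ᵥ φ j) (u a) with hc'
  have hn : ∀ j, ∑ a, ∑ s, Complex.normSq (c' j a s) = (ip2 (c' j) (c' j)).re := by
    intro j
    simp only [ip2, Complex.re_sum, ip_self_re, Complex.normSq_eq_norm_sq]
  have hex : ∀ j, ∃ c : Fin 2 → α → ℂ, ip2 c c = 1 ∧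
      (ip2 (c' j) (c' j)).re ≤ (bf (L j) u c c).re := by
    intro j
    rcases (ip2_self_nonneg (c' j)).eq_or_lt with h | h
    · refine ⟨Pi.single 0 (Pi.single o 1), by simp [ip2, ip_single_self, ip_zero_right], ?_⟩
      rw [← h]; exact bf_nonneg _ _ _
    · refine ⟨_, ip2_normalize h, ?_⟩
      rw [bf_smul, inv_pow, Real.sq_sqrt h.le, Complex.re_ofReal_mul, le_inv_mul_iff₀ h, bf_eq _ o]
      have h1 := normSq_ip_le (φ j) (∑ a, L j (op (Pi.single o 1) (c' j a)) *ᵥ u a)
      have h2 : ip (φ j) (∑ a, L j (op (Pi.single o 1) (c' j a)) *ᵥ u a) = ip2 (c' j) (c' j) := by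
        rw [ip_sum_right, ip2]
        refine Finset.sum_congr rfl fun a _ => ?_
        rw [op_eq_sum_left, map_sum, sum_mulVec, ip_sum_right, ip_eq (c' j a)]
        refine Finset.sum_congr rfl fun s _ => ?_
        rw [map_smul, smul_mulVec, ip_smul_right, ip_mulVec, L_conj, op_conjTranspose]
      rw [h2, hφ, Complex.one_re, one_mul, ip2_self_ofReal, Complex.normSq_ofReal] at h1
      exact h1
  choose c hc hle using hex
  refine le_trans (Finset.sum_le_sum fun j _ => ?_) (key_local L hL I u hu c hc)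
  exact (hn j).trans_le (hle j)

lemma single_le (o : α) (L : Matrix α α ℂ →⋆ₐ[ℂ] Matrix Ω Ω ℂ) (z φ : Ω → ℂ)
    (hz : ip z z = 1) (hφ : ip φ φ = 1) :
    ∑ s, Complex.normSq (ip (L (op (Pi.single s 1) (Pi.single o 1)) *ᵥ φ) z) ≤ 1 := by
  have h1 : ∀ s, Complex.normSq (ip (L (op (Pi.single s 1) (Pi.single o 1)) *ᵥ φ) z) ≤
      (ip z (L (op (Pi.single s 1) (Pi.single s 1)) *ᵥ z)).re := by
    intro s
    have h := normSq_ip_le φ (L (op (Pi.single o 1) (Pi.single s 1)) *ᵥ z)
    rw [hφ, Complex.one_re, one_mul, ip_mulVec, L_conj, op_conjTranspose] at h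
    rw [L_op_eq L o (Pi.single s 1) (Pi.single s 1), ← mulVec_mulVec, ip_mulVec,
      conjTranspose_conjTranspose]
    exact h
  refine (Finset.sum_le_sum fun s _ => h1 s).trans ?_
  rw [← Complex.re_sum, ← ip_sum_right, ← sum_mulVec, ← map_sum, sum_op_single, map_one,
    one_mulVec, hz, Complex.one_re]

end Pool.Agent.MP_b746ed_mp.KF

end

-- part MP_b746ed_mp.Ode
section

/-! A lower bound for the mean of a set function under a product measure. -/

set_option autoImplicit false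

namespace Pool.Agent.MP_b746ed_mp.KF

variable {ι : Type} [Fintype ι] [DecidableEq ι]

lemma sum_split (i : ι) (F : Finset ι → ℝ) :
    ∑ T, F T = ∑ T, if i ∈ T then 0 else F T + F (insert i T) := by
  have h1 : ∑ T, F T = ∑ T with i ∈ T, F T + ∑ T with i ∉ T, F T :=
    (Finset.sum_filter_add_sum_filter_not _ _ _).symm
  have h2 : ∑ T with i ∈ T, F T = ∑ T with i ∉ T, F (insert i T) := by
    refine Finset.sum_nbij' (fun T => T.erase i) (fun T => insert i T) ?_ ?_ ?_ ?_ ?_
    · intro T hT; simp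
    · intro T hT; simp
    · intro T hT; simp only [Finset.mem_filter, Finset.mem_univ, true_and] at hT
      exact Finset.insert_erase hT
    · intro T hT; simp only [Finset.mem_filter, Finset.mem_univ, true_and] at hT
      exact Finset.erase_insert hT
    · intro T hT; simp only [Finset.mem_filter, Finset.mem_univ, true_and] at hT
      rw [Finset.insert_erase hT]
  rw [h1, h2, ← Finset.sum_add_distrib, Finset.sum_filter]
  refine Finset.sum_congr rfl fun T _ => ?_
  split_ifs <;> ring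

theorem expect_ge (z : Finset ι → ℝ)
    (hz : ∀ C I : Finset ι, (∀ i ∈ I, i ∉ C) → ∑ i ∈ I, (z C - z (insert i C)) ≤ z C)
    (p : ι → ℝ) (P : ℝ) (hp : ∀ i, 0 ≤ p i ∧ p i ≤ P) (hP0 : 0 ≤ P) (hP : P ≤ 1) :
    (1 - P) * z ∅ ≤ ∑ T : Finset ι, (∏ i, if i ∈ T then p i else 1 - p i) * z T := by
  have hz0 : ∀ C, 0 ≤ z C := fun C => by simpa using hz C ∅ (by simp)
  set f : Finset ι → ι → ℝ → ℝ := fun T i t => if i ∈ T then t * p i else 1 - t * p i with hf
  have hf0 : ∀ T i t, 0 ≤ t → t ≤ 1 → 0 ≤ f T i t := by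
    intro T i t h0 h1
    simp only [hf]
    split_ifs
    · exact mul_nonneg h0 (hp i).1
    · nlinarith [(hp i).1, (hp i).2]
  set G : ℝ → ℝ := fun t => ∑ T : Finset ι, (∏ i, f T i t) * z T with hG
  have hG1 : G 1 = ∑ T : Finset ι, (∏ i, if i ∈ T then p i else 1 - p i) * z T := by
    simp [hG, hf]
  have hG0 : G 0 = z ∅ := by
    simp only [hG]
    rw [Finset.sum_eq_single ∅]
    · simp [hf]
    · intro T _ hT
      obtain ⟨i, hi⟩ := Finset.nonempty_iff_ne_empty.2 hT
      rw [Finset.prod_eq_zero (Finset.mem_univ i) (by simp [hf, hi]), zero_mul]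
    · simp
  rw [← hG1]
  rcases hP.eq_or_lt with rfl | hP
  · simp only [sub_self, zero_mul, hG]
    exact Finset.sum_nonneg fun T _ => mul_nonneg
      (Finset.prod_nonneg fun i _ => hf0 T i 1 zero_le_one le_rfl) (hz0 T)
  set G' : ℝ → ℝ := fun t => ∑ T : Finset ι,
    (∑ i, (∏ j ∈ Finset.univ.erase i, f T j t) • (if i ∈ T then p i else -p i)) * z T with hG'
  have hd : ∀ t, HasDerivAt G (G' t) t := by
    intro t
    refine HasDerivAt.fun_sum fun T _ => HasDerivAt.mul_const ?_ _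
    refine HasDerivAt.fun_finsetProd (f := fun i t => f T i t) fun i _ => ?_
    simp only [hf]
    split_ifs
    · simpa using (hasDerivAt_id t).mul_const (p i)
    · simpa using ((hasDerivAt_id t).mul_const (p i)).const_sub 1
  have hineq : ∀ t, 0 ≤ t → t ≤ 1 → 0 ≤ G' t * (1 - t * P) + P * G t := by
    intro t h0 h1
    have e : G' t = ∑ T : Finset ι, ∑ i, if i ∈ T then 0 else
        (∏ j ∈ Finset.univ.erase i, f T j t) * p i * (z (insert i T) - z T) := by
      simp only [hG', Finset.sum_mul]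
      rw [Finset.sum_comm, Finset.sum_comm (f := fun T i => if i ∈ T then (0 : ℝ) else _)]
      refine Finset.sum_congr rfl fun i _ => ?_
      rw [sum_split i]
      refine Finset.sum_congr rfl fun T _ => ?_
      split_ifs with hi h2
      · rfl
      · have : ∏ j ∈ Finset.univ.erase i, f (insert i T) j t =
            ∏ j ∈ Finset.univ.erase i, f T j t :=
          Finset.prod_congr rfl fun j hj => by
            simp [hf, Finset.ne_of_mem_erase hj]
        rw [this]
        simp only [smul_eq_mul]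
        ring
      · simp at h2
    rw [e]
    simp only [hG, Finset.sum_mul, Finset.mul_sum, ← Finset.sum_add_distrib]
    refine Finset.sum_nonneg fun T _ => ?_
    have hw : 0 ≤ ∏ i, f T i t := Finset.prod_nonneg fun i _ => hf0 T i t h0 h1
    have h2 := hz T (Finset.univ.filter fun i => i ∉ T ∧ z (insert i T) < z T) (by
      intro i hi; exact (Finset.mem_filter.1 hi).2.1)
    have h3 := mul_le_mul_of_nonneg_left h2 (mul_nonneg hP0 hw)
    rw [Finset.mul_sum, Finset.sum_filter] at h3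
    have h4 : ∀ i, -(if i ∉ T ∧ z (insert i T) < z T then
        (P * ∏ i, f T i t) * (z T - z (insert i T)) else 0) ≤
        (if i ∈ T then 0 else (∏ j ∈ Finset.univ.erase i, f T j t) * p i *
          (z (insert i T) - z T)) * (1 - t * P) := by
      intro i
      by_cases hi : i ∈ T
      · simp [hi]
      have hq : 0 ≤ ∏ j ∈ Finset.univ.erase i, f T j t :=
        Finset.prod_nonneg fun j _ => hf0 T j t h0 h1
      have hP' : 0 ≤ 1 - t * P := by nlinarith
      rw [if_neg hi]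
      split_ifs with h5
      · have h6 : ∏ j, f T j t = (1 - t * p i) * ∏ j ∈ Finset.univ.erase i, f T j t := by
          rw [← Finset.mul_prod_erase _ _ (Finset.mem_univ i)]
          simp [hf, hi]
        rw [h6]
        have h7 : 0 ≤ (∏ j ∈ Finset.univ.erase i, f T j t) * (z T - z (insert i T)) * (P - p i) :=
          mul_nonneg (mul_nonneg hq (by linarith [h5.2])) (by linarith [(hp i).2])
        nlinarith
      · have h8 : z T ≤ z (insert i T) := by
          by_contra h9
          exact h5 ⟨hi, not_le.1 h9⟩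
        rw [neg_zero]
        exact mul_nonneg (mul_nonneg (mul_nonneg hq (hp i).1) (by linarith)) hP'
    have h9 := Finset.sum_le_sum fun i (_ : i ∈ Finset.univ) => h4 i
    rw [Finset.sum_neg_distrib] at h9
    nlinarith
  have hH : ∀ t ∈ Set.Icc (0 : ℝ) 1, HasDerivAt (fun t => G t / (1 - t * P))
      ((G' t * (1 - t * P) - G t * (-P)) / (1 - t * P) ^ 2) t := by
    intro t ht
    refine (hd t).fun_div ?_ (by nlinarith [ht.1, ht.2])
    simpa using ((hasDerivAt_id t).mul_const P).const_sub 1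
  have hmono : MonotoneOn (fun t => G t / (1 - t * P)) (Set.Icc 0 1) := by
    refine monotoneOn_of_deriv_nonneg (convex_Icc 0 1)
      (fun t ht => (hH t ht).continuousAt.continuousWithinAt)
      (fun t ht => (hH t (interior_subset ht)).differentiableAt.differentiableWithinAt)
      fun t ht => ?_
    have ht' := interior_subset ht
    rw [(hH t ht').deriv]
    refine div_nonneg ?_ (sq_nonneg _)
    linarith [hineq t ht'.1 ht'.2]
  have h := hmono (Set.left_mem_Icc.2 zero_le_one) (Set.right_mem_Icc.2 zero_le_one) zero_le_one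
  simp only [zero_mul, sub_zero, div_one, one_mul, hG0] at h
  rw [le_div_iff₀ (by linarith)] at h
  linarith

end Pool.Agent.MP_b746ed_mp.KF

end

-- part MP_b746ed_mp.Sun
section

/-! Local operators on a tensor power, traces over sets of sites, the sunflower inequality. -/

set_option autoImplicit false
open scoped ComplexOrder
open Matrix

namespace Pool.Agent.MP_b746ed_mp.KF

variable {ι α : Type} [Fintype ι] [DecidableEq ι] [Fintype α] [DecidableEq α]

/-- an operator acting on one site only -/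
def liftFun (j : ι) (X : Matrix α α ℂ) : Matrix (ι → α) (ι → α) ℂ :=
  Matrix.of fun ω ω' => if ∀ i, i ≠ j → ω i = ω' i then X (ω j) (ω' j) else 0

lemma sum_line (j : ι) (ω : ι → α) (F : (ι → α) → ℂ) :
    ∑ ω', (if ∀ i, i ≠ j → ω i = ω' i then F ω' else 0) = ∑ s, F (Function.update ω j s) := by
  rw [← Finset.sum_filter]
  refine Finset.sum_nbij' (fun ω' => ω' j) (fun s => Function.update ω j s) ?_ ?_ ?_ ?_ ?_
  · simp
  · intro s _
    simp only [Finset.mem_filter, Finset.mem_univ, true_and]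
    intro i hi
    rw [Function.update_of_ne hi]
  · intro ω' h
    simp only [Finset.mem_filter, Finset.mem_univ, true_and] at h
    funext i
    rcases eq_or_ne i j with rfl | hi
    · simp
    · rw [Function.update_of_ne hi, h i hi]
  · simp
  · intro ω' h
    simp only [Finset.mem_filter, Finset.mem_univ, true_and] at h
    congr 1
    funext i
    rcases eq_or_ne i j with rfl | hi
    · simp
    · rw [Function.update_of_ne hi, h i hi]

lemma liftFun_mulVec (j : ι) (X : Matrix α α ℂ) (v : (ι → α) → ℂ) (ω : ι → α) :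
    (liftFun j X *ᵥ v) ω = ∑ s, X (ω j) s * v (Function.update ω j s) := by
  simp only [mulVec, dotProduct, liftFun, of_apply, ite_mul, zero_mul]
  rw [sum_line]
  simp

lemma liftFun_mul (j : ι) (X : Matrix α α ℂ) (M : Matrix (ι → α) (ι → α) ℂ) (ω ω' : ι → α) :
    (liftFun j X * M) ω ω' = ∑ s, X (ω j) s * M (Function.update ω j s) ω' :=
  liftFun_mulVec j X (fun η => M η ω') ω

/-- the embedding of the matrix algebra of one site -/
def lift (j : ι) : Matrix α α ℂ →⋆ₐ[ℂ] Matrix (ι → α) (ι → α) ℂ where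
  toFun := liftFun j
  map_one' := by
    ext ω ω'
    simp only [liftFun, of_apply, one_apply]
    by_cases h : ω = ω'
    · simp [h]
    · rw [if_neg h]
      split_ifs with h1 h2
      · exact absurd (funext fun i => by
          rcases eq_or_ne i j with rfl | hi
          exacts [h2, h1 i hi]) h
      · rfl
      · rfl
  map_mul' X Y := by
    ext ω ω'
    rw [liftFun_mul]
    simp only [liftFun, of_apply, Matrix.mul_apply, Function.update_self]
    have : ∀ s, (∀ i, i ≠ j → Function.update ω j s i = ω' i) ↔ ∀ i, i ≠ j → ω i = ω' i :=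
      fun s => forall_congr' fun i => forall_congr' fun hi => by rw [Function.update_of_ne hi]
    simp only [this]
    split_ifs <;> simp
  map_zero' := by
    ext ω ω'; simp [liftFun]
  map_add' X Y := by
    ext ω ω'
    simp only [liftFun, of_apply, Matrix.add_apply]
    split_ifs <;> simp
  commutes' c := by
    ext ω ω'
    simp only [liftFun, of_apply, algebraMap_matrix_apply]
    by_cases h : ω = ω'
    · simp [h]
    · rw [if_neg h]
      split_ifs with h1 h2
      · exact absurd (funext fun i => by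
          rcases eq_or_ne i j with rfl | hi
          exacts [h2, h1 i hi]) h
      · rfl
      · rfl
  map_star' X := by
    ext ω ω'
    simp only [liftFun, of_apply, star_apply]
    have : (∀ i, i ≠ j → ω i = ω' i) ↔ ∀ i, i ≠ j → ω' i = ω i :=
      forall_congr' fun i => forall_congr' fun _ => eq_comm
    simp only [this]
    split_ifs <;> simp

lemma lift_apply (j : ι) (X : Matrix α α ℂ) : lift j X = liftFun j X := rfl

lemma lift_mul_lift {j l : ι} (h : j ≠ l) (X Y : Matrix α α ℂ) (ω ω' : ι → α) :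
    (lift j X * lift l Y) ω ω' =
      if ∀ i, i ≠ j → i ≠ l → ω i = ω' i then X (ω j) (ω' j) * Y (ω l) (ω' l) else 0 := by
  rw [lift_apply, lift_apply, liftFun_mul, Finset.sum_eq_single (ω' j)]
  · simp only [liftFun, of_apply, Function.update_of_ne h.symm]
    have : (∀ i, i ≠ l → Function.update ω j (ω' j) i = ω' i) ↔
        ∀ i, i ≠ j → i ≠ l → ω i = ω' i := by
      constructor
      · intro H i hj hl
        rw [← H i hl, Function.update_of_ne hj]
      · intro H i hl
        rcases eq_or_ne i j with rfl | hj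
        · simp
        · rw [Function.update_of_ne hj, H i hj hl]
    simp only [this]
    split_ifs <;> simp
  · intro s _ hs
    simp only [liftFun, of_apply]
    rw [if_neg, mul_zero]
    intro H
    exact hs (by simpa using H j h)
  · simp

lemma lift_comm (j l : ι) (h : j ≠ l) (X Y : Matrix α α ℂ) :
    lift l Y * lift j X = lift j X * lift l Y := by
  ext ω ω'
  rw [lift_mul_lift h, lift_mul_lift h.symm]
  have : (∀ i, i ≠ l → i ≠ j → ω i = ω' i) ↔ ∀ i, i ≠ j → i ≠ l → ω i = ω' i :=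
    forall_congr' fun i => forall_comm
  simp only [this, mul_comm]

/-- pairing of `X`, compressed to the sites outside `T`, with the trace over `T` of the
projection onto the span of `u 0`, `u 1` -/
def lam (o : α) (u : Fin 2 → (ι → α) → ℂ) (T : Finset ι) : Matrix (ι → α) (ι → α) ℂ →ₗ[ℂ] ℂ where
  toFun X := ∑ a, ∑ ω, ∑ ω', if ∀ i ∈ T, ω i = ω' i then
    star (u a ω) * X (T.piecewise (fun _ => o) ω) (T.piecewise (fun _ => o) ω') * u a ω' else 0
  map_add' X Y := by
    simp only [← Finset.sum_add_distrib, Matrix.add_apply]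
    refine Finset.sum_congr rfl fun a _ => Finset.sum_congr rfl fun ω _ =>
      Finset.sum_congr rfl fun ω' _ => ?_
    split_ifs <;> ring
  map_smul' c X := by
    simp only [Finset.mul_sum, Matrix.smul_apply, smul_eq_mul, RingHom.id_apply]
    refine Finset.sum_congr rfl fun a _ => Finset.sum_congr rfl fun ω _ =>
      Finset.sum_congr rfl fun ω' _ => ?_
    split_ifs <;> ring

lemma lam_apply (o : α) (u : Fin 2 → (ι → α) → ℂ) (T : Finset ι) (X : Matrix (ι → α) (ι → α) ℂ) :
    lam o u T X = ∑ a, ∑ ω, ∑ ω', if ∀ i ∈ T, ω i = ω' i then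
    star (u a ω) * X (T.piecewise (fun _ => o) ω) (T.piecewise (fun _ => o) ω') * u a ω' else 0 :=
  rfl

lemma lam_one (o : α) (u : Fin 2 → (ι → α) → ℂ)
    (hu : ∀ a b, ip (u a) (u b) = if a = b then 1 else 0) (T : Finset ι) : lam o u T 1 = 2 := by
  have : ∀ a, (∑ ω, ∑ ω', if ∀ i ∈ T, ω i = ω' i then star (u a ω) *
      (1 : Matrix (ι → α) (ι → α) ℂ) (T.piecewise (fun _ => o) ω) (T.piecewise (fun _ => o) ω') *
      u a ω' else 0) = 1 := by
    intro a
    have h := hu a a
    rw [if_pos rfl, ip_eq] at h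
    rw [← h]
    refine Finset.sum_congr rfl fun ω _ => ?_
    rw [Finset.sum_eq_single ω]
    · simp
    · intro ω' _ hne
      split_ifs with h1
      · rw [one_apply_ne, mul_zero, zero_mul]
        intro h2
        refine hne (funext fun i => ?_)
        by_cases hi : i ∈ T
        · exact (h1 i hi).symm
        · have := congrFun h2 i
          simpa [Finset.piecewise, hi] using this.symm
      · rfl
    · simp
  rw [lam_apply]
  simp only [this]
  simp

lemma fiber_nonneg {Ω Γ : Type} [Fintype Ω] [Fintype Γ] [DecidableEq Γ] (π : Ω → Γ) (g : Ω → ℂ) :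
    0 ≤ (∑ ω, ∑ ω', if π ω = π ω' then g ω * star (g ω') else 0).re := by
  have : (∑ ω, ∑ ω', if π ω = π ω' then g ω * star (g ω') else 0) =
      ∑ c, ((Complex.normSq (∑ ω, if π ω = c then g ω else 0) : ℝ) : ℂ) := by
    simp only [← Complex.mul_conj, map_sum, Finset.sum_mul_sum]
    conv_rhs => rw [Finset.sum_comm]
    refine Finset.sum_congr rfl fun ω _ => ?_
    rw [Finset.sum_comm]
    refine Finset.sum_congr rfl fun ω' _ => ?_
    simp only [ite_mul, zero_mul, Finset.sum_ite_eq, Finset.mem_univ, if_true]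
    by_cases h : π ω = π ω'
    · simp [h]
    · simp [h, Ne.symm h]
  rw [this, Complex.re_sum]
  exact Finset.sum_nonneg fun c _ => by rw [Complex.ofReal_re]; exact Complex.normSq_nonneg _

lemma lam_op_nonneg (o : α) (u : Fin 2 → (ι → α) → ℂ) (T : Finset ι) (φ : (ι → α) → ℂ) :
    0 ≤ (lam o u T (op φ φ)).re := by
  rw [lam_apply, Complex.re_sum]
  refine Finset.sum_nonneg fun a _ => ?_
  have h := fiber_nonneg (fun ω : ι → α => T.piecewise ω (fun _ => o))
    (fun ω => star (u a ω) * φ (T.piecewise (fun _ => o) ω))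
  refine h.trans_eq (congrArg _ (Finset.sum_congr rfl fun ω _ =>
    Finset.sum_congr rfl fun ω' _ => if_congr (Iff.symm ?_) ?_ rfl))
  · constructor
    · intro H
      funext i
      by_cases hi : i ∈ T
      · simp [Finset.piecewise, hi, H i hi]
      · simp [Finset.piecewise, hi]
    · intro H i hi
      simpa [Finset.piecewise, hi] using congrFun H i
  · simp only [op_apply, star_mul', star_star]
    ring

lemma lam_psd (o : α) (u : Fin 2 → (ι → α) → ℂ) (T : Finset ι) {X : Matrix (ι → α) (ι → α) ℂ}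
    (hX : X.PosSemidef) : 0 ≤ (lam o u T X).re := by
  obtain ⟨m, g, hg⟩ := Matrix.posSemidef_iff_eq_sum_vecMulVec.1 hX
  rw [hg, map_sum, Complex.re_sum]
  exact Finset.sum_nonneg fun r _ => lam_op_nonneg o u T (g r)

lemma lam_le_two (o : α) (u : Fin 2 → (ι → α) → ℂ)
    (hu : ∀ a b, ip (u a) (u b) = if a = b then 1 else 0) (T : Finset ι) (φ : (ι → α) → ℂ)
    (hφ : ip φ φ = 1) : (lam o u T (op φ φ)).re ≤ 2 := by
  have h : (1 - op φ φ).PosSemidef := by
    have : 1 - op φ φ = (1 - op φ φ)ᴴ * (1 - op φ φ) := by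
      simp [op_conjTranspose, sub_mul, mul_sub, op_mul_op, hφ]
    rw [this]
    exact posSemidef_conjTranspose_mul_self _
  have h2 := lam_psd o u T h
  rw [map_sub, lam_one o u hu, Complex.sub_re] at h2
  simp only [Complex.re_ofNat] at h2
  linarith

lemma lam_empty (o : α) (u : Fin 2 → (ι → α) → ℂ)
    (hu : ∀ a b, ip (u a) (u b) = if a = b then 1 else 0) (φ : (ι → α) → ℂ)
    (hφ : ip φ φ = 1) : (lam o u ∅ (op φ φ)).re ≤ 1 := by
  have e : lam o u ∅ (op φ φ) = ∑ a, ip (u a) φ * ip φ (u a) := by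
    simp only [lam_apply, Finset.notMem_empty, false_imp_iff, implies_true, if_true,
      Finset.piecewise_empty, op_apply, ip_eq, Finset.sum_mul_sum]
    refine Finset.sum_congr rfl fun a _ => Finset.sum_congr rfl fun ω _ =>
      Finset.sum_congr rfl fun ω' _ => ?_
    ring
  have h := ip_self_re_nonneg (φ - ∑ a, ip (u a) φ • u a)
  have e2 : ip (φ - ∑ a, ip (u a) φ • u a) (φ - ∑ a, ip (u a) φ • u a) =
      1 - ∑ a, ip (u a) φ * ip φ (u a) := by
    simp only [Fin.sum_univ_two, ip_sub_left, ip_sub_right, ip_add_left, ip_add_right,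
      ip_smul_left, ip_smul_right, hu, hφ, star_ip, if_true, zero_ne_one, one_ne_zero, if_false]
    ring
  rw [e2, Complex.sub_re, Complex.one_re] at h
  rw [e]
  linarith

lemma lam_insert (o : α) (u : Fin 2 → (ι → α) → ℂ) {C : Finset ι} {i : ι} (hi : i ∉ C)
    (φ : (ι → α) → ℂ) : lam o u (insert i C) (op φ φ) =
      ∑ s, lam o u C (op (lift i (op (Pi.single s 1) (Pi.single o 1)) *ᵥ φ)
        (lift i (op (Pi.single s 1) (Pi.single o 1)) *ᵥ φ)) := by
  have hw : ∀ s (ω : ι → α), (lift i (op (Pi.single s (1 : ℂ)) (Pi.single o 1)) *ᵥ φ)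
      (C.piecewise (fun _ => o) ω) =
      if ω i = s then φ ((insert i C).piecewise (fun _ => o) ω) else 0 := by
    intro s ω
    rw [lift_apply, liftFun_mulVec, Finset.piecewise_insert]
    simp [op_apply, Pi.single_apply, Finset.piecewise, hi]
  simp only [lam_apply, op_apply, hw]
  conv_rhs => rw [Finset.sum_comm]
  refine Finset.sum_congr rfl fun a _ => ?_
  conv_rhs => rw [Finset.sum_comm]
  refine Finset.sum_congr rfl fun ω _ => ?_
  conv_rhs => rw [Finset.sum_comm]
  refine Finset.sum_congr rfl fun ω' _ => ?_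
  simp only [Finset.forall_mem_insert]
  by_cases h1 : ∀ i ∈ C, ω i = ω' i
  · by_cases h2 : ω i = ω' i
    · rw [if_pos ⟨h2, h1⟩]
      simp only [if_pos h1]
      simp [h2]
    · rw [if_neg fun h => h2 h.1]
      simp [Ne.symm h2]
  · simp [h1]

lemma spectral_op {β : Type} [Fintype β] [DecidableEq β] {W : Matrix β β ℂ} (hW : W.IsHermitian) :
    ∃ (b : β → β → ℂ) (l : β → ℝ), (∀ k k', ip (b k) (b k') = if k = k' then 1 else 0) ∧
      ∑ k, op (b k) (b k) = 1 ∧ W = ∑ k, (l k : ℂ) • op (b k) (b k) ∧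
      ∀ k, W *ᵥ b k = (l k : ℂ) • b k := by
  set U : Matrix β β ℂ := (hW.eigenvectorUnitary : unitaryGroup β ℂ).1 with hU
  have h1 : star U * U = 1 := Unitary.coe_star_mul_self _
  have h2 : U * star U = 1 := Unitary.coe_mul_star_self _
  have h3 : ∀ k, W *ᵥ (fun i => U i k) = (hW.eigenvalues k : ℂ) • fun i => U i k := fun k => by
    have := hW.mulVec_eigenvectorBasis k
    rw [Complex.coe_smul]
    exact this
  have h4 : ∑ k, op (fun i => U i k) (fun i => U i k) = 1 := by
    rw [← h2]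
    ext i j
    simp [Matrix.sum_apply, op_apply, Matrix.mul_apply]
  refine ⟨fun k i => U i k, hW.eigenvalues, fun k k' => ?_, h4, ?_, h3⟩
  · rw [← one_apply, ← h1]
    simp [ip_eq, Matrix.mul_apply]
  · conv_lhs => rw [← mul_one W, ← h4, Finset.mul_sum]
    refine Finset.sum_congr rfl fun k _ => ?_
    rw [op, mul_vecMulVec, h3, smul_vecMulVec]

lemma exists_max (o : α) (u : Fin 2 → (ι → α) → ℂ) (T : Finset ι) :
    ∃ φ, ip φ φ = 1 ∧ ∀ ψ, ip ψ ψ = 1 → (lam o u T (op ψ ψ)).re ≤ (lam o u T (op φ φ)).re := by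
  have hK : IsCompact {φ : (ι → α) → ℂ | ip φ φ = 1} := by
    refine Metric.isCompact_of_isClosed_isBounded
      (isClosed_eq (continuous_ip continuous_id continuous_id) continuous_const) ?_
    refine (Metric.isBounded_closedBall (x := 0) (r := 1)).subset fun p hp => ?_
    rw [mem_closedBall_zero_iff]
    exact norm_le_one_of_ip (by rw [show ip p p = 1 from hp]; simp)
  have hF : Continuous fun φ : (ι → α) → ℂ => (lam o u T (op φ φ)).re :=
    Complex.continuous_re.comp ((lam o u T).continuous_of_finiteDimensional.comp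
      (Continuous.matrix_vecMulVec continuous_id continuous_star))
  obtain ⟨φ, hφ, hmax⟩ := hK.exists_isMaxOn ⟨_, ip_single_self (fun _ => o)⟩ hF.continuousOn
  exact ⟨φ, hφ, fun ψ hψ => isMaxOn_iff.1 hmax ψ hψ⟩

/-- the sunflower inequality -/
theorem sunflower (o : α) (u : Fin 2 → (ι → α) → ℂ)
    (hu : ∀ a b, ip (u a) (u b) = if a = b then 1 else 0) (C I : Finset ι) (hI : ∀ i ∈ I, i ∉ C)
    (y : ℝ) (hy0 : 0 ≤ y) (hy1 : y ≤ 1)
    (hy : ∀ ψ, ip ψ ψ = 1 → (lam o u C (op ψ ψ)).re ≤ 1 + y)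
    (φ : ι → (ι → α) → ℂ) (hφ : ∀ i, ip (φ i) (φ i) = 1) :
    ∑ i ∈ I, (lam o u (insert i C) (op (φ i) (φ i))).re ≤ I.card + 1 + (I.card - 1) * y := by
  set w : ι → α → (ι → α) → ℂ := fun i s =>
    lift i (op (Pi.single s 1) (Pi.single o 1)) *ᵥ φ i with hw
  set W : Matrix (ι → α) (ι → α) ℂ := ∑ i ∈ I, ∑ s, op (w i s) (w i s) with hWdef
  have hW : W.IsHermitian := by
    simp only [hWdef, IsHermitian, conjTranspose_sum, op_conjTranspose]
  obtain ⟨b, l, hb, hb1, hWb, hl⟩ := spectral_op hW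
  have hbb : ∀ k, ip (b k) (b k) = 1 := fun k => by simpa using hb k k
  have hlk : ∀ k, l k = ∑ i ∈ I, ∑ s, Complex.normSq (ip (w i s) (b k)) := by
    intro k
    have h1 := congrArg (fun v => (ip (b k) v).re) (hl k)
    simp only [ip_smul_right, hbb, mul_one, Complex.ofReal_re] at h1
    rw [← h1]
    simp only [hWdef, sum_mulVec, op_mulVec, ip_sum_right, ip_smul_right, Complex.re_sum]
    refine Finset.sum_congr rfl fun i _ => Finset.sum_congr rfl fun s _ => ?_
    rw [← star_ip (w i s) (b k), Complex.star_def, Complex.mul_conj, Complex.ofReal_re]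
  have hl1 : ∀ k, l k ≤ I.card := by
    intro k
    rw [hlk, Finset.card_eq_sum_ones]
    push_cast
    exact Finset.sum_le_sum fun i _ => single_le o (lift i) (b k) (φ i) (hbb k) (hφ i)
  have hl2 : ∀ k k', k ≠ k' → l k + l k' ≤ I.card + 1 := by
    intro k k' hk
    have h := key_pair o (fun i : ι => lift (α := α) i) lift_comm I ![b k, b k'] (by
      intro a a'
      fin_cases a <;> fin_cases a' <;> simp [hb, hk, hk.symm]) φ hφ
    rw [hlk, hlk, ← Finset.sum_add_distrib]
    simpa using h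
  have e : ∑ i ∈ I, (lam o u (insert i C) (op (φ i) (φ i))).re =
      ∑ k, l k * (lam o u C (op (b k) (b k))).re := by
    have e1 : ∑ i ∈ I, lam o u (insert i C) (op (φ i) (φ i)) = lam o u C W := by
      rw [hWdef, map_sum]
      refine Finset.sum_congr rfl fun i hi => ?_
      rw [lam_insert o u (hI i hi), map_sum]
    rw [← Complex.re_sum, e1, hWb, map_sum, Complex.re_sum]
    simp only [map_smul, smul_eq_mul, Complex.re_ofReal_mul]
  have hsum : ∑ k, (lam o u C (op (b k) (b k))).re = 2 := by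
    rw [← Complex.re_sum, ← map_sum, hb1, lam_one o u hu]
    simp
  have : Nonempty (ι → α) := ⟨fun _ => o⟩
  obtain ⟨k₀, -, hk₀⟩ := Finset.exists_max_image Finset.univ l Finset.univ_nonempty
  set l2 := min (l k₀) (I.card + 1 - l k₀) with hl2def
  have h1 : ∀ k, l k * (lam o u C (op (b k) (b k))).re ≤ l2 * (lam o u C (op (b k) (b k))).re +
      if k = k₀ then (l k₀ - l2) * (lam o u C (op (b k₀) (b k₀))).re else 0 := by
    intro k
    split_ifs with hk
    · rw [hk]; linarith
    · rw [add_zero]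
      refine mul_le_mul_of_nonneg_right (le_min (hk₀ k (Finset.mem_univ _)) ?_)
        (lam_op_nonneg o u C _)
      linarith [hl2 k k₀ hk]
  have h2 := Finset.sum_le_sum fun k (_ : k ∈ Finset.univ) => h1 k
  rw [Finset.sum_add_distrib, ← Finset.mul_sum, hsum, Finset.sum_ite_eq',
    if_pos (Finset.mem_univ _)] at h2
  have h3 : l2 ≤ l k₀ := min_le_left _ _
  have h4 : l2 ≤ I.card + 1 - l k₀ := min_le_right _ _
  have h5 := mul_le_mul_of_nonneg_left (hy _ (hbb k₀)) (sub_nonneg.2 h3)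
  have h6 := mul_le_mul_of_nonneg_left h4 (sub_nonneg.2 hy1)
  have h7 := mul_le_mul_of_nonneg_left (hl1 k₀) hy0
  rw [e]
  nlinarith

/-- the mean of the operator norms of the traces over a random set of sites -/
theorem mean_le (o : α) (u : Fin 2 → (ι → α) → ℂ)
    (hu : ∀ a b, ip (u a) (u b) = if a = b then 1 else 0)
    (p : ι → ℝ) (P : ℝ) (hp : ∀ i, 0 ≤ p i ∧ p i ≤ P) (hP0 : 0 ≤ P) (hP : P ≤ 1) :
    ∃ f : Finset ι → ℝ, (∀ T ψ, (lam o u T (op ψ ψ)).re ≤ f T * (ip ψ ψ).re) ∧
      ∑ T : Finset ι, (∏ i, if i ∈ T then p i else 1 - p i) * f T ≤ 1 + P := by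
  choose φ hφ hmax using exists_max o u
  set f : Finset ι → ℝ := fun T => (lam o u T (op (φ T) (φ T))).re with hf
  refine ⟨f, fun T ψ => ?_, ?_⟩
  · rcases (ip_self_re_nonneg ψ).eq_or_lt with h | h
    · rw [← h, eq_zero_of_ip_self h.symm]
      simp [op_zero_left]
    · have h1 := hmax T ((((√(ip ψ ψ).re)⁻¹ : ℝ) : ℂ) • ψ) (by
        rw [ip_smul_left, ip_smul_right, ← mul_assoc, Complex.star_def, Complex.conj_ofReal,
          ← Complex.ofReal_mul, ← sq, inv_pow, Real.sq_sqrt h.le]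
        conv_lhs => rw [ip_self_ofReal ψ, Complex.ofReal_re, ← Complex.ofReal_mul,
          inv_mul_cancel₀ h.ne']
        simp)
      rw [op_smul_left, op_smul_right, smul_smul, Complex.star_def, Complex.conj_ofReal,
        ← Complex.ofReal_mul, ← sq, inv_pow, Real.sq_sqrt h.le, map_smul, smul_eq_mul,
        Complex.re_ofReal_mul, inv_mul_le_iff₀ h] at h1
      simp only [hf]
      linarith
  have hf2 : ∀ T, f T ≤ 2 := fun T => lam_le_two o u hu T _ (hφ T)
  have h := expect_ge (fun T => 1 - max (f T - 1) 0) (fun C I hI => ?_) p P hp hP0 hP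
  · have h0 : max (f ∅ - 1) 0 = 0 := max_eq_right (by
      linarith [lam_empty o u hu (φ ∅) (hφ ∅)])
    have hw : ∀ T : Finset ι, 0 ≤ ∏ i, if i ∈ T then p i else 1 - p i := fun T =>
      Finset.prod_nonneg fun i _ => by split_ifs <;> linarith [(hp i).1, (hp i).2]
    have h1 : ∑ T : Finset ι, (∏ i, if i ∈ T then p i else 1 - p i) = 1 := by
      have := Finset.prod_add p (fun i => 1 - p i) Finset.univ
      simp only [add_sub_cancel, Finset.prod_const_one, Finset.powerset_univ] at this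
      refine Eq.trans (Finset.sum_congr rfl fun T _ => ?_) this.symm
      rw [Finset.prod_ite]
      congr 1
      · congr 1; ext; simp
      · congr 1; ext; simp
    have h2 : ∑ T : Finset ι, (∏ i, if i ∈ T then p i else 1 - p i) * f T ≤
        ∑ T : Finset ι, ((∏ i, if i ∈ T then p i else 1 - p i) * 2 -
          (∏ i, if i ∈ T then p i else 1 - p i) * (1 - max (f T - 1) 0)) :=
      Finset.sum_le_sum fun T _ => by
        rw [← mul_sub]
        exact mul_le_mul_of_nonneg_left (by linarith [le_max_left (f T - 1) 0]) (hw T)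
    rw [Finset.sum_sub_distrib, ← Finset.sum_mul, h1] at h2
    rw [h0] at h
    linarith
  · set J := I.filter fun i => 1 < f (insert i C) with hJ
    set y := max (f C - 1) 0 with hy
    have hy0 : 0 ≤ y := le_max_right _ _
    have hy1 : y ≤ 1 := max_le (by linarith [hf2 C]) zero_le_one
    have h1 := sunflower o u hu C J (fun i hi => hI i (Finset.mem_filter.1 hi).1) y hy0 hy1
      (fun ψ hψ => (hmax C ψ hψ).trans (by linarith [le_max_left (f C - 1) 0]))
      (fun i => φ (insert i C)) (fun i => hφ _)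
    have h2 : ∑ i ∈ I, (1 - y - (1 - max (f (insert i C) - 1) 0)) ≤
        ∑ i ∈ J, (f (insert i C) - (1 + y)) := by
      rw [hJ, Finset.sum_filter]
      refine Finset.sum_le_sum fun i _ => ?_
      split_ifs with hi
      · rw [max_eq_left (by linarith)]; linarith
      · rw [max_eq_right (by linarith)]; linarith
    rw [Finset.sum_sub_distrib (s := J), Finset.sum_const, nsmul_eq_mul] at h2
    simp only [hf] at h2 ⊢
    nlinarith

end Pool.Agent.MP_b746ed_mp.KF

end

-- part MP_b746ed_mp.Sing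
section

/-! Singular values of positive semidefinite matrices and the Ky Fan principle for `k = 2`. -/

set_option autoImplicit false
open scoped ComplexOrder
open Matrix

namespace Pool.Agent.MP_b746ed_mp.KF

variable {β : Type} [Fintype β] [DecidableEq β]

omit [DecidableEq β] in
lemma eig_of_sq {X : Matrix β β ℂ} (hX : X.PosSemidef) {v : β → ℂ} {s : ℝ} (hs : 0 ≤ s)
    (h : X *ᵥ (X *ᵥ v) = ((s ^ 2 : ℝ) : ℂ) • v) : X *ᵥ v = (s : ℂ) • v := by
  rcases hs.eq_or_lt with rfl | hs
  · have : ip (X *ᵥ v) (X *ᵥ v) = 0 := by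
      rw [ip_mulVec, hX.isHermitian.eq, h]
      simp [ip_zero_left]
    rw [eq_zero_of_ip_self (congrArg Complex.re this)]
    simp
  · set w := X *ᵥ v - (s : ℂ) • v with hw
    have h1 : X *ᵥ w = -((s : ℂ) • w) := by
      rw [hw, mulVec_sub, h, mulVec_smul]
      push_cast
      module
    have h2 := psd_re_nonneg hX w
    rw [h1, ip_neg_right, ip_smul_right, Complex.neg_re, Complex.re_ofReal_mul] at h2
    have h3 := ip_self_re_nonneg w
    have h4 : (ip w w).re = 0 := by nlinarith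
    exact sub_eq_zero.1 (eq_zero_of_ip_self h4)

lemma svd_psd {X : Matrix β β ℂ} (hX : X.PosSemidef) :
    ∃ b : Fin (Fintype.card β) → β → ℂ, (∀ k k', ip (b k) (b k') = if k = k' then 1 else 0) ∧
      (∀ x, ∑ k, ip (b k) x • b k = x) ∧
      ∀ k, X *ᵥ b k = (((toEuclideanLin X).singularValues k : ℝ) : ℂ) • b k := by
  have hn : Module.finrank ℂ (EuclideanSpace ℂ β) = Fintype.card β := finrank_euclideanSpace
  set B := (toEuclideanLin X).isSymmetric_adjoint_comp_self.eigenvectorBasis hn with hB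
  have hip : ∀ x y : EuclideanSpace ℂ β, inner ℂ x y = ip x.ofLp y.ofLp := fun x y => by
    rw [EuclideanSpace.inner_eq_star_dotProduct, dotProduct_comm]; rfl
  refine ⟨fun k => (B k).ofLp, fun k k' => ?_, fun x => ?_, fun k => ?_⟩
  · rw [← hip]
    exact orthonormal_iff_ite.1 B.orthonormal k k'
  · have := congrArg WithLp.ofLp (B.sum_repr' (WithLp.toLp 2 x))
    simpa [hip] using this
  · refine eig_of_sq hX (LinearMap.singularValues_nonneg _ _) ?_
    have h := (toEuclideanLin X).isSymmetric_adjoint_comp_self.apply_eigenvectorBasis hn k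
    rw [← hB, ← LinearMap.sq_singularValues_fin, ← toEuclideanLin_conjTranspose_eq_adjoint,
      hX.isHermitian.eq] at h
    exact congrArg WithLp.ofLp h

lemma sv_le {X : Matrix β β ℂ} (hX : X.PosSemidef) (hβ : 2 ≤ Fintype.card β) {B : ℝ}
    (H : ∀ u : Fin 2 → β → ℂ, (∀ a b, ip (u a) (u b) = if a = b then 1 else 0) →
      ∑ a, (ip (u a) (X *ᵥ u a)).re ≤ B) :
    (toEuclideanLin X).singularValues 0 + (toEuclideanLin X).singularValues 1 ≤ B := by
  obtain ⟨b, hb, -, hv⟩ := svd_psd hX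
  have h := H ![b ⟨0, by omega⟩, b ⟨1, by omega⟩] (by
    intro a a'
    fin_cases a <;> fin_cases a' <;> simp [hb])
  simpa [hv, ip_smul_right, hb, -Complex.coe_smul] using h

lemma le_sv {X : Matrix β β ℂ} (hX : X.PosSemidef) (u : Fin 2 → β → ℂ)
    (hu : ∀ a b, ip (u a) (u b) = if a = b then 1 else 0) :
    ∑ a, (ip (u a) (X *ᵥ u a)).re ≤
      (toEuclideanLin X).singularValues 0 + (toEuclideanLin X).singularValues 1 := by
  obtain ⟨b, hb, hx, hv⟩ := svd_psd hX
  set σ := (toEuclideanLin X).singularValues with hσ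
  have hanti : Antitone σ := LinearMap.singularValues_antitone _
  set y : Fin (Fintype.card β) → ℝ := fun k => ∑ a, Complex.normSq (ip (b k) (u a)) with hy
  have hy0 : ∀ k, 0 ≤ y k := fun k => Finset.sum_nonneg fun a _ => Complex.normSq_nonneg _
  have hy1 : ∀ k, y k ≤ 1 := by
    intro k
    have h := ip_self_re_nonneg (b k - ∑ a, ip (u a) (b k) • u a)
    have e2 : ip (b k - ∑ a, ip (u a) (b k) • u a) (b k - ∑ a, ip (u a) (b k) • u a) =
        1 - (y k : ℂ) := by
      simp only [hy, Fin.sum_univ_two, ip_sub_left, ip_sub_right, ip_add_left, ip_add_right,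
        ip_smul_left, ip_smul_right, hu, hb, star_ip, if_true, zero_ne_one, one_ne_zero, if_false,
        Complex.ofReal_add, Complex.normSq_eq_conj_mul_self, ← Complex.star_def]
      ring
    rw [e2, Complex.sub_re, Complex.one_re, Complex.ofReal_re] at h
    linarith
  have e : ∀ (Y : Matrix β β ℂ) (l : Fin (Fintype.card β) → ℝ), (∀ k, Y *ᵥ b k = (l k : ℂ) • b k) →
      ∑ a, (ip (u a) (Y *ᵥ u a)).re = ∑ k, l k * y k := by
    intro Y l hl
    simp only [hy, Finset.mul_sum]
    rw [Finset.sum_comm]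
    refine Finset.sum_congr rfl fun a _ => ?_
    have : Y *ᵥ u a = ∑ k, ip (b k) (u a) • (l k : ℂ) • b k := by
      conv_lhs => rw [← hx (u a)]
      simp only [mulVec_sum, mulVec_smul, hl]
    rw [this, ip_sum_right, Complex.re_sum]
    refine Finset.sum_congr rfl fun k _ => ?_
    rw [ip_smul_right, ip_smul_right, ← star_ip (b k) (u a), mul_left_comm, Complex.star_def,
      Complex.mul_conj, ← Complex.ofReal_mul, Complex.ofReal_re]
  have e1 := e 1 (fun _ => 1) (by simp)
  simp only [one_mulVec, hu, if_true, Complex.one_re, one_mul, Finset.sum_const,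
    Finset.card_univ, Fintype.card_fin, nsmul_eq_mul, mul_one, Nat.cast_ofNat] at e1
  rw [e X (fun k => σ k) hv]
  have h1 : ∀ k : Fin (Fintype.card β), σ k * y k ≤ σ 1 * y k +
      if (k : ℕ) = 0 then σ 0 - σ 1 else 0 := by
    intro k
    split_ifs with hk
    · rw [hk]
      nlinarith [hy1 k, hanti (zero_le_one (α := ℕ))]
    · rw [add_zero]
      exact mul_le_mul_of_nonneg_right (hanti (Nat.one_le_iff_ne_zero.2 hk)) (hy0 k)
  have h2 := Finset.sum_le_sum fun k (_ : k ∈ Finset.univ) => h1 k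
  rw [Finset.sum_add_distrib, ← Finset.mul_sum, ← e1] at h2
  have h3 : ∑ k : Fin (Fintype.card β), (if (k : ℕ) = 0 then σ 0 - σ 1 else 0) ≤ σ 0 - σ 1 := by
    rw [← Finset.sum_filter, Finset.sum_const, nsmul_eq_mul]
    have h4 : (Finset.univ.filter fun k : Fin (Fintype.card β) => (k : ℕ) = 0).card ≤ 1 :=
      Finset.card_le_one.2 fun a ha b hb => Fin.ext (by
        rw [(Finset.mem_filter.1 ha).2, (Finset.mem_filter.1 hb).2])
    have h5 : ((Finset.univ.filter fun k : Fin (Fintype.card β) => (k : ℕ) = 0).card : ℝ) ≤ 1 := by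
      exact_mod_cast h4
    nlinarith [hanti (zero_le_one (α := ℕ))]
  linarith

end Pool.Agent.MP_b746ed_mp.KF

end

-- part MP_b746ed_mp.Chan
section

/-! The product of depolarizing channels. -/

set_option autoImplicit false
open scoped ComplexOrder
open Matrix

namespace Pool.Agent.MP_b746ed_mp.KF

variable {ι α : Type} [Fintype ι] [DecidableEq ι] [Fintype α] [DecidableEq α]

/-- the product of depolarizing channels -/
noncomputable def chan (q : ι → ℝ) : Matrix (ι → α) (ι → α) ℂ →ₗ[ℂ] Matrix (ι → α) (ι → α) ℂ where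
  toFun X := Matrix.of fun a b => ∑ S : Finset ι,
    (((∏ i ∈ Finset.univ \ S, q i) * ∏ i ∈ S, (1 - q i) : ℝ) : ℂ) *
    (∏ i ∈ S, (if a i = b i then (1 : ℂ) else 0)) *
    ((1 / (Fintype.card α : ℂ)) ^ Fintype.card ι * ∑ c : ι → α,
      X (fun i => if i ∈ S then c i else a i) (fun i => if i ∈ S then c i else b i))
  map_add' X Y := by
    ext a b
    simp only [of_apply, Matrix.add_apply, Finset.sum_add_distrib, mul_add]
  map_smul' c X := by
    ext a b
    simp only [of_apply, Matrix.smul_apply, smul_eq_mul, RingHom.id_apply, ← Finset.mul_sum]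
    rw [Finset.mul_sum]
    refine Finset.sum_congr rfl fun S _ => ?_
    ring

lemma chan_apply (q : ι → ℝ) (X : Matrix (ι → α) (ι → α) ℂ) (a b : ι → α) :
    chan q X a b = ∑ S : Finset ι,
    (((∏ i ∈ Finset.univ \ S, q i) * ∏ i ∈ S, (1 - q i) : ℝ) : ℂ) *
    (∏ i ∈ S, (if a i = b i then (1 : ℂ) else 0)) *
    ((1 / (Fintype.card α : ℂ)) ^ Fintype.card ι * ∑ c : ι → α,
      X (S.piecewise c a) (S.piecewise c b)) := rfl

/-- a slice of `ψ` -/
def slice (o : α) (T : Finset ι) (c : ι → α) (ψ : (ι → α) → ℂ) : (ι → α) → ℂ :=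
  fun ω => if ∀ i ∈ T, ω i = o then ψ (T.piecewise c ω) else 0

omit [Fintype α] in
lemma slice_pw (o : α) (T : Finset ι) (c ω : ι → α) (ψ : (ι → α) → ℂ) :
    slice o T c ψ (T.piecewise (fun _ => o) ω) = ψ (T.piecewise c ω) := by
  rw [slice, if_pos fun i hi => by simp [Finset.piecewise, hi]]
  congr 1
  funext i
  by_cases hi : i ∈ T <;> simp [Finset.piecewise, hi]

lemma chan_form (o : α) (q : ι → ℝ) (u : Fin 2 → (ι → α) → ℂ) (ψ : (ι → α) → ℂ) :
    ∑ a, (ip (u a) (chan q (op ψ ψ) *ᵥ u a)).re = ∑ S : Finset ι,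
      ((∏ i ∈ Finset.univ \ S, q i) * ∏ i ∈ S, (1 - q i)) *
      ((1 / (Fintype.card α : ℝ)) ^ Fintype.card ι *
        ∑ c, (lam o u S (op (slice o S c ψ) (slice o S c ψ))).re) := by
  rw [← Complex.re_sum]
  have : ∑ a, ip (u a) (chan q (op ψ ψ) *ᵥ u a) = ∑ S : Finset ι,
      (((∏ i ∈ Finset.univ \ S, q i) * ∏ i ∈ S, (1 - q i) : ℝ) : ℂ) *
      ((((1 / (Fintype.card α : ℝ)) ^ Fintype.card ι : ℝ) : ℂ) *
        ∑ c, lam o u S (op (slice o S c ψ) (slice o S c ψ))) := by
    simp only [lam_apply, op_apply, slice_pw, ip_eq, mulVec, dotProduct, chan_apply,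
      Finset.mul_sum, Finset.sum_mul, Finset.prod_boole]
    conv_rhs => rw [Finset.sum_comm]
    conv_rhs => enter [2, c]; rw [Finset.sum_comm]
    conv_rhs => rw [Finset.sum_comm]
    refine Finset.sum_congr rfl fun a _ => ?_
    conv_rhs => enter [2, c]; rw [Finset.sum_comm]
    conv_rhs => rw [Finset.sum_comm]
    refine Finset.sum_congr rfl fun ω _ => ?_
    conv_rhs => enter [2, c]; rw [Finset.sum_comm]
    conv_rhs => rw [Finset.sum_comm]
    refine Finset.sum_congr rfl fun ω' _ => ?_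
    conv_rhs => rw [Finset.sum_comm]
    refine Finset.sum_congr rfl fun S _ => Finset.sum_congr rfl fun c _ => ?_
    push_cast
    split_ifs <;> ring
  rw [this, Complex.re_sum]
  simp only [Complex.re_ofReal_mul, Complex.re_sum]

lemma sum_slice (o : α) (T : Finset ι) (ψ : (ι → α) → ℂ) :
    ∑ c, (ip (slice o T c ψ) (slice o T c ψ)).re =
      (∏ i, if i ∈ T then 1 else (Fintype.card α : ℝ)) * (ip ψ ψ).re := by
  have h1 : ∑ ω : ι → α, (if ∀ i ∈ T, ω i = o then (1 : ℝ) else 0) =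
      ∏ i, if i ∈ T then 1 else (Fintype.card α : ℝ) := by
    have := Finset.prod_univ_sum (fun _ : ι => (Finset.univ : Finset α))
      (fun i s => if i ∈ T then (if s = o then (1 : ℝ) else 0) else 1)
    rw [Fintype.piFinset_univ] at this
    rw [← Finset.prod_congr rfl fun i _ => (?_ : ∑ s : α, (if i ∈ T then
      (if s = o then (1 : ℝ) else 0) else 1) = _), this]
    · refine Finset.sum_congr rfl fun ω _ => ?_
      rw [Finset.prod_ite_mem_eq, Finset.prod_boole]
      congr
    · split_ifs <;> simp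
  rw [← h1, ip_self_re, Finset.sum_mul_sum]
  simp only [ip_self_re]
  rw [← Finset.sum_product', ← Finset.sum_product']
  refine Finset.sum_nbij' (fun x => (T.piecewise x.2 x.1, T.piecewise x.1 x.2))
    (fun x => (T.piecewise x.2 x.1, T.piecewise x.1 x.2)) (by simp) (by simp) ?_ ?_ ?_
  · intro x _
    ext i <;> by_cases hi : i ∈ T <;> simp [Finset.piecewise, hi]
  · intro x _
    ext i <;> by_cases hi : i ∈ T <;> simp [Finset.piecewise, hi]
  · intro x _
    have : (∀ i ∈ T, T.piecewise x.2 x.1 i = o) ↔ ∀ i ∈ T, x.2 i = o :=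
      forall_congr' fun i => forall_congr' fun hi => by simp [Finset.piecewise, hi]
    simp only [slice, this]
    split_ifs <;> simp

lemma weight_nonneg {q : ι → ℝ} (hq : ∀ i, 0 ≤ q i ∧ q i ≤ 1) (S : Finset ι) :
    0 ≤ (∏ i ∈ Finset.univ \ S, q i) * ∏ i ∈ S, (1 - q i) :=
  mul_nonneg (Finset.prod_nonneg fun i _ => (hq i).1)
    (Finset.prod_nonneg fun i _ => by linarith [(hq i).2])

lemma chan_psd [Nonempty α] {q : ι → ℝ} (hq : ∀ i, 0 ≤ q i ∧ q i ≤ 1)
    {ρ : Matrix (ι → α) (ι → α) ℂ} (hρ : ρ.PosSemidef) : (chan q ρ).PosSemidef := by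
  obtain ⟨o⟩ := ‹Nonempty α›
  obtain ⟨m, g, hg⟩ := Matrix.posSemidef_iff_eq_sum_vecMulVec.1 hρ
  rw [hg, map_sum]
  refine posSemidef_sum _ fun r _ => ?_
  change (chan q (op (g r) (g r))).PosSemidef
  have hH : (chan q (op (g r) (g r))).IsHermitian := by
    ext a b
    simp only [conjTranspose_apply, chan_apply, star_sum, star_mul', op_apply,
      star_prod, star_pow, star_div₀, star_one, star_natCast, Complex.star_def,
      Complex.conj_ofReal, apply_ite (starRingEnd ℂ), map_one, map_zero, Complex.conj_conj]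
    refine Finset.sum_congr rfl fun S _ => ?_
    simp only [eq_comm (a := a _), mul_comm]
  refine PosSemidef.of_dotProduct_mulVec_nonneg hH fun x => ?_
  have h := chan_form o q ![x, 0] (g r)
  simp only [Fin.sum_univ_two, cons_val_zero, cons_val_one, ip_zero_left, Complex.zero_re,
    add_zero] at h
  refine Complex.nonneg_iff.2 ⟨?_, ?_⟩
  · change 0 ≤ (ip x _).re
    rw [h]
    exact Finset.sum_nonneg fun S _ => mul_nonneg (weight_nonneg hq S) (mul_nonneg (by positivity)
      (Finset.sum_nonneg fun c _ => lam_op_nonneg o _ S _))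
  · change 0 = (ip x _).im
    have h2 : star (ip x (chan q (op (g r) (g r)) *ᵥ x)) = ip x (chan q (op (g r) (g r)) *ᵥ x) := by
      rw [star_ip, ip_mulVec, hH.eq]
    exact (Complex.conj_eq_iff_im.1 h2).symm

omit [DecidableEq α] in
lemma weight_eq [Nonempty α] (q : ι → ℝ) (S : Finset ι) (x : ι → ℝ) :
    ((∏ i ∈ Finset.univ \ S, q i) * ∏ i ∈ S, (1 - q i)) *
      ((1 / (Fintype.card α : ℝ)) ^ Fintype.card ι *
        ∏ i, if i ∈ S then 1 else (Fintype.card α : ℝ) * x i) =
      (∏ i ∈ S, (1 - q i) / Fintype.card α) * ∏ i ∈ Finset.univ \ S, q i * x i := by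
  have hd : (Fintype.card α : ℝ) ≠ 0 := by exact_mod_cast Fintype.card_ne_zero
  have e1 : ∀ f g : ι → ℝ, (∏ i ∈ S, f i) * ∏ i ∈ Finset.univ \ S, g i =
      ∏ i, if i ∈ S then f i else g i := by
    intro f g
    rw [Finset.prod_ite]
    congr 1
    · congr 1; ext; simp
    · congr 1; ext; simp
  rw [mul_comm (∏ i ∈ Finset.univ \ S, q i), e1, e1, ← Finset.card_univ (α := ι),
    ← Finset.prod_const, ← Finset.prod_mul_distrib, ← Finset.prod_mul_distrib]
  refine Finset.prod_congr rfl fun i _ => ?_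
  split_ifs <;> field_simp

theorem chan_pair_le [Nonempty α] {q : ι → ℝ} (hq : ∀ i, 0 ≤ q i ∧ q i ≤ 1) (P : ℝ)
    (hP : ∀ i, (1 - q i) / Fintype.card α ≤ P * (q i + (1 - q i) / Fintype.card α))
    (hP0 : 0 ≤ P) (hP1 : P ≤ 1)
    {ρ : Matrix (ι → α) (ι → α) ℂ} (hρ : ρ.PosSemidef) (htr : ρ.trace = 1)
    (u : Fin 2 → (ι → α) → ℂ) (hu : ∀ a b, ip (u a) (u b) = if a = b then 1 else 0) :
    ∑ a, (ip (u a) (chan q ρ *ᵥ u a)).re ≤
      (∏ i, (q i + (1 - q i) / Fintype.card α)) * (1 + P) := by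
  obtain ⟨o⟩ := ‹Nonempty α›
  have hd : (1 : ℝ) ≤ Fintype.card α := by exact_mod_cast Fintype.card_pos
  have ha : ∀ i, 0 ≤ (1 - q i) / Fintype.card α := fun i =>
    div_nonneg (by linarith [(hq i).2]) (by linarith)
  have hpos : ∀ i, 0 < q i + (1 - q i) / Fintype.card α := by
    intro i
    rcases (hq i).1.eq_or_lt with h | h
    · rw [← h]; simp only [sub_zero, zero_add]; positivity
    · linarith [ha i]
  obtain ⟨f, hf, hmean⟩ := mean_le o u hu
    (fun i => (1 - q i) / Fintype.card α / (q i + (1 - q i) / Fintype.card α)) P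
    (fun i => ⟨div_nonneg (ha i) (hpos i).le, (div_le_iff₀ (hpos i)).2 (hP i)⟩) hP0 hP1
  obtain ⟨m, g, hg⟩ := Matrix.posSemidef_iff_eq_sum_vecMulVec.1 hρ
  have hg' : ρ = ∑ r, op (g r) (g r) := hg
  have h1 : ∑ r, (ip (g r) (g r)).re = 1 := by
    rw [hg, trace_sum] at htr
    rw [← Complex.re_sum, ← Complex.one_re, ← htr]
    simp only [trace_vecMulVec, ip, dotProduct_comm]
  have h2 : ∀ ψ, ∑ a, (ip (u a) (chan q (op ψ ψ) *ᵥ u a)).re ≤
      (∏ i, (q i + (1 - q i) / Fintype.card α)) * (1 + P) * (ip ψ ψ).re := by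
    intro ψ
    refine le_trans ?_ (mul_le_mul_of_nonneg_right (mul_le_mul_of_nonneg_left hmean
      (Finset.prod_nonneg fun i _ => (hpos i).le)) (ip_self_re_nonneg ψ))
    rw [chan_form o, Finset.mul_sum, Finset.sum_mul]
    refine Finset.sum_le_sum fun S _ => ?_
    have h3 := Finset.sum_le_sum fun c (_ : c ∈ Finset.univ) => hf S (slice o S c ψ)
    rw [← Finset.mul_sum, sum_slice] at h3
    refine (mul_le_mul_of_nonneg_left (mul_le_mul_of_nonneg_left h3 (by positivity))
      (weight_nonneg hq S)).trans_eq ?_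
    have h4 := weight_eq (α := α) q S (fun _ => 1)
    simp only [mul_one] at h4
    have h5 : (∏ i, (q i + (1 - q i) / Fintype.card α)) * (∏ i, if i ∈ S then
        (1 - q i) / Fintype.card α / (q i + (1 - q i) / Fintype.card α) else
        1 - (1 - q i) / Fintype.card α / (q i + (1 - q i) / Fintype.card α)) =
        (∏ i ∈ S, (1 - q i) / Fintype.card α) * ∏ i ∈ Finset.univ \ S, q i := by
      rw [← Finset.prod_mul_distrib, ← Finset.prod_sdiff (Finset.subset_univ S), mul_comm]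
      congr 1
      · refine Finset.prod_congr rfl fun i hi => ?_
        rw [if_pos hi, mul_div_cancel₀ _ (hpos i).ne']
      · refine Finset.prod_congr rfl fun i hi => ?_
        rw [if_neg (Finset.mem_sdiff.1 hi).2, mul_sub, mul_div_cancel₀ _ (hpos i).ne']
        ring
    rw [← mul_assoc (∏ i, (q i + (1 - q i) / Fintype.card α)), h5, ← h4]
    ring
  rw [hg', map_sum]
  simp only [sum_mulVec, ip_sum_right, Complex.re_sum]
  rw [Finset.sum_comm]
  refine (Finset.sum_le_sum fun r _ => h2 (g r)).trans_eq ?_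
  rw [← Finset.mul_sum, h1, mul_one]

lemma chan_diag [Nonempty α] (q : ι → ℝ) (o : α) (a : ι → α) :
    chan q (op (Pi.single (fun _ => o) 1) (Pi.single (fun _ => o) 1)) a a =
      ((∏ i, ((1 - q i) / Fintype.card α + q i * if a i = o then 1 else 0) : ℝ) : ℂ) := by
  rw [chan_apply, Finset.prod_add, Finset.powerset_univ, Complex.ofReal_sum]
  refine Finset.sum_congr rfl fun S _ => ?_
  rw [← weight_eq]
  have h1 : ∑ c : ι → α, op (Pi.single (fun _ => o) (1 : ℂ)) (Pi.single (fun _ => o) 1)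
      (S.piecewise c a) (S.piecewise c a) =
      ((∏ i, if i ∈ S then 1 else (Fintype.card α : ℝ) * if a i = o then 1 else 0 : ℝ) : ℂ) := by
    have := Finset.prod_univ_sum (fun _ : ι => (Finset.univ : Finset α))
      (fun i s => if (if i ∈ S then s else a i) = o then (1 : ℝ) else 0)
    rw [Fintype.piFinset_univ] at this
    rw [← Finset.prod_congr rfl fun i _ => (?_ : ∑ s : α,
      (if (if i ∈ S then s else a i) = o then (1 : ℝ) else 0) = _), this, Complex.ofReal_sum]
    · refine Finset.sum_congr rfl fun c _ => ?_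
      rw [Finset.prod_boole, op_apply, Pi.single_apply]
      have : (S.piecewise c a = fun _ => o) ↔
          ∀ i ∈ Finset.univ, (if i ∈ S then c i else a i) = o := by
        simp [funext_iff, Finset.piecewise]
      simp only [this]
      split_ifs <;> simp
    · split_ifs <;> simp
  rw [h1]
  simp

end Pool.Agent.MP_b746ed_mp.KF

end
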