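import Pool.Agent.MP_b746ed_mp.Mg.Chan
import Mathlib

-- part MP_b746ed_mp.Twirl
section

/-! Tracing out one site, abstractly; inequalities for projections. -/

set_option autoImplicit false
open scoped ComplexOrder
open Matrix

namespace Pool.Agent.MP_b746ed_mp.KF

section Proj
variable {Ω : Type} [Fintype Ω] [DecidableEq Ω]

open scoped MatrixOrder in
lemma psd_mul {A B : Matrix Ω Ω ℂ} (hA : A.PosSemidef) (hB : B.PosSemidef) (h : A * B = B * A) :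
    (A * B).PosSemidef :=
  Matrix.nonneg_iff_posSemidef.1 (Commute.mul_nonneg (Matrix.nonneg_iff_posSemidef.2 hA)
    (Matrix.nonneg_iff_posSemidef.2 hB) h)

/-- orthogonal projections -/
def IsProj (P : Matrix Ω Ω ℂ) : Prop := Pᴴ = P ∧ P * P = P

/-- the real part of `tr (P Z)` -/
noncomputable def tp (P Z : Matrix Ω Ω ℂ) : ℝ := (P * Z).trace.re

omit [DecidableEq Ω] in
lemma tp_add (P Y Z : Matrix Ω Ω ℂ) : tp P (Y + Z) = tp P Y + tp P Z := by
  simp [tp, mul_add]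
omit [DecidableEq Ω] in
lemma tp_sub (P Y Z : Matrix Ω Ω ℂ) : tp P (Y - Z) = tp P Y - tp P Z := by
  simp [tp, mul_sub]
omit [DecidableEq Ω] in
lemma tp_smul (P Z : Matrix Ω Ω ℂ) (c : ℝ) : tp P ((c : ℂ) • Z) = c * tp P Z := by
  simp [tp, -Complex.coe_smul]
omit [DecidableEq Ω] in
lemma tp_sum {ρ : Type} (s : Finset ρ) (P : Matrix Ω Ω ℂ) (Z : ρ → Matrix Ω Ω ℂ) :
    tp P (∑ r ∈ s, Z r) = ∑ r ∈ s, tp P (Z r) := by
  simp [tp, Finset.mul_sum, trace_sum]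
lemma tp_one (P : Matrix Ω Ω ℂ) : tp P 1 = P.trace.re := by simp [tp]

omit [DecidableEq Ω] in
lemma tp_op (P : Matrix Ω Ω ℂ) (x : Ω → ℂ) : tp P (op x x) = (ip x (P *ᵥ x)).re := by
  rw [tp, op, mul_vecMulVec, trace_vecMulVec, ip, dotProduct_comm]

omit [DecidableEq Ω] in
lemma trace_op (x y : Ω → ℂ) : (op x y).trace = ip y x := by
  rw [op, trace_vecMulVec, ip, dotProduct_comm]

lemma IsProj.compl {P : Matrix Ω Ω ℂ} (hP : IsProj P) : IsProj (1 - P) :=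
  ⟨by simp [hP.1], by simp [mul_sub, sub_mul, hP.2]⟩

omit [DecidableEq Ω] in
lemma IsProj.tp_nonneg {P Z : Matrix Ω Ω ℂ} (hP : IsProj P) (hZ : Z.PosSemidef) : 0 ≤ tp P Z := by
  have h := (hZ.conjTranspose_mul_mul_same P).trace_nonneg
  rw [trace_mul_cycle, hP.1, hP.2] at h
  exact (Complex.nonneg_iff.1 h).1

lemma IsProj.tp_le {P Z : Matrix Ω Ω ℂ} (hP : IsProj P) (hZ : Z.PosSemidef) :
    tp P Z ≤ Z.trace.re := by
  have h := hP.compl.tp_nonneg hZ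
  simp only [tp, sub_mul, one_mul, trace_sub, Complex.sub_re] at h ⊢
  linarith

lemma IsProj.tp_le_of {P Y Z : Matrix Ω Ω ℂ} (hP : IsProj P) (hZ : Z.PosSemidef)
    (h : (Z - Y).PosSemidef) : tp P Y ≤ Z.trace.re := by
  have h1 := hP.tp_nonneg h
  rw [tp_sub] at h1
  linarith [hP.tp_le hZ]

lemma IsProj.tp_le_trace {P Y : Matrix Ω Ω ℂ} (hP : IsProj P) (h : (1 - Y).PosSemidef) :
    tp P Y ≤ P.trace.re := by
  have h1 := hP.tp_nonneg h
  rw [tp_sub, tp_one] at h1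
  linarith

lemma comm_two {P a b : Matrix Ω Ω ℂ} (hP : IsProj P) (ha : a.PosSemidef) (hb : b.PosSemidef)
    (ha' : (1 - a).PosSemidef) (hb' : (1 - b).PosSemidef) (h : a * b = b * a) :
    tp P a + tp P b ≤ P.trace.re + (a * b).trace.re := by
  have h1 := hP.tp_le_of (Y := a + b - 1) (psd_mul ha hb h) (by
    have := psd_mul ha' hb' (by simp [mul_sub, sub_mul, h]; abel)
    convert this using 1
    noncomm_ring)
  rw [tp_sub, tp_add, tp_one] at h1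
  linarith

lemma comm_three {P a b c : Matrix Ω Ω ℂ} (hP : IsProj P) (ha : a.PosSemidef) (hb : b.PosSemidef)
    (hc : c.PosSemidef) (ha' : (1 - a).PosSemidef) (hb' : (1 - b).PosSemidef)
    (hc' : (1 - c).PosSemidef) (hab : a * b = b * a) (hac : a * c = c * a) (hbc : b * c = c * b) :
    tp P a + tp P b + tp P c ≤ P.trace.re + (a * b + a * c + b * c - a * b * c).trace.re ∧
      tp P a + tp P b + tp P c ≤ 2 * P.trace.re + (a * b * c).trace.re := by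
  have key : ∀ x y z : Matrix Ω Ω ℂ, x.PosSemidef → y.PosSemidef → z.PosSemidef → Commute x y →
      Commute x z → Commute y z → (x * y * z).PosSemidef := fun x y z hx hy hz h1 h2 h3 =>
    psd_mul (psd_mul hx hy h1) hz (h2.mul_left h3)
  have cab : Commute a b := hab
  have cac : Commute a c := hac
  have cbc : Commute b c := hbc
  have n1 : ∀ {x y : Matrix Ω Ω ℂ}, Commute x y → Commute x (1 - y) := fun h =>
    (Commute.one_right _).sub_right h
  have n2 : ∀ {x y : Matrix Ω Ω ℂ}, Commute x y → Commute (1 - x) y := fun h =>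
    (Commute.one_left _).sub_left h
  have p000 := key _ _ _ ha' hb' hc' (n1 (n2 cab)) (n1 (n2 cac)) (n1 (n2 cbc))
  have p100 := key _ _ _ ha hb' hc' (n1 cab) (n1 cac) (n1 (n2 cbc))
  have p010 := key _ _ _ ha' hb hc' (n2 cab) (n1 (n2 cac)) (n1 cbc)
  have p001 := key _ _ _ ha' hb' hc (n1 (n2 cab)) (n2 cac) (n2 cbc)
  have p110 := key _ _ _ ha hb hc' cab (n1 cac) (n1 cbc)
  have p111 := key _ _ _ ha hb hc cab cac cbc
  constructor
  · have h1 := hP.tp_le_of (Y := a + b + c - 1) (Z := a * b + a * c + b * c - a * b * c) (by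
      have := (p110.add (psd_mul ha hc hac)).add (psd_mul hb hc hbc)
      convert this using 1
      noncomm_ring) (by
      convert p000 using 1
      noncomm_ring)
    rw [tp_sub, tp_add, tp_add, tp_one] at h1
    linarith
  · have h1 := hP.tp_le_of (Y := a + b + c - 1 - 1) p111 (by
      have := (((p100.add p010).add p001).add p000).add p000
      convert this using 1
      noncomm_ring)
    rw [tp_sub, tp_sub, tp_add, tp_add, tp_one] at h1
    linarith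

lemma bessel {ρ κ : Type} [Fintype ρ] [DecidableEq κ] (K : Finset κ) (c : κ → ρ → ℂ) (l : κ → ℝ)
    (hl : ∀ k ∈ K, l k ≠ 0) (hc : ∀ k k', ip (c k) (c k') = if k = k' then (l k : ℂ) else 0)
    (z : ρ → ℂ) : ∑ k ∈ K, Complex.normSq (ip (c k) z) / l k ≤ (ip z z).re := by
  have h := ip_self_re_nonneg (z - ∑ k ∈ K, (ip (c k) z / l k) • c k)
  have e : ip (z - ∑ k ∈ K, (ip (c k) z / l k) • c k) (z - ∑ k ∈ K, (ip (c k) z / l k) • c k) =
      ip z z - ((∑ k ∈ K, Complex.normSq (ip (c k) z) / l k : ℝ) : ℂ) := by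
    have e1 : ∀ k ∈ K, ip (c k) (z - ∑ k ∈ K, (ip (c k) z / l k) • c k) = 0 := by
      intro k hk
      simp only [ip_sub_right, ip_sum_right, ip_smul_right, hc, mul_ite, mul_zero,
        Finset.sum_ite_eq, if_pos hk]
      rw [div_mul_cancel₀ _ (by exact_mod_cast hl k hk), sub_self]
    have e2 : ip (∑ k ∈ K, (ip (c k) z / l k) • c k) (z - ∑ k ∈ K, (ip (c k) z / l k) • c k) = 0 := by
      rw [ip_sum_left]
      exact Finset.sum_eq_zero fun k hk => by rw [ip_smul_left, e1 k hk, mul_zero]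
    rw [ip_sub_left, e2, sub_zero, ip_sub_right, ip_sum_right]
    push_cast
    congr 1
    refine Finset.sum_congr rfl fun k _ => ?_
    rw [ip_smul_right, Complex.normSq_eq_conj_mul_self, ← Complex.star_def, star_ip]
    ring
  rw [e, Complex.sub_re, Complex.ofReal_re] at h
  linarith

lemma gram_transfer {ρ η : Type} [Fintype ρ] [Fintype η] {P : Matrix Ω Ω ℂ} (hP : IsProj P)
    (w : ρ → Ω → ℂ) (ζ : η → ρ → ℂ) (κ : ℝ) (hκ : 0 ≤ κ)
    (H : ∀ c : ρ → ℂ, (ip (∑ r, c r • w r) (∑ r, c r • w r)).re ≤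
      (ip c c).re + κ * ∑ e, Complex.normSq (ip c (ζ e))) :
    tp P (∑ r, op (w r) (w r)) ≤ P.trace.re + κ * ∑ e, (ip (ζ e) (ζ e)).re := by
  have hW : (∑ r, op (w r) (w r)).IsHermitian := by
    simp only [IsHermitian, conjTranspose_sum, op_conjTranspose]
  obtain ⟨b, l, hb, hb1, hWb, hl⟩ := spectral_op hW
  set c : Ω → ρ → ℂ := fun k r => ip (w r) (b k) with hc
  have h1 : ∀ k, ∑ r, c k r • w r = (l k : ℂ) • b k := by
    intro k
    rw [← hl k]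
    simp only [hc, sum_mulVec, op_mulVec]
  have h2 : ∀ k k', ip (c k) (c k') = if k = k' then (l k : ℂ) else 0 := by
    intro k k'
    have := congrArg (ip (b k)) (h1 k')
    rw [ip_smul_right, hb, ip_sum_right] at this
    rw [ip_eq]
    simp only [hc, star_ip, ip_smul_right] at this ⊢
    simp only [mul_comm (ip (b k) _), this]
    split_ifs with h <;> simp [h]
  set K := Finset.univ.filter fun k => 1 < l k with hK
  have h3 : ∀ k ∈ K, l k - 1 ≤ κ * ∑ e, Complex.normSq (ip (c k) (ζ e)) / l k := by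
    intro k hk
    have hk1 : 1 < l k := (Finset.mem_filter.1 hk).2
    have := H (c k)
    rw [h1, h2, if_pos rfl, ip_smul_left, ip_smul_right, hb, if_pos rfl] at this
    simp only [Complex.star_def, Complex.conj_ofReal, mul_one, ← Complex.ofReal_mul,
      Complex.ofReal_re] at this
    rw [← Finset.sum_div, ← mul_div_assoc, le_div_iff₀ (by linarith)]
    linarith
  have h4 : ∑ k ∈ K, (l k - 1) ≤ κ * ∑ e, (ip (ζ e) (ζ e)).re := by
    refine (Finset.sum_le_sum h3).trans ?_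
    rw [← Finset.mul_sum, Finset.sum_comm]
    refine mul_le_mul_of_nonneg_left (Finset.sum_le_sum fun e _ => bessel K c l
      (fun k hk => by linarith [(Finset.mem_filter.1 hk).2]) h2 _) hκ
  have h5 : tp P (∑ r, op (w r) (w r)) - P.trace.re = ∑ k, (l k - 1) * tp P (op (b k) (b k)) := by
    rw [← tp_one, ← hb1, hWb, tp_sum, tp_sum, ← Finset.sum_sub_distrib]
    refine Finset.sum_congr rfl fun k _ => ?_
    rw [tp_smul]; ring
  have h6 : ∑ k, (l k - 1) * tp P (op (b k) (b k)) ≤ ∑ k ∈ K, (l k - 1) := by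
    rw [hK, Finset.sum_filter]
    refine Finset.sum_le_sum fun k _ => ?_
    have a0 := hP.tp_nonneg (posSemidef_vecMulVec_self_star (b k))
    have a1 := hP.tp_le (posSemidef_vecMulVec_self_star (b k))
    change 0 ≤ tp P (op (b k) (b k)) at a0
    change tp P (op (b k) (b k)) ≤ (op (b k) (b k)).trace.re at a1
    rw [trace_op, hb, if_pos rfl, Complex.one_re] at a1
    split_ifs with h <;> nlinarith
  linarith

omit [DecidableEq Ω] in
lemma avg_le {τ : Type} [Fintype τ] (f : (Ω → ℂ) → ℝ)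
    (hf : ∀ (s : ℝ) φ, f ((s : ℂ) • φ) = s ^ 2 * f φ) (C : ℝ) (hC : ∀ φ, ip φ φ = 1 → f φ ≤ C)
    (φ : τ → Ω → ℂ) (hφ : ∑ t, (ip (φ t) (φ t)).re = 1) : ∑ t, f (φ t) ≤ C := by
  have h : ∀ ψ, f ψ ≤ C * (ip ψ ψ).re := by
    intro ψ
    rcases (ip_self_re_nonneg ψ).eq_or_lt with h | h
    · have h0 := hf 0 ψ
      rw [← h, eq_zero_of_ip_self h.symm]
      simp only [Complex.ofReal_zero, zero_smul] at h0
      rw [h0]; simp
    · have h1 := hC ((((√(ip ψ ψ).re)⁻¹ : ℝ) : ℂ) • ψ) (by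
        rw [ip_smul_left, ip_smul_right, ← mul_assoc, Complex.star_def, Complex.conj_ofReal,
          ← Complex.ofReal_mul, ← sq, inv_pow, Real.sq_sqrt h.le]
        conv_lhs => rw [ip_self_ofReal ψ, Complex.ofReal_re, ← Complex.ofReal_mul,
          inv_mul_cancel₀ h.ne']
        simp)
      rw [hf, inv_pow, Real.sq_sqrt h.le, inv_mul_le_iff₀ h] at h1
      linarith
  refine (Finset.sum_le_sum fun t _ => h (φ t)).trans_eq ?_
  rw [← Finset.mul_sum, hφ, mul_one]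

end Proj

variable {α Ω : Type} [Fintype α] [DecidableEq α] [Fintype Ω] [DecidableEq Ω]

/-- matrix units -/
def eu (s t : α) : Matrix α α ℂ := op (Pi.single s 1) (Pi.single t 1)

lemma eu_mul (s t s' t' : α) : eu s t * eu s' t' = if t = s' then eu s t' else 0 := by
  rw [eu, eu, op_mul_op]
  split_ifs with h
  · rw [h, ip_single_self, one_smul, eu]
  · simp [ip_eq, Pi.single_apply, Ne.symm h]

omit [Fintype α] in
lemma eu_conj (s t : α) : (eu s t)ᴴ = eu t s := op_conjTranspose _ _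

lemma sum_eu : ∑ s : α, eu s s = 1 := sum_op_single

lemma mul_eu (A : Matrix α α ℂ) (s t : α) : A * eu s t = ∑ r, A r s • eu r t := by
  ext a b
  simp [eu, Matrix.mul_apply, Matrix.sum_apply, op_apply, Pi.single_apply]

lemma eu_mul' (A : Matrix α α ℂ) (s t : α) : eu s t * A = ∑ r, A t r • eu s r := by
  ext a b
  simp [eu, Matrix.mul_apply, Matrix.sum_apply, op_apply, Pi.single_apply, mul_comm]

/-- tracing out a site and tensoring with the identity there -/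
def tw (L : Matrix α α ℂ →⋆ₐ[ℂ] Matrix Ω Ω ℂ) (X : Matrix Ω Ω ℂ) : Matrix Ω Ω ℂ :=
  ∑ s, ∑ t, L (eu s t) * X * L (eu t s)

lemma tw_comm (L : Matrix α α ℂ →⋆ₐ[ℂ] Matrix Ω Ω ℂ) (X : Matrix Ω Ω ℂ) (A : Matrix α α ℂ) :
    L A * tw L X = tw L X * L A := by
  simp only [tw, Finset.mul_sum, Finset.sum_mul, ← mul_assoc, ← map_mul, mul_eu]
  simp only [mul_assoc, ← map_mul, eu_mul', map_sum, map_smul, Finset.mul_sum, Finset.sum_mul,
    smul_mul_assoc, mul_smul_comm]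
  conv_lhs => enter [2, s]; rw [Finset.sum_comm]
  conv_rhs => enter [2, s]; rw [Finset.sum_comm]
  rw [Finset.sum_comm]

lemma tw_cyc (L : Matrix α α ℂ →⋆ₐ[ℂ] Matrix Ω Ω ℂ) (X : Matrix Ω Ω ℂ) (A : Matrix α α ℂ) :
    tw L (L A * X) = tw L (X * L A) := by
  simp only [tw, ← mul_assoc, ← map_mul, eu_mul']
  simp only [mul_assoc, ← map_mul, mul_eu, map_sum, map_smul, Finset.mul_sum, Finset.sum_mul,
    smul_mul_assoc, mul_smul_comm]
  refine Finset.sum_congr rfl fun s _ => ?_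
  rw [Finset.sum_comm]

lemma tw_conj_self (L : Matrix α α ℂ →⋆ₐ[ℂ] Matrix Ω Ω ℂ) (X : Matrix Ω Ω ℂ) {U : Matrix α α ℂ}
    (h1 : Uᴴ * U = 1) (h2 : U * Uᴴ = 1) :
    tw L (L U * X * (L U)ᴴ) = L U * tw L X * (L U)ᴴ := by
  rw [mul_assoc, tw_cyc, L_conj, mul_assoc, ← map_mul, h1, map_one, mul_one, tw_comm, mul_assoc,
    ← map_mul, h2, map_one, mul_one]

lemma tw_conj_other (L L' : Matrix α α ℂ →⋆ₐ[ℂ] Matrix Ω Ω ℂ)
    (hL : ∀ X X', L' X' * L X = L X * L' X') (X : Matrix Ω Ω ℂ) (U : Matrix α α ℂ) :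
    tw L (L' U * X * (L' U)ᴴ) = L' U * tw L X * (L' U)ᴴ := by
  simp only [tw, Finset.mul_sum, Finset.sum_mul, L_conj]
  refine Finset.sum_congr rfl fun s _ => Finset.sum_congr rfl fun t _ => ?_
  simp only [← mul_assoc, hL]
  simp only [mul_assoc, hL]

lemma tw_op (L : Matrix α α ℂ →⋆ₐ[ℂ] Matrix Ω Ω ℂ) (ψ : Ω → ℂ) :
    tw L (op ψ ψ) = ∑ s, ∑ t, op (L (eu s t) *ᵥ ψ) (L (eu s t) *ᵥ ψ) := by
  refine Finset.sum_congr rfl fun s _ => Finset.sum_congr rfl fun t _ => ?_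
  rw [op, op, mul_vecMulVec, vecMulVec_mul, star_mulVec, L_conj, eu_conj]

lemma tw_psd (L : Matrix α α ℂ →⋆ₐ[ℂ] Matrix Ω Ω ℂ) (ψ : Ω → ℂ) : (tw L (op ψ ψ)).PosSemidef := by
  rw [tw_op]
  exact posSemidef_sum _ fun s _ => posSemidef_sum _ fun t _ => posSemidef_vecMulVec_self_star _

lemma sum_ip_eu (L : Matrix α α ℂ →⋆ₐ[ℂ] Matrix Ω Ω ℂ) (o : α) (ψ : Ω → ℂ) :
    ∑ t, ip (L (eu o t) *ᵥ ψ) (L (eu o t) *ᵥ ψ) = ip ψ ψ := by
  have : ∀ t, ip (L (eu o t) *ᵥ ψ) (L (eu o t) *ᵥ ψ) = ip ψ (L (eu t t) *ᵥ ψ) := by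
    intro t
    rw [eu, eu, L_op_eq L o (Pi.single t 1), ← mulVec_mulVec, ip_mulVec (A := (L _)ᴴ),
      conjTranspose_conjTranspose]
  simp only [this]
  rw [← ip_sum_right, ← sum_mulVec, ← map_sum, sum_eu, map_one, one_mulVec]

lemma tw_le_one [Nonempty α] (L : Matrix α α ℂ →⋆ₐ[ℂ] Matrix Ω Ω ℂ) (ψ : Ω → ℂ)
    (hψ : ip ψ ψ = 1) : (1 - tw L (op ψ ψ)).PosSemidef := by
  obtain ⟨o⟩ := ‹Nonempty α›
  have hH : (1 - tw L (op ψ ψ)).IsHermitian := isHermitian_one.sub (tw_psd L ψ).isHermitian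
  refine PosSemidef.of_dotProduct_mulVec_nonneg hH fun z => ?_
  change 0 ≤ ip z _
  have e : ip z ((1 - tw L (op ψ ψ)) *ᵥ z) = (((ip z z).re - ∑ s, ∑ t,
      Complex.normSq (ip (L (eu o t) *ᵥ ψ) (L (eu o s) *ᵥ z)) : ℝ) : ℂ) := by
    rw [sub_mulVec, one_mulVec, ip_sub_right, tw_op, Complex.ofReal_sub, ← ip_self_ofReal]
    simp only [sum_mulVec, op_mulVec, ip_sum_right, ip_smul_right, Complex.ofReal_sum]
    congr 1
    refine Finset.sum_congr rfl fun s _ => Finset.sum_congr rfl fun t _ => ?_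
    have : ip (L (eu o t) *ᵥ ψ) (L (eu o s) *ᵥ z) = ip (L (eu s t) *ᵥ ψ) z := by
      rw [ip_mulVec, L_conj, eu_conj, mulVec_mulVec, ← map_mul, eu_mul, if_pos rfl]
    rw [this, ← Complex.mul_conj, ← Complex.star_def, star_ip]
  rw [e, ← Complex.ofReal_zero, Complex.real_le_real, sub_nonneg]
  refine (Finset.sum_le_sum fun s _ => Finset.sum_le_sum fun t _ => normSq_ip_le _ _).trans_eq ?_
  simp only [← Finset.sum_mul, ← Complex.re_sum, sum_ip_eu, hψ, Complex.one_re,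
    one_mul]

lemma trace_mul_tw (L : Matrix α α ℂ →⋆ₐ[ℂ] Matrix Ω Ω ℂ) (A : Matrix α α ℂ) (X : Matrix Ω Ω ℂ) :
    (L A * tw L X).trace = A.trace * X.trace := by
  have : ∀ s t, (L A * (L (eu s t) * X * L (eu t s))).trace = A s s * (L (eu t t) * X).trace := by
    intro s t
    rw [← mul_assoc, trace_mul_comm, ← mul_assoc, ← mul_assoc, ← map_mul, ← map_mul, mul_assoc,
      mul_eu, Finset.mul_sum]
    simp only [mul_smul_comm, eu_mul, smul_ite, smul_zero, Finset.sum_ite_eq, Finset.mem_univ,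
      if_true, map_smul, smul_mul_assoc, trace_smul, smul_eq_mul]
  simp only [tw, Finset.mul_sum, trace_sum, this]
  rw [← Finset.sum_mul_sum, ← trace_sum, ← Finset.sum_mul, ← map_sum, sum_eu, map_one, one_mul]
  rfl

lemma two_pure (o : α) (L L' : Matrix α α ℂ →⋆ₐ[ℂ] Matrix Ω Ω ℂ)
    (hL : ∀ X X', L' X' * L X = L X * L' X') {P : Matrix Ω Ω ℂ} (hP : IsProj P) (φ φ' : Ω → ℂ)
    (hφ : ip φ φ = 1) (hφ' : ip φ' φ' = 1) :
    tp P (∑ s, op (L (eu s o) *ᵥ φ) (L (eu s o) *ᵥ φ)) +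
      tp P (∑ s, op (L' (eu s o) *ᵥ φ') (L' (eu s o) *ᵥ φ')) ≤ P.trace.re + 1 := by
  have h := gram_transfer hP (ρ := α ⊕ α) (η := Ω)
    (Sum.elim (fun s => L (eu s o) *ᵥ φ) (fun s => L' (eu s o) *ᵥ φ'))
    (fun ω => Sum.elim (fun s => (L (eu o s) *ᵥ φ') ω) (fun s => (L' (eu o s) *ᵥ φ) ω))
    (1 / 2) (by norm_num) fun c => ?_
  · rw [Fintype.sum_sum_type, tp_add] at h
    have h1 := congrArg Complex.re (sum_ip_eu L o φ')
    have h2 := congrArg Complex.re (sum_ip_eu L' o φ)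
    simp only [Complex.re_sum, ip_self_re (_ *ᵥ _), hφ, hφ', Complex.one_re] at h1 h2
    simp only [ip_self_re, Fintype.sum_sum_type, Sum.elim_inl, Sum.elim_inr,
      Finset.sum_add_distrib] at h
    rw [Finset.sum_comm, h1, Finset.sum_comm, h2] at h
    linarith
  have hn : ∀ (M : Matrix α α ℂ →⋆ₐ[ℂ] Matrix Ω Ω ℂ) (x : α → ℂ) (χ : Ω → ℂ), ip χ χ = 1 →
      (ip (∑ s, x s • M (eu s o) *ᵥ χ) (∑ s, x s • M (eu s o) *ᵥ χ)).re ≤ (ip x x).re := by
    intro M x χ hχ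
    have e : ip (∑ s, x s • M (eu s o) *ᵥ χ) (∑ s, x s • M (eu s o) *ᵥ χ) =
        ip x x * ip (M (eu o o) *ᵥ χ) (M (eu o o) *ᵥ χ) := by
      simp only [ip_sum_left, ip_sum_right, ip_smul_left, ip_smul_right, ip_eq x, Finset.sum_mul]
      refine Finset.sum_congr rfl fun s _ => ?_
      have : ∀ t, ip (M (eu t o) *ᵥ χ) (M (eu s o) *ᵥ χ) =
          if s = t then ip (M (eu o o) *ᵥ χ) (M (eu o o) *ᵥ χ) else 0 := by
        intro t
        rw [ip_mulVec, ip_mulVec (M (eu o o))]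
        simp only [L_conj, eu_conj, mulVec_mulVec, ← map_mul, eu_mul]
        split_ifs <;> simp [ip_zero_left]
      simp only [this, mul_ite, mul_zero, Finset.sum_ite_eq, Finset.mem_univ, if_true]
      ring
    have h1 : (ip (M (eu o o) *ᵥ χ) (M (eu o o) *ᵥ χ)).re ≤ 1 := by
      have := congrArg Complex.re (sum_ip_eu M o χ)
      rw [hχ, Complex.re_sum, Complex.one_re] at this
      rw [← this]
      exact Finset.single_le_sum (f := fun t => (ip (M (eu o t) *ᵥ χ) (M (eu o t) *ᵥ χ)).re)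
        (fun _ _ => ip_self_re_nonneg _) (Finset.mem_univ o)
    rw [e, ip_self_ofReal x, Complex.re_ofReal_mul, Complex.ofReal_re]
    exact mul_le_of_le_one_right (ip_self_re_nonneg x) h1
  set x : α → ℂ := fun s => c (Sum.inl s) with hx
  set y : α → ℂ := fun s => c (Sum.inr s) with hy
  set F : Ω → ℂ := ∑ s, star (y s) • L' (eu o s) *ᵥ φ with hF
  set G : Ω → ℂ := ∑ s, star (x s) • L (eu o s) *ᵥ φ' with hG
  have e1 : ip (∑ s, x s • L (eu s o) *ᵥ φ) (∑ s, y s • L' (eu s o) *ᵥ φ') = ip F G := by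
    simp only [hF, hG, ip_sum_left, ip_sum_right, ip_smul_left, ip_smul_right, star_star,
      Finset.mul_sum]
    rw [Finset.sum_comm]
    refine Finset.sum_congr rfl fun s _ => Finset.sum_congr rfl fun t _ => ?_
    rw [ip_mulVec, ip_mulVec (L _)]
    simp only [L_conj, eu_conj, mulVec_mulVec, hL]
    ring
  have e2 : ∑ ω, Complex.normSq (ip c (Sum.elim (fun s => (L (eu o s) *ᵥ φ') ω)
      (fun s => (L' (eu o s) *ᵥ φ) ω))) = (ip (F + G) (F + G)).re := by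
    rw [ip_self_re]
    refine Finset.sum_congr rfl fun ω _ => ?_
    rw [Complex.normSq_eq_norm_sq]
    congr 2
    simp [hF, hG, hx, hy, ip_eq, Fintype.sum_sum_type, add_comm]
  have e3 : (ip c c).re = (ip x x).re + (ip y y).re := by
    simp only [ip_self_re, Fintype.sum_sum_type, hx, hy]
  have h3 := ip_self_re_nonneg (F - G)
  have h4 : (ip G F).re = (ip F G).re := by rw [← star_ip, Complex.star_def, Complex.conj_re]
  rw [e2, e3, Fintype.sum_sum_type]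
  simp only [Sum.elim_inl, Sum.elim_inr]
  have h5 := hn L x φ hφ
  have h6 := hn L' y φ' hφ'
  have e1' : (ip (∑ s, y s • L' (eu s o) *ᵥ φ') (∑ s, x s • L (eu s o) *ᵥ φ)).re = (ip F G).re := by
    rw [← star_ip, e1, Complex.star_def, Complex.conj_re]
  have e1'' := congrArg Complex.re e1
  simp only [ip_add_left, ip_add_right, ip_sub_left, ip_sub_right, Complex.add_re,
    Complex.sub_re] at h3 ⊢
  linarith

lemma two_tw [Nonempty α] (L L' : Matrix α α ℂ →⋆ₐ[ℂ] Matrix Ω Ω ℂ)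
    (hL : ∀ X X', L' X' * L X = L X * L' X') {P : Matrix Ω Ω ℂ} (hP : IsProj P) (ψ : Ω → ℂ)
    (hψ : ip ψ ψ = 1) : tp P (tw L (op ψ ψ)) + tp P (tw L' (op ψ ψ)) ≤ P.trace.re + 1 := by
  obtain ⟨o⟩ := ‹Nonempty α›
  have e : ∀ M : Matrix α α ℂ →⋆ₐ[ℂ] Matrix Ω Ω ℂ, tp P (tw M (op ψ ψ)) =
      ∑ t, tp P (∑ s, op (M (eu s o) *ᵥ (M (eu o t) *ᵥ ψ)) (M (eu s o) *ᵥ (M (eu o t) *ᵥ ψ))) := by
    intro M
    rw [tw_op, Finset.sum_comm, tp_sum]
    simp only [mulVec_mulVec, ← map_mul, eu_mul, if_true]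
  have hom : ∀ (M : Matrix α α ℂ →⋆ₐ[ℂ] Matrix Ω Ω ℂ) (s : ℝ) (φ : Ω → ℂ),
      tp P (∑ r, op (M (eu r o) *ᵥ ((s : ℂ) • φ)) (M (eu r o) *ᵥ ((s : ℂ) • φ))) =
      s ^ 2 * tp P (∑ r, op (M (eu r o) *ᵥ φ) (M (eu r o) *ᵥ φ)) := by
    intro M s φ
    simp only [mulVec_smul, op_smul_left, op_smul_right, smul_smul, Complex.star_def,
      Complex.conj_ofReal, ← Complex.ofReal_mul, ← Finset.smul_sum, tp_smul, sq]
  have hn : ∀ M : Matrix α α ℂ →⋆ₐ[ℂ] Matrix Ω Ω ℂ,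
      ∑ t, (ip (M (eu o t) *ᵥ ψ) (M (eu o t) *ᵥ ψ)).re = 1 := fun M => by
    rw [← Complex.re_sum, sum_ip_eu, hψ, Complex.one_re]
  have h := avg_le (fun φ => tp P (∑ r, op (L' (eu r o) *ᵥ φ) (L' (eu r o) *ᵥ φ))) (hom L')
    (P.trace.re + 1 - tp P (tw L (op ψ ψ))) (fun φ' hφ' => by
    have h1 := avg_le (fun φ => tp P (∑ r, op (L (eu r o) *ᵥ φ) (L (eu r o) *ᵥ φ))) (hom L)
      (P.trace.re + 1 -
      tp P (∑ s, op (L' (eu s o) *ᵥ φ') (L' (eu s o) *ᵥ φ'))) (fun φ hφ => by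
        linarith [two_pure o L L' hL hP φ φ' hφ hφ']) _ (hn L)
    rw [e L]
    linarith) _ (hn L')
  rw [e L']
  linarith

/-- the reduced state at one site -/
def marg (L : Matrix α α ℂ →⋆ₐ[ℂ] Matrix Ω Ω ℂ) (ψ : Ω → ℂ) : Matrix α α ℂ :=
  Matrix.of fun s t => ip ψ (L (eu t s) *ᵥ ψ)

lemma ip_L_eq (L : Matrix α α ℂ →⋆ₐ[ℂ] Matrix Ω Ω ℂ) (ψ : Ω → ℂ) (A : Matrix α α ℂ) :
    ip ψ (L A *ᵥ ψ) = (A * marg L ψ).trace := by
  conv_lhs => rw [← one_mul A, ← sum_eu, Finset.sum_mul]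
  simp only [eu_mul', map_sum, map_smul, sum_mulVec, smul_mulVec, ip_sum_right, ip_smul_right,
    trace, diag_apply, Matrix.mul_apply, marg, of_apply]

lemma marg_trace (L : Matrix α α ℂ →⋆ₐ[ℂ] Matrix Ω Ω ℂ) (ψ : Ω → ℂ) :
    (marg L ψ).trace = ip ψ ψ := by
  have := ip_L_eq L ψ 1
  rw [map_one, one_mulVec, one_mul] at this
  exact this.symm

lemma marg_psd [Nonempty α] (L : Matrix α α ℂ →⋆ₐ[ℂ] Matrix Ω Ω ℂ) (ψ : Ω → ℂ) :
    (marg L ψ).PosSemidef := by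
  have hH : (marg L ψ).IsHermitian := by
    ext s t
    simp only [conjTranspose_apply, marg, of_apply, star_ip]
    rw [ip_mulVec (L (eu t s)), L_conj, eu_conj]
  refine PosSemidef.of_dotProduct_mulVec_nonneg hH fun z => ?_
  have h := (L_psd L (posSemidef_vecMulVec_self_star z)).dotProduct_mulVec_nonneg ψ
  change 0 ≤ ip ψ _ at h
  rwa [ip_L_eq, vecMulVec_mul, trace_vecMulVec, dotProduct_comm, ← dotProduct_mulVec] at h

lemma marg_le_one [Nonempty α] (L : Matrix α α ℂ →⋆ₐ[ℂ] Matrix Ω Ω ℂ) (ψ : Ω → ℂ)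
    (hψ : ip ψ ψ = 1) : (1 - marg L ψ).PosSemidef := by
  have hH : (1 - marg L ψ).IsHermitian := isHermitian_one.sub (marg_psd L ψ).isHermitian
  refine PosSemidef.of_dotProduct_mulVec_nonneg hH fun z => ?_
  have h0 : (ip z z • (1 : Matrix α α ℂ) - op z z).PosSemidef := by
    rw [← sum_op_wv]
    exact posSemidef_sum _ fun r _ => posSemidef_vecMulVec_self_star _
  have h := (L_psd L h0).dotProduct_mulVec_nonneg ψ
  change 0 ≤ ip ψ _ at h
  rw [ip_L_eq, sub_mul, smul_mul_assoc, one_mul, trace_sub, trace_smul, marg_trace, hψ, op,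
    vecMulVec_mul, trace_vecMulVec, dotProduct_comm, ← dotProduct_mulVec, smul_eq_mul,
    mul_one] at h
  rwa [sub_mulVec, one_mulVec, dotProduct_sub]

lemma marg_self (L : Matrix α α ℂ →⋆ₐ[ℂ] Matrix Ω Ω ℂ) (ψ : Ω → ℂ) (U : Matrix α α ℂ) :
    marg L (L U *ᵥ ψ) = U * marg L ψ * Uᴴ := by
  ext s t
  have : marg L (L U *ᵥ ψ) s t = ip ψ (L (Uᴴ * eu t s * U) *ᵥ ψ) := by
    rw [marg, of_apply, map_mul, map_mul, ← mulVec_mulVec, ← mulVec_mulVec,
      ip_mulVec (L Uᴴ), L_conj, conjTranspose_conjTranspose]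
  rw [this, ip_L_eq, mul_assoc, mul_assoc, trace_mul_comm, mul_assoc, eu, op, vecMulVec_mul,
    trace_vecMulVec]
  simp [Pi.single_apply, vecMul, dotProduct]

lemma marg_other (L L' : Matrix α α ℂ →⋆ₐ[ℂ] Matrix Ω Ω ℂ)
    (hL : ∀ X X', L' X' * L X = L X * L' X') (ψ : Ω → ℂ) {U : Matrix α α ℂ} (h1 : Uᴴ * U = 1) :
    marg L (L' U *ᵥ ψ) = marg L ψ := by
  ext s t
  rw [marg, marg, of_apply, of_apply, mulVec_mulVec, ← hL, ← mulVec_mulVec, ip_mulVec,
    mulVec_mulVec, L_conj, ← map_mul, h1, map_one, one_mulVec]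

end Pool.Agent.MP_b746ed_mp.KF

end

-- part MP_b746ed_mp.Three
section

/-! Three qubits: explicit formulas. -/

set_option autoImplicit false
open scoped ComplexOrder
open Matrix

namespace Pool.Agent.MP_b746ed_mp.KF

section General
variable {ι α : Type} [Fintype ι] [DecidableEq ι] [Fintype α] [DecidableEq α]

lemma mul_liftFun (j : ι) (X : Matrix α α ℂ) (M : Matrix (ι → α) (ι → α) ℂ) (ω ω' : ι → α) :
    (M * liftFun j X) ω ω' = ∑ s, M ω (Function.update ω' j s) * X s (ω' j) := by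
  have : ∀ η : ι → α, (∀ i, i ≠ j → η i = ω' i) ↔ ∀ i, i ≠ j → ω' i = η i := fun η =>
    forall_congr' fun i => forall_congr' fun _ => eq_comm
  simp only [Matrix.mul_apply, liftFun, of_apply, mul_ite, mul_zero, this]
  rw [sum_line]
  simp

lemma tw_lift_apply (j : ι) (X : Matrix (ι → α) (ι → α) ℂ) (a b : ι → α) :
    tw (lift j) X a b =
      if a j = b j then ∑ t, X (Function.update a j t) (Function.update b j t) else 0 := by
  simp only [tw, Matrix.sum_apply, lift_apply, mul_liftFun, liftFun_mul, eu, op_apply,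
    Pi.single_apply]
  split_ifs with h
  · simp [h]
  · simp [h]

lemma marg_lift_apply (j : ι) (ψ : (ι → α) → ℂ) (s t : α) :
    marg (lift j) ψ s t =
      ∑ ω, if ω j = t then star (ψ ω) * ψ (Function.update ω j s) else 0 := by
  simp [marg, ip_eq, lift_apply, liftFun_mulVec, eu, op_apply, Pi.single_apply]

lemma lift_diagonal (j : ι) (r : α → ℂ) : lift j (diagonal r) = diagonal fun ω : ι → α => r (ω j) := by
  ext ω ω'
  simp only [lift_apply, liftFun, of_apply, diagonal_apply]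
  by_cases h : ω = ω'
  · simp [h]
  · rw [if_neg h]
    split_ifs with h1 h2
    · exact absurd (funext fun i => by
        rcases eq_or_ne i j with rfl | hi
        exacts [h2, h1 i hi]) h
    · rfl
    · rfl

end General

lemma sum_cfg {M : Type} [AddCommMonoid M] (F : (Fin 3 → Fin 2) → M) :
    ∑ c, F c = ∑ x, ∑ y, ∑ z, F ![x, y, z] := by
  rw [← Fintype.sum_prod_type', ← Fintype.sum_prod_type']
  refine Fintype.sum_equiv
    ⟨fun c => ((c 0, c 1), c 2), fun p => ![p.1.1, p.1.2, p.2], fun c => ?_, fun p => rfl⟩ _ _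
    fun c => ?_
  · funext i; fin_cases i <;> rfl
  · congr 1; funext i; fin_cases i <;> rfl

lemma cfg_eta (a : Fin 3 → Fin 2) : ∃ x y z, a = ![x, y, z] :=
  ⟨a 0, a 1, a 2, by funext i; fin_cases i <;> rfl⟩

lemma upd0 (x y z t : Fin 2) : Function.update ![x, y, z] 0 t = ![t, y, z] := by
  funext i; fin_cases i <;> rfl
lemma upd1 (x y z t : Fin 2) : Function.update ![x, y, z] 1 t = ![x, t, z] := by
  funext i; fin_cases i <;> rfl
lemma upd2 (x y z t : Fin 2) : Function.update ![x, y, z] 2 t = ![x, y, t] := by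
  funext i; fin_cases i <;> rfl

lemma pw_eq (S : Finset (Fin 3)) (x y z x' y' z' : Fin 2) : S.piecewise ![x, y, z] ![x', y', z'] =
    ![if 0 ∈ S then x else x', if 1 ∈ S then y else y', if 2 ∈ S then z else z'] := by
  funext i; fin_cases i <;> rfl

lemma lift_cfg (j : Fin 3) (A : Matrix (Fin 2) (Fin 2) ℂ) (a b : Fin 3 → Fin 2) :
    lift j A a b = if (0 ≠ j → a 0 = b 0) ∧ (1 ≠ j → a 1 = b 1) ∧ (2 ≠ j → a 2 = b 2) then
      A (a j) (b j) else 0 := by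
  simp only [lift_apply, liftFun, of_apply, Fin.forall_fin_succ, Fin.succ_zero_eq_one,
    Fin.succ_one_eq_two, IsEmpty.forall_iff, and_true]

lemma one_cfg (a b : Fin 3 → Fin 2) : (1 : Matrix (Fin 3 → Fin 2) (Fin 3 → Fin 2) ℂ) a b =
    if a 0 = b 0 ∧ a 1 = b 1 ∧ a 2 = b 2 then 1 else 0 := by
  simp only [one_apply, funext_iff, Fin.forall_fin_succ, Fin.succ_zero_eq_one,
    Fin.succ_one_eq_two, IsEmpty.forall_iff, and_true]

lemma marg0 (ψ : (Fin 3 → Fin 2) → ℂ) (s t : Fin 2) :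
    marg (lift 0) ψ s t = ∑ y, ∑ z, star (ψ ![t, y, z]) * ψ ![s, y, z] := by
  rw [marg_lift_apply, sum_cfg]
  fin_cases t <;> simp [upd0]

lemma marg1 (ψ : (Fin 3 → Fin 2) → ℂ) (s t : Fin 2) :
    marg (lift 1) ψ s t = ∑ x, ∑ z, star (ψ ![x, t, z]) * ψ ![x, s, z] := by
  rw [marg_lift_apply, sum_cfg]
  fin_cases t <;> simp [upd1]

lemma marg2 (ψ : (Fin 3 → Fin 2) → ℂ) (s t : Fin 2) :
    marg (lift 2) ψ s t = ∑ x, ∑ y, star (ψ ![x, y, t]) * ψ ![x, y, s] := by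
  rw [marg_lift_apply, sum_cfg]
  fin_cases t <;> simp [upd2]

lemma univ_three : (Finset.univ : Finset (Finset (Fin 3))) =
    {∅, {0}, {1}, {2}, {0, 1}, {0, 2}, {1, 2}, {0, 1, 2}} := by decide

lemma chan_three (q : Fin 3 → ℝ) (ψ : (Fin 3 → Fin 2) → ℂ) (hψ : ip ψ ψ = 1) :
    chan q (op ψ ψ) = ((q 0 * q 1 * q 2 : ℝ) : ℂ) • op ψ ψ +
      (((1 - q 0) / 2 * q 1 * q 2 : ℝ) : ℂ) • tw (lift 0) (op ψ ψ) +
      ((q 0 * ((1 - q 1) / 2) * q 2 : ℝ) : ℂ) • tw (lift 1) (op ψ ψ) +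
      ((q 0 * q 1 * ((1 - q 2) / 2) : ℝ) : ℂ) • tw (lift 2) (op ψ ψ) +
      (((1 - q 0) / 2 * ((1 - q 1) / 2) * q 2 : ℝ) : ℂ) • lift 2 (marg (lift 2) ψ) +
      (((1 - q 0) / 2 * q 1 * ((1 - q 2) / 2) : ℝ) : ℂ) • lift 1 (marg (lift 1) ψ) +
      ((q 0 * ((1 - q 1) / 2) * ((1 - q 2) / 2) : ℝ) : ℂ) • lift 0 (marg (lift 0) ψ) +
      (((1 - q 0) / 2 * ((1 - q 1) / 2) * ((1 - q 2) / 2) : ℝ) : ℂ) • 1 := by
  ext a b
  obtain ⟨x, y, z, rfl⟩ := cfg_eta a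
  obtain ⟨x', y', z', rfl⟩ := cfg_eta b
  rw [ip_eq, sum_cfg] at hψ
  have e0 : (Finset.univ : Finset (Fin 3)) = {0, 1, 2} := by decide
  rw [chan_apply, univ_three]
  repeat rw [Finset.sum_insert (by decide)]
  rw [Finset.sum_singleton]
  have s1 : (Finset.univ : Finset (Fin 3)) \ {0} = {1, 2} := by decide
  have s2 : (Finset.univ : Finset (Fin 3)) \ {1} = {0, 2} := by decide
  have s3 : (Finset.univ : Finset (Fin 3)) \ {2} = {0, 1} := by decide
  have s4 : (Finset.univ : Finset (Fin 3)) \ {0, 1} = {2} := by decide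
  have s5 : (Finset.univ : Finset (Fin 3)) \ {0, 2} = {1} := by decide
  have s6 : (Finset.univ : Finset (Fin 3)) \ {1, 2} = {0} := by decide
  have s7 : (Finset.univ : Finset (Fin 3)) \ {0, 1, 2} = ∅ := by decide
  rw [s1, s2, s3, s4, s5, s6, s7, Finset.sdiff_empty]
  simp only [Matrix.add_apply, Matrix.smul_apply, tw_lift_apply, marg0, marg1, marg2, lift_cfg,
    one_cfg, sum_cfg, pw_eq, upd0, upd1, upd2, op_apply]
  simp only [Fin.sum_univ_two, Complex.star_def] at hψ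
  by_cases hx : x = x' <;> by_cases hy : y = y' <;> by_cases hz : z = z' <;>
    simp [Fin.prod_univ_three, -Complex.coe_smul, hx, hy, hz, -mul_eq_mul_left_iff] <;>
    first
    | ring1
    | linear_combination ((1 - (q 0 : ℂ)) * (1 - q 1) * (1 - q 2) / 8) * hψ

/-- the spin flipped vector -/
def tl (ψ : (Fin 3 → Fin 2) → ℂ) : (Fin 3 → Fin 2) → ℂ := fun ω =>
  ![1, -1] (ω 0) * ![1, -1] (ω 1) * ![1, -1] (ω 2) *
    star (ψ ![![1, 0] (ω 0), ![1, 0] (ω 1), ![1, 0] (ω 2)])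

lemma inversion (ψ : (Fin 3 → Fin 2) → ℂ) (hψ : ip ψ ψ = 1) :
    tw (lift 0) (op ψ ψ) + tw (lift 1) (op ψ ψ) + tw (lift 2) (op ψ ψ) + 1 =
      op ψ ψ + op (tl ψ) (tl ψ) + lift 0 (marg (lift 0) ψ) + lift 1 (marg (lift 1) ψ) +
        lift 2 (marg (lift 2) ψ) := by
  ext a b
  obtain ⟨x, y, z, rfl⟩ := cfg_eta a
  obtain ⟨x', y', z', rfl⟩ := cfg_eta b
  rw [ip_eq, sum_cfg] at hψ
  simp only [Matrix.add_apply, tw_lift_apply, marg0, marg1, marg2, lift_cfg,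
    one_cfg, upd0, upd1, upd2, op_apply, tl, Fin.sum_univ_two]
  simp only [Fin.sum_univ_two, Complex.star_def] at hψ
  fin_cases x <;> fin_cases y <;> fin_cases z <;> fin_cases x' <;> fin_cases y' <;> fin_cases z' <;>
    simp <;>
    first
    | ring1
    | linear_combination (-1 : ℂ) * hψ

end Pool.Agent.MP_b746ed_mp.KF

end

-- part MP_b746ed_mp.LThree
section

/-! Three qubits: the sum of the three two-site marginals. -/

set_option autoImplicit false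
open scoped ComplexOrder
open Matrix

namespace Pool.Agent.MP_b746ed_mp.KF

section General
variable {Ω : Type} [Fintype Ω] [DecidableEq Ω]

lemma tp_diagonal (P : Matrix Ω Ω ℂ) (d : Ω → ℝ) :
    tp P (diagonal fun ω => (d ω : ℂ)) = ∑ ω, d ω * (P ω ω).re := by
  simp [tp, trace, mul_comm]

lemma IsProj.diag_eq {P : Matrix Ω Ω ℂ} (hP : IsProj P) (ω : Ω) :
    ip (P *ᵥ Pi.single ω 1) (P *ᵥ Pi.single ω 1) = P ω ω := by
  rw [ip_mulVec, hP.1, mulVec_mulVec, hP.2]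
  conv_lhs => rw [← hP.1, ← ip_mulVec]
  simp [ip_eq, Pi.single_apply]

lemma IsProj.diag_nonneg {P : Matrix Ω Ω ℂ} (hP : IsProj P) (ω : Ω) : 0 ≤ (P ω ω).re := by
  rw [← hP.diag_eq]; exact ip_self_re_nonneg _

lemma IsProj.diag_le_one {P : Matrix Ω Ω ℂ} (hP : IsProj P) (ω : Ω) : (P ω ω).re ≤ 1 := by
  have := hP.compl.diag_nonneg ω
  simp only [Matrix.sub_apply, one_apply_eq, Complex.sub_re, Complex.one_re] at this
  linarith

lemma rank_one_diag {P : Matrix Ω Ω ℂ} (hP : IsProj P) (φ : Ω → ℂ) (Λ : ℝ) (Δ : Ω → ℝ)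
    (hΛ : 0 ≤ Λ) (hΔ : ∀ ω, 0 ≤ Δ ω) (h0 : ∀ ω, Λ + Δ ω = 0 → φ ω = 0)
    (h1 : ∑ ω, ‖φ ω‖ ^ 2 / (Λ + Δ ω) ≤ 1) :
    tp P (op φ φ) ≤ Λ + ∑ ω, Δ ω * (P ω ω).re := by
  set v := P *ᵥ φ with hv
  have hPv : P *ᵥ v = v := by rw [hv, mulVec_mulVec, hP.2]
  have e1 : ip v φ = ip v v := by
    conv_lhs => rw [← hPv, ← hP.1, ← ip_mulVec]
  have e2 : tp P (op φ φ) = (ip v v).re := by
    rw [tp_op, ← e1, ← star_ip, Complex.star_def, Complex.conj_re]
  set ν := (ip v v).re with hν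
  have hν0 : 0 ≤ ν := ip_self_re_nonneg v
  have h2 : ν ≤ ∑ ω, ‖v ω‖ * ‖φ ω‖ := by
    rw [hν, ← e1, ip_eq]
    refine (Complex.re_le_norm _).trans ((norm_sum_le _ _).trans_eq ?_)
    simp
  have h3 : (∑ ω, ‖v ω‖ * ‖φ ω‖) ^ 2 ≤
      (∑ ω, (Λ + Δ ω) * ‖v ω‖ ^ 2) * ∑ ω, ‖φ ω‖ ^ 2 / (Λ + Δ ω) := by
    refine Finset.sum_sq_le_sum_mul_sum_of_sq_le_mul _ (fun ω _ => by
      have := hΔ ω; positivity) (fun ω _ => by have := hΔ ω; positivity) fun ω _ => ?_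
    by_cases h : Λ + Δ ω = 0
    · simp [h0 ω h]
    · field_simp
      exact le_rfl
  have h4 : ∀ ω, ‖v ω‖ ^ 2 ≤ (P ω ω).re * ν := by
    intro ω
    have h := normSq_ip_le (P *ᵥ Pi.single ω 1) v
    have e : ip (P *ᵥ Pi.single ω 1) v = v ω := by
      rw [← hP.1, ← ip_mulVec, hPv]
      simp [ip_eq, Pi.single_apply]
    rwa [hP.diag_eq, e, Complex.normSq_eq_norm_sq] at h
  have h5 : ∑ ω, (Λ + Δ ω) * ‖v ω‖ ^ 2 ≤ (Λ + ∑ ω, Δ ω * (P ω ω).re) * ν := by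
    simp only [add_mul, Finset.sum_add_distrib, ← Finset.mul_sum, ← ip_self_re, Finset.sum_mul]
    refine add_le_add le_rfl (Finset.sum_le_sum fun ω _ => ?_)
    rw [mul_assoc]
    exact mul_le_mul_of_nonneg_left (h4 ω) (hΔ ω)
  have h6 : 0 ≤ Λ + ∑ ω, Δ ω * (P ω ω).re :=
    add_nonneg hΛ (Finset.sum_nonneg fun ω _ => mul_nonneg (hΔ ω) (hP.diag_nonneg ω))
  have h7 : ν ^ 2 ≤ (Λ + ∑ ω, Δ ω * (P ω ω).re) * ν :=
    (pow_le_pow_left₀ hν0 h2 2).trans (h3.trans ((mul_le_of_le_one_right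
      (Finset.sum_nonneg fun ω _ => by have := hΔ ω; positivity) h1).trans h5))
  rw [e2]
  rcases hν0.eq_or_lt with h | h
  · linarith
  · nlinarith

omit [DecidableEq Ω] in
lemma polygon_aux (u v : Ω → ℂ) (h : ip u v = 0) (huv : (ip v v).re ≤ (ip u u).re) (j : Ω) :
    ‖u j‖ ^ 2 + ‖v j‖ ^ 2 ≤ (ip u u).re := by
  have h' : ip v u = 0 := by rw [← star_ip, h, star_zero]
  set w := star (u j) • u + star (v j) • v with hw
  have e1 : (ip w w).re = ‖u j‖ ^ 2 * (ip u u).re + ‖v j‖ ^ 2 * (ip v v).re := by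
    simp only [hw, ip_add_left, ip_add_right, ip_smul_left, ip_smul_right, h, h',
      mul_zero, add_zero, zero_add, ← mul_assoc, Complex.star_def, Complex.conj_conj,
      Complex.conj_mul',
      Complex.add_re, ← Complex.ofReal_pow, Complex.re_ofReal_mul]
  have e2 : w j = ((‖u j‖ ^ 2 + ‖v j‖ ^ 2 : ℝ) : ℂ) := by
    simp [hw, Complex.conj_mul']
  have h1 : ‖w j‖ ^ 2 ≤ (ip w w).re := by
    rw [ip_self_re]
    exact Finset.single_le_sum (f := fun i => ‖w i‖ ^ 2) (fun _ _ => by positivity)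
      (Finset.mem_univ j)
  rw [e2, Complex.norm_real, Real.norm_of_nonneg (by positivity), e1] at h1
  have h2 := ip_self_re_nonneg u
  rcases (show 0 ≤ ‖u j‖ ^ 2 + ‖v j‖ ^ 2 by positivity).eq_or_lt with h3 | h3
  · linarith
  · nlinarith [sq_nonneg ‖v j‖]

end General

lemma w1 {p a : ℝ} (hp : 0 ≤ p) (hpa : p ≤ a) (ha : a ≤ 1 / 2) :
    p / (1 + 2 * a) ≤ p / 2 + p / (6 * a) := by
  rcases hp.eq_or_lt with rfl | hp
  · simp
  have ha0 : 0 < a := hp.trans_le hpa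
  rw [div_add_div _ _ (by norm_num) (by positivity), div_le_div_iff₀ (by positivity) (by positivity)]
  have : 0 ≤ p * (12 * a ^ 2 - 2 * a + 2) := mul_nonneg hp.le (by nlinarith)
  nlinarith

lemma w2 {p a b : ℝ} (hp : 0 ≤ p) (hpa : p ≤ a) (hpb : p ≤ b) :
    p / (2 * (a + b)) ≤ p / 2 + p / (6 * a) + p / (6 * b) := by
  rcases hp.eq_or_lt with rfl | hp
  · simp
  have ha0 : 0 < a := hp.trans_le hpa
  have hb0 : 0 < b := hp.trans_le hpb
  have : p / (2 * (a + b)) ≤ p / (6 * a) + p / (6 * b) := by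
    rw [div_add_div _ _ (by positivity) (by positivity),
      div_le_div_iff₀ (by positivity) (by positivity)]
    have : 0 ≤ p * (12 * (a - b) ^ 2 + 12 * a * b) := by positivity
    nlinarith
  linarith [half_pos hp]

lemma w3 {p a b c : ℝ} (hp : 0 ≤ p) (hpa : p ≤ a) (hpb : p ≤ b) (hpc : p ≤ c) :
    p / (a + b + c) ≤ p / 2 + p / (6 * a) + p / (6 * b) + p / (6 * c) := by
  rcases hp.eq_or_lt with rfl | hp
  · simp
  have ha0 : 0 < a := hp.trans_le hpa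
  have hb0 : 0 < b := hp.trans_le hpb
  have hc0 : 0 < c := hp.trans_le hpc
  have : p / (a + b + c) ≤ p / (6 * a) + p / (6 * b) + p / (6 * c) := by
    rw [div_add_div _ _ (by positivity) (by positivity),
      div_add_div _ _ (by positivity) (by positivity),
      div_le_div_iff₀ (by positivity) (by positivity)]
    have : 0 ≤ p * (a * (b - c) ^ 2 + b * (a - c) ^ 2 + c * (a - b) ^ 2 + 3 * a * b * c) := by
      positivity
    nlinarith
  linarith [half_pos hp]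

lemma w0 {s a : ℝ} (h : s = a) : s / (6 * a) ≤ 1 / 6 := by
  rw [h, mul_comm, ← div_div]
  exact div_le_div_of_nonneg_right (div_self_le_one a) (by norm_num)

/-- the statement about the three two-site marginals -/
def LT (ψ : (Fin 3 → Fin 2) → ℂ) : Prop := ∀ P : Matrix (Fin 3 → Fin 2) (Fin 3 → Fin 2) ℂ,
  IsProj P → tp P (tw (lift 0) (op ψ ψ)) + tp P (tw (lift 1) (op ψ ψ)) +
    tp P (tw (lift 2) (op ψ ψ)) ≤ P.trace.re + 2

/-- diagonal with decreasing entries -/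
def Dg (A : Matrix (Fin 2) (Fin 2) ℂ) : Prop := A 0 1 = 0 ∧ (A 1 1).re ≤ (A 0 0).re

lemma lt_diag (ψ : (Fin 3 → Fin 2) → ℂ) (hψ : ip ψ ψ = 1) (h0 : Dg (marg (lift 0) ψ))
    (h1 : Dg (marg (lift 1) ψ)) (h2 : Dg (marg (lift 2) ψ)) : LT ψ := by
  intro P hP
  have hd : ∀ i : Fin 3, Dg (marg (lift i) ψ) → lift i (marg (lift i) ψ) =
      diagonal fun ω : Fin 3 → Fin 2 => (((marg (lift i) ψ (ω i) (ω i)).re : ℝ) : ℂ) := by
    intro i hi
    have hp := marg_psd (lift i) ψ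
    rw [← lift_diagonal i fun s => (((marg (lift i) ψ s s).re : ℝ) : ℂ)]
    congr 1
    ext s t
    have a0 := (Complex.nonneg_iff.1 (hp.diag_nonneg (i := 0))).2
    have a1 := (Complex.nonneg_iff.1 (hp.diag_nonneg (i := 1))).2
    have a2 : marg (lift i) ψ 1 0 = 0 := by rw [← hp.isHermitian.apply, hi.1, star_zero]
    fin_cases s <;> fin_cases t
    · exact Complex.ext rfl (by simp [← a0])
    · simpa using hi.1
    · simpa using a2
    · exact Complex.ext rfl (by simp [← a1])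
  have hinv := congrArg (tp P) (inversion ψ hψ)
  simp only [tp_add, tp_one, hd 0 h0, hd 1 h1, hd 2 h2, tp_diagonal] at hinv
  have hψ1 : tp P (op ψ ψ) ≤ 1 := by
    have := hP.tp_le (posSemidef_vecMulVec_self_star ψ)
    change tp P (op ψ ψ) ≤ (op ψ ψ).trace.re at this
    rwa [trace_op, hψ, Complex.one_re] at this
  have hn := congrArg Complex.re hψ
  rw [ip_self_re, sum_cfg] at hn
  have g0 := polygon_aux (fun r : Fin 2 × Fin 2 => ψ ![0, r.1, r.2]) (fun r => ψ ![1, r.1, r.2])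
  have g1 := polygon_aux (fun r : Fin 2 × Fin 2 => ψ ![r.1, 0, r.2]) (fun r => ψ ![r.1, 1, r.2])
  have g2 := polygon_aux (fun r : Fin 2 × Fin 2 => ψ ![r.1, r.2, 0]) (fun r => ψ ![r.1, r.2, 1])
  have m0 : ∀ s, (marg (lift 0) ψ s s).re = ∑ y, ∑ z, ‖ψ ![s, y, z]‖ ^ 2 := fun s => by
    simp only [marg0, Complex.re_sum, Complex.star_def, Complex.conj_mul', ← Complex.ofReal_pow,
      Complex.ofReal_re]
  have m1 : ∀ s, (marg (lift 1) ψ s s).re = ∑ y, ∑ z, ‖ψ ![y, s, z]‖ ^ 2 := fun s => by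
    simp only [marg1, Complex.re_sum, Complex.star_def, Complex.conj_mul', ← Complex.ofReal_pow,
      Complex.ofReal_re]
  have m2 : ∀ s, (marg (lift 2) ψ s s).re = ∑ y, ∑ z, ‖ψ ![y, z, s]‖ ^ 2 := fun s => by
    simp only [marg2, Complex.re_sum, Complex.star_def, Complex.conj_mul', ← Complex.ofReal_pow,
      Complex.ofReal_re]
  have d0 := h0.2
  have d1 := h1.2
  have d2 := h2.2
  rw [m0, m0] at d0
  rw [m1, m1] at d1
  rw [m2, m2] at d2
  have z0 := congrArg star h0.1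
  have z1 := congrArg star h1.1
  have z2 := congrArg star h2.1
  rw [marg0] at z0
  rw [marg1] at z1
  rw [marg2] at z2
  simp only [star_sum, star_mul', star_star, star_zero] at z0 z1 z2
  simp only [ip_self_re, Fintype.sum_prod_type] at g0 g1 g2
  replace g0 := g0 (by rw [← z0, ip_eq, Fintype.sum_prod_type]; simp only [mul_comm]) d0 (0, 0)
  replace g1 := g1 (by rw [← z1, ip_eq, Fintype.sum_prod_type]; simp only [mul_comm]) d1 (0, 0)
  replace g2 := g2 (by rw [← z2, ip_eq, Fintype.sum_prod_type]; simp only [mul_comm]) d2 (0, 0)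
  have htr : P.trace.re = ∑ x, ∑ y, ∑ z, (P ![x, y, z] ![x, y, z]).re := by
    rw [trace, Complex.re_sum, sum_cfg]; rfl
  simp only [sum_cfg, m0, m1, m2] at hinv
  have ht : ∀ x y z : Fin 2, ‖tl ψ ![x, y, z]‖ = ‖ψ ![![1, 0] x, ![1, 0] y, ![1, 0] z]‖ := by
    intro x y z
    fin_cases x <;> fin_cases y <;> fin_cases z <;> simp [tl]
  have y0 := fun x y z : Fin 2 => hP.diag_nonneg ![x, y, z]
  have y1 := hP.diag_le_one ![0, 0, 0]
  have key := fun Λ Δ => rank_one_diag hP (tl ψ) Λ Δ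
  simp only [sum_cfg, ht, ← norm_eq_zero (a := tl ψ _)] at key
  have p0 : ∀ x y z : Fin 2, 0 ≤ ‖ψ ![x, y, z]‖ ^ 2 := fun x y z => by positivity
  have q0 : ∀ x y z : Fin 2, ‖ψ ![x, y, z]‖ ^ 2 = 0 → ‖ψ ![x, y, z]‖ = 0 := fun x y z h => by
    simpa using h
  simp only [Fin.sum_univ_two, cons_val_zero, cons_val_one, cons_val, Complex.one_re]
    at hinv hn g0 g1 g2 d0 d1 d2 htr key
  have a000 := p0 0 0 0
  have a001 := p0 0 0 1
  have a010 := p0 0 1 0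
  have a011 := p0 0 1 1
  have a100 := p0 1 0 0
  have a101 := p0 1 0 1
  have a110 := p0 1 1 0
  have a111 := p0 1 1 1
  obtain ⟨l0, hl0⟩ : ∃ l, ‖ψ ![1, 0, 0]‖ ^ 2 + ‖ψ ![1, 0, 1]‖ ^ 2 +
    (‖ψ ![1, 1, 0]‖ ^ 2 + ‖ψ ![1, 1, 1]‖ ^ 2) = l := ⟨_, rfl⟩
  obtain ⟨l1, hl1⟩ : ∃ l, ‖ψ ![0, 1, 0]‖ ^ 2 + ‖ψ ![0, 1, 1]‖ ^ 2 +
    (‖ψ ![1, 1, 0]‖ ^ 2 + ‖ψ ![1, 1, 1]‖ ^ 2) = l := ⟨_, rfl⟩
  obtain ⟨l2, hl2⟩ : ∃ l, ‖ψ ![0, 0, 1]‖ ^ 2 + ‖ψ ![0, 1, 1]‖ ^ 2 +
    (‖ψ ![1, 0, 1]‖ ^ 2 + ‖ψ ![1, 1, 1]‖ ^ 2) = l := ⟨_, rfl⟩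
  have k0 : ‖ψ ![0, 0, 0]‖ ^ 2 + ‖ψ ![0, 0, 1]‖ ^ 2 +
    (‖ψ ![0, 1, 0]‖ ^ 2 + ‖ψ ![0, 1, 1]‖ ^ 2) = 1 - l0 := by linarith
  have k1 : ‖ψ ![0, 0, 0]‖ ^ 2 + ‖ψ ![0, 0, 1]‖ ^ 2 +
    (‖ψ ![1, 0, 0]‖ ^ 2 + ‖ψ ![1, 0, 1]‖ ^ 2) = 1 - l1 := by linarith
  have k2 : ‖ψ ![0, 0, 0]‖ ^ 2 + ‖ψ ![0, 1, 0]‖ ^ 2 +
    (‖ψ ![1, 0, 0]‖ ^ 2 + ‖ψ ![1, 1, 0]‖ ^ 2) = 1 - l2 := by linarith
  rw [hl0, hl1, hl2, k0, k1, k2] at hinv
  have n0 : l0 ≤ l1 + l2 := by linarith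
  have n1 : l1 ≤ l0 + l2 := by linarith
  have n2 : l2 ≤ l0 + l1 := by linarith
  have b0 : l0 ≤ 1 / 2 := by linarith
  have b1 : l1 ≤ 1 / 2 := by linarith
  have b2 : l2 ≤ 1 / 2 := by linarith
  have c0 : 0 ≤ l0 := by linarith
  have c1 : 0 ≤ l1 := by linarith
  have c2 : 0 ≤ l2 := by linarith
  have t001 := mul_nonneg (y0 0 0 1) (sub_nonneg.2 n2)
  have t010 := mul_nonneg (y0 0 1 0) (sub_nonneg.2 n1)
  have t100 := mul_nonneg (y0 1 0 0) (sub_nonneg.2 n0)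
  have t011 := mul_nonneg (y0 0 1 1) (show 0 ≤ 1 + l0 - l1 - l2 by linarith)
  have t101 := mul_nonneg (y0 1 0 1) (show 0 ≤ 1 + l1 - l0 - l2 by linarith)
  have t110 := mul_nonneg (y0 1 1 0) (show 0 ≤ 1 + l2 - l0 - l1 by linarith)
  have t111 := mul_nonneg (y0 1 1 1) (show 0 ≤ 2 - l0 - l1 - l2 by linarith)
  by_cases hΛ : 1 ≤ l0 + l1 + l2
  · have k := key 1 (fun _ => 0) zero_le_one (fun _ => le_rfl) (by simp) (by
      simp only [add_zero, div_one]; linarith)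
    have t000 := mul_nonneg (y0 0 0 0) (sub_nonneg.2 hΛ)
    simp only [zero_mul, add_zero] at k
    linarith
  · have k := key (l0 + l1 + l2) (fun ω => ![![![0, l0 + l1 - l2], ![l0 + l2 - l1, 1 + l0 - l1 - l2]],
      ![![l1 + l2 - l0, 1 + l1 - l0 - l2], ![1 + l2 - l0 - l1, 2 - l0 - l1 - l2]]]
        (ω 0) (ω 1) (ω 2)) (by linarith) (fun ω => ?_) (fun ω => ?_) ?_
    · simp only [cons_val_zero, cons_val_one, cons_val] at k
      have t000 := mul_le_mul_of_nonneg_right y1 (show 0 ≤ 1 - (l0 + l1 + l2) by linarith)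
      linarith
    · obtain ⟨x, y, z, rfl⟩ := cfg_eta ω
      fin_cases x <;> fin_cases y <;> fin_cases z <;> simp <;> linarith
    · obtain ⟨x, y, z, rfl⟩ := cfg_eta ω
      rw [ht]
      fin_cases x <;> fin_cases y <;> fin_cases z <;> intro h <;> apply q0 <;> simp at h ⊢ <;>
        apply norm_eq_zero.1 <;> apply q0 <;> linarith
    · simp only [cons_val_zero, cons_val_one, cons_val]
      have e1 := w3 a111 (show _ ≤ l0 by linarith) (show _ ≤ l1 by linarith)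
        (show _ ≤ l2 by linarith)
      have e2 := w2 a110 (show _ ≤ l0 by linarith) (show _ ≤ l1 by linarith)
      have e3 := w2 a101 (show _ ≤ l0 by linarith) (show _ ≤ l2 by linarith)
      have e4 := w2 a011 (show _ ≤ l1 by linarith) (show _ ≤ l2 by linarith)
      have e5 := w1 a100 (show _ ≤ l0 by linarith) b0
      have e6 := w1 a010 (show _ ≤ l1 by linarith) b1
      have e7 := w1 a001 (show _ ≤ l2 by linarith) b2
      have f0 := w0 hl0
      have f1 := w0 hl1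
      have f2 := w0 hl2
      simp only [add_div] at f0 f1 f2
      rw [add_zero, show l0 + l1 + l2 + (l0 + l1 - l2) = 2 * (l0 + l1) by ring,
        show l0 + l1 + l2 + (l0 + l2 - l1) = 2 * (l0 + l2) by ring,
        show l0 + l1 + l2 + (1 + l0 - l1 - l2) = 1 + 2 * l0 by ring,
        show l0 + l1 + l2 + (l1 + l2 - l0) = 2 * (l1 + l2) by ring,
        show l0 + l1 + l2 + (1 + l1 - l0 - l2) = 1 + 2 * l1 by ring,
        show l0 + l1 + l2 + (1 + l2 - l0 - l1) = 1 + 2 * l2 by ring,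
        show l0 + l1 + l2 + (2 - l0 - l1 - l2) = 2 by ring]
      linarith

lemma exists_dg {A : Matrix (Fin 2) (Fin 2) ℂ} (hA : A.IsHermitian) :
    ∃ U : Matrix (Fin 2) (Fin 2) ℂ, Uᴴ * U = 1 ∧ U * Uᴴ = 1 ∧ Dg (U * A * Uᴴ) := by
  obtain ⟨b, l, hb, hb1, -, hl⟩ := spectral_op hA
  have key : ∀ e : Fin 2 ≃ Fin 2, l (e 1) ≤ l (e 0) →
      ∃ U : Matrix (Fin 2) (Fin 2) ℂ, Uᴴ * U = 1 ∧ U * Uᴴ = 1 ∧ Dg (U * A * Uᴴ) := by
    intro e he
    have h1 : ∀ (M : Matrix (Fin 2) (Fin 2) ℂ) k k', ((Matrix.of fun k s => star (b (e k) s)) * M *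
        (Matrix.of fun k s => star (b (e k) s))ᴴ) k k' = ip (b (e k)) (M *ᵥ b (e k')) := by
      intro M k k'
      simp only [Matrix.mul_apply, of_apply, conjTranspose_apply, star_star, ip_eq, mulVec,
        dotProduct, Fin.sum_univ_two]
      ring
    have h2 : (Matrix.of fun k s => star (b (e k) s)) *
        (Matrix.of fun k s => star (b (e k) s))ᴴ = 1 := by
      ext k k'
      have := h1 1 k k'
      rw [mul_one, one_mulVec, hb] at this
      rw [this]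
      simp [one_apply]
    refine ⟨Matrix.of fun k s => star (b (e k) s), mul_eq_one_comm.1 h2, h2, ?_, ?_⟩
    · rw [h1]
      simp [hl, ip_smul_right, hb, -Complex.coe_smul]
    · rw [h1, h1]
      simpa [hl, ip_smul_right, hb, -Complex.coe_smul] using he
  rcases le_total (l 1) (l 0) with h | h
  · exact key (Equiv.refl _) h
  · exact key (Equiv.swap 0 1) (by simpa using h)

lemma lt_of_conj (j : Fin 3) {U : Matrix (Fin 2) (Fin 2) ℂ} (h1 : Uᴴ * U = 1) (h2 : U * Uᴴ = 1)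
    (ψ : (Fin 3 → Fin 2) → ℂ) (h : LT (lift j U *ᵥ ψ)) : LT ψ := by
  intro P hP
  set V := lift (α := Fin 2) j U with hV
  have hV1 : Vᴴ * V = 1 := by rw [hV, L_conj, ← map_mul, h1, map_one]
  have hP' : IsProj (V * P * Vᴴ) := ⟨by simp [conjTranspose_mul, hP.1, mul_assoc], by
    rw [mul_assoc, mul_assoc, ← mul_assoc Vᴴ, ← mul_assoc Vᴴ, hV1, one_mul, ← mul_assoc P, hP.2,
      mul_assoc]⟩
  have e1 : op (V *ᵥ ψ) (V *ᵥ ψ) = V * op ψ ψ * Vᴴ := by
    rw [op, op, mul_vecMulVec, vecMulVec_mul, star_mulVec]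
  have e2 : ∀ i, tw (lift i) (V * op ψ ψ * Vᴴ) = V * tw (lift i) (op ψ ψ) * Vᴴ := by
    intro i
    rcases eq_or_ne i j with rfl | hi
    · exact tw_conj_self _ _ h1 h2
    · exact tw_conj_other _ _ (lift_comm i j hi) _ _
  have e3 : ∀ Y, tp (V * P * Vᴴ) (V * Y * Vᴴ) = tp P Y := by
    intro Y
    rw [tp, tp, mul_assoc, mul_assoc, trace_mul_comm, ← mul_assoc Vᴴ, ← mul_assoc Vᴴ, hV1, one_mul,
      mul_assoc, mul_assoc, hV1, mul_one]
  have := h _ hP'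
  rw [e1, e2, e2, e2, e3, e3, e3, trace_mul_cycle, hV1, one_mul] at this
  exact this

theorem lt_all (ψ : (Fin 3 → Fin 2) → ℂ) (hψ : ip ψ ψ = 1) : LT ψ := by
  have hn : ∀ (j : Fin 3) (U : Matrix (Fin 2) (Fin 2) ℂ) (φ : (Fin 3 → Fin 2) → ℂ), Uᴴ * U = 1 →
      ip φ φ = 1 → ip (lift j U *ᵥ φ) (lift j U *ᵥ φ) = 1 := by
    intro j U φ h1 hφ
    rw [ip_mulVec, mulVec_mulVec, L_conj, ← map_mul, h1, map_one, one_mulVec, hφ]
  obtain ⟨U0, a0, b0, c0⟩ := exists_dg (marg_psd (lift 0) ψ).isHermitian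
  obtain ⟨U1, a1, b1, c1⟩ := exists_dg (marg_psd (lift 1) ψ).isHermitian
  obtain ⟨U2, a2, b2, c2⟩ := exists_dg (marg_psd (lift 2) ψ).isHermitian
  refine lt_of_conj 0 a0 b0 _ (lt_of_conj 1 a1 b1 _ (lt_of_conj 2 a2 b2 _
    (lt_diag _ (hn _ _ _ a2 (hn _ _ _ a1 (hn _ _ _ a0 hψ))) ?_ ?_ ?_)))
  · rwa [marg_other _ _ (lift_comm 0 2 (by decide)) _ a2,
      marg_other _ _ (lift_comm 0 1 (by decide)) _ a1, marg_self]
  · rwa [marg_other _ _ (lift_comm 1 2 (by decide)) _ a2, marg_self,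
      marg_other _ _ (lift_comm 1 0 (by decide)) _ a0]
  · rwa [marg_self, marg_other _ _ (lift_comm 2 1 (by decide)) _ a1,
      marg_other _ _ (lift_comm 2 0 (by decide)) _ a0]

end Pool.Agent.MP_b746ed_mp.KF

end

-- part MP_b746ed_mp.Major
section

/-! Majorization and unitarily invariant norms. -/

set_option autoImplicit false
open Matrix

namespace Pool.Agent.MP_b746ed_mp.KF

lemma abel_ineq (y δ : ℕ → ℝ) (n : ℕ) (hy : ∀ i, i + 1 < n → y (i + 1) ≤ y i)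
    (hD : ∀ k ≤ n, 0 ≤ ∑ i ∈ Finset.range k, δ i) :
    ∀ k, k < n → y k * ∑ i ∈ Finset.range (k + 1), δ i ≤ ∑ i ∈ Finset.range (k + 1), y i * δ i := by
  intro k
  induction k with
  | zero => intro _; simp
  | succ k ih =>
    intro hk
    have h1 := ih (by omega)
    have h2 := mul_le_mul_of_nonneg_right (hy k hk) (hD (k + 1) hk.le)
    rw [Finset.sum_range_succ _ (k + 1), Finset.sum_range_succ _ (k + 1)]
    linarith

lemma abel_fin {n : ℕ} (y δ : Fin n → ℝ) (hy : Antitone y)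
    (hD : ∀ k ≤ n, 0 ≤ ∑ i : Fin n with i.val < k, δ i) (h0 : ∑ i, δ i = 0) :
    0 ≤ ∑ i, y i * δ i := by
  rcases n with _ | n
  · simp
  set y' : ℕ → ℝ := fun i => if h : i < n + 1 then y ⟨i, h⟩ else 0 with hy'
  set δ' : ℕ → ℝ := fun i => if h : i < n + 1 then δ ⟨i, h⟩ else 0 with hδ'
  have e : ∀ k ≤ n + 1, ∑ i ∈ Finset.range k, δ' i = ∑ i : Fin (n + 1) with i.val < k, δ i := by
    intro k hk
    rw [Finset.sum_filter, Finset.sum_fin_eq_sum_range,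
      ← Finset.sum_subset (Finset.range_mono hk)]
    · refine Finset.sum_congr rfl fun i hi => ?_
      simp [hδ', Finset.mem_range.1 hi]
    · intro i _ hi
      simp only [Finset.mem_range] at hi
      simp [hi]
  have h := abel_ineq y' δ' (n + 1) (fun i hi => by
    simp only [hy', dif_pos hi, dif_pos (Nat.lt_of_succ_lt hi)]
    exact hy (by simp [Fin.le_def])) (fun k hk => by rw [e k hk]; exact hD k hk) n (by omega)
  have e1 : ∑ i ∈ Finset.range (n + 1), δ' i = 0 := by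
    rw [← h0, Finset.sum_fin_eq_sum_range]
  have e2 : ∑ i ∈ Finset.range (n + 1), y' i * δ' i = ∑ i, y i * δ i := by
    rw [Finset.sum_fin_eq_sum_range]
    refine Finset.sum_congr rfl fun i hi => ?_
    simp only [hy', hδ', dif_pos (Finset.mem_range.1 hi)]
  rwa [e1, e2, mul_zero] at h

lemma frac_le_top {n : ℕ} (σ π : Fin n → ℝ) (hσ : Antitone σ) (hπ : ∀ i, 0 ≤ π i ∧ π i ≤ 1)
    (k : ℕ) (hk : ∑ i, π i = ((Finset.univ.filter fun i : Fin n => (i : ℕ) < k).card : ℝ)) :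
    ∑ i, π i * σ i ≤ ∑ i : Fin n with i.val < k, σ i := by
  have h := abel_fin σ (fun i => (if (i : ℕ) < k then 1 else 0) - π i) hσ (fun j _ => ?_) ?_
  · simp only [mul_sub, Finset.sum_sub_distrib, mul_ite, mul_one, mul_zero] at h
    rw [Finset.sum_filter]
    simp only [mul_comm (π _)]
    linarith
  · rcases le_total j k with hj | hj
    · refine Finset.sum_nonneg fun i hi => ?_
      rw [if_pos ((Finset.mem_filter.1 hi).2.trans_le hj)]
      linarith [(hπ i).2]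
    · have h1 : ∑ i : Fin n with i.val < j, π i ≤ ∑ i, π i :=
        Finset.sum_le_sum_of_subset_of_nonneg (Finset.filter_subset _ _) fun i _ _ => (hπ i).1
      rw [Finset.sum_sub_distrib, Finset.sum_boole, Finset.filter_filter]
      have : (Finset.univ.filter fun i : Fin n => (i : ℕ) < j ∧ (i : ℕ) < k) =
          Finset.univ.filter fun i : Fin n => (i : ℕ) < k := by
        ext i
        simp only [Finset.mem_filter, Finset.mem_univ, true_and]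
        omega
      rw [this]
      linarith
  · rw [Finset.sum_sub_distrib, Finset.sum_boole, hk, sub_self]

lemma exists_sort {β : Type} [Fintype β] (f : β → ℝ) :
    ∃ e : Fin (Fintype.card β) ≃ β, Antitone (f ∘ e) := by
  refine ⟨(Tuple.sort fun i => -f ((Fintype.equivFin β).symm i)).trans (Fintype.equivFin β).symm,
    fun i j hij => ?_⟩
  have := Tuple.monotone_sort (fun i => -f ((Fintype.equivFin β).symm i)) hij
  simpa using this

/-- Rado's theorem -/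
lemma mem_hull {β : Type} [Fintype β] [DecidableEq β] (l σ : β → ℝ) (h0 : ∑ i, l i = ∑ i, σ i)
    (H : ∀ A : Finset β, ∃ π : β → ℝ, (∀ i, 0 ≤ π i ∧ π i ≤ 1) ∧ ∑ i, π i = A.card ∧
      ∑ i ∈ A, l i ≤ ∑ i, π i * σ i) :
    l ∈ convexHull ℝ (Set.range fun e : Equiv.Perm β => σ ∘ e) := by
  by_contra hl
  obtain ⟨f, u, h1, h2⟩ := geometric_hahn_banach_closed_point (convex_convexHull ℝ _)
    ((Set.finite_range _).isClosed_convexHull ℝ) hl
  set y : β → ℝ := fun i => f (Pi.single i 1) with hy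
  have hf : ∀ x : β → ℝ, f x = ∑ i, y i * x i := by
    intro x
    conv_lhs => rw [← Finset.univ_sum_single x, map_sum]
    refine Finset.sum_congr rfl fun i _ => ?_
    rw [hy, mul_comm, ← smul_eq_mul, ← map_smul, ← Pi.single_smul, smul_eq_mul, mul_one]
  obtain ⟨e, he⟩ := exists_sort y
  obtain ⟨e', he'⟩ := exists_sort σ
  have h3 := h1 (σ ∘ (e.symm.trans e')) (subset_convexHull ℝ _ ⟨e.symm.trans e', rfl⟩)
  have h4 := abel_fin (y ∘ e) (fun i => σ (e' i) - l (e i)) he (fun k _ => ?_) ?_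
  · rw [hf] at h2 h3
    rw [← Equiv.sum_comp e] at h2 h3
    simp only [Function.comp_apply, mul_sub, Finset.sum_sub_distrib, Equiv.trans_apply,
      Equiv.symm_apply_apply] at h3 h4
    linarith
  · obtain ⟨π, hπ, hs, hle⟩ := H ((Finset.univ.filter fun i : Fin _ => (i : ℕ) < k).map
      e.toEmbedding)
    rw [Finset.card_map] at hs
    rw [Finset.sum_map, ← Equiv.sum_comp e'] at hle
    have := frac_le_top (σ ∘ e') (π ∘ e') he' (fun i => hπ _) k (by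
      rw [← hs, ← Equiv.sum_comp e' π]; rfl)
    rw [Finset.sum_sub_distrib]
    simp only [Function.comp_apply, Equiv.coe_toEmbedding] at this hle
    linarith
  · rw [Finset.sum_sub_distrib, Equiv.sum_comp e' σ, Equiv.sum_comp e l, h0, sub_self]

lemma norm_diag_le {β : Type} [Fintype β] [DecidableEq β] (N : Matrix β β ℂ → ℝ)
    (hadd : ∀ X Y, N (X + Y) ≤ N X + N Y) (hsmul : ∀ (c : ℂ) X, N (c • X) = ‖c‖ * N X)
    (hU : ∀ X U V, U ∈ unitaryGroup β ℂ → V ∈ unitaryGroup β ℂ → N (U * X * V) = N X)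
    (l σ : β → ℝ) (h0 : ∑ i, l i = ∑ i, σ i)
    (H : ∀ A : Finset β, ∃ π : β → ℝ, (∀ i, 0 ≤ π i ∧ π i ≤ 1) ∧ ∑ i, π i = A.card ∧
      ∑ i ∈ A, l i ≤ ∑ i, π i * σ i) :
    N (diagonal fun i => (l i : ℂ)) ≤ N (diagonal fun i => (σ i : ℂ)) := by
  have h := mem_hull l σ h0 H
  refine convexHull_min (s := Set.range fun e : Equiv.Perm β => σ ∘ e)
    (t := {x : β → ℝ | N (diagonal fun i => (x i : ℂ)) ≤ N (diagonal fun i => (σ i : ℂ))})
    ?_ ?_ h
  · rintro _ ⟨e, rfl⟩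
    have hu : ∀ e : Equiv.Perm β, e.permMatrix ℂ ∈ unitaryGroup β ℂ := fun e => by
      rw [mem_unitaryGroup_iff, star_eq_conjTranspose, conjTranspose_permMatrix,
        ← permMatrix_mul, inv_mul_cancel, permMatrix_one]
    simp only [Set.mem_ofPred_eq]
    refine le_of_eq ?_
    rw [← hU (diagonal fun i => (σ i : ℂ)) _ _ (hu e) (hu e⁻¹), Equiv.Perm.permMatrix,
      Equiv.Perm.permMatrix, PEquiv.toMatrix_toPEquiv_mul, PEquiv.mul_toMatrix_toPEquiv,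
      submatrix_submatrix]
    congr 1
    exact (submatrix_diagonal_equiv (fun i => (σ i : ℂ)) e).symm
  · intro x hx z hz a b ha hb hab
    simp only [Set.mem_ofPred_eq] at hx hz ⊢
    have e : (diagonal fun i => (((a • x + b • z) i : ℝ) : ℂ)) =
        (a : ℂ) • (diagonal fun i => (x i : ℂ)) + (b : ℂ) • diagonal fun i => (z i : ℂ) := by
      ext i j
      by_cases hij : i = j
      · subst hij; simp
      · simp [hij]
    rw [e]
    refine (hadd _ _).trans ?_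
    rw [hsmul, hsmul, Complex.norm_real, Complex.norm_real, Real.norm_of_nonneg ha,
      Real.norm_of_nonneg hb]
    have h1 := mul_le_mul_of_nonneg_left hx ha
    have h2 := mul_le_mul_of_nonneg_left hz hb
    have h3 : a * N (diagonal fun i => (σ i : ℂ)) + b * N (diagonal fun i => (σ i : ℂ)) =
        N (diagonal fun i => (σ i : ℂ)) := by rw [← add_mul, hab, one_mul]
    linarith

lemma interp {θ : ℝ} (t0 : 0 ≤ θ) (t1 : θ ≤ 1) (l u : ℝ) (h : l ≤ u) :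
    l ≤ l + θ * (u - l) ∧ l + θ * (u - l) ≤ u := ⟨by nlinarith, by nlinarith⟩

set_option maxHeartbeats 2000000 in
/-- the linear program for three sites -/
lemma exists_frac (K x1 x2 x3 y1 y2 y3 : ℝ) (hK : K ≤ 7)
    (hx1 : 0 ≤ x1) (hx2 : 0 ≤ x2) (hx3 : 0 ≤ x3) (hx1' : x1 ≤ 1) (hx2' : x2 ≤ 1) (hx3' : x3 ≤ 1)
    (hx : x1 + x2 + x3 ≤ K) (h1 : x1 + y1 ≤ K) (h2 : x2 + y2 ≤ K) (h3 : x3 + y3 ≤ K)
    (hy1 : y1 ≤ 3) (hy2 : y2 ≤ 3) (hy3 : y3 ≤ 3)
    (h12 : y1 + y2 ≤ K + 1) (h13 : y1 + y3 ≤ K + 1) (h23 : y2 + y3 ≤ K + 1)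
    (hs : y1 + y2 + y3 ≤ K + 3) (hs' : y1 + y2 + y3 ≤ 2 * K) :
    ∃ p1 p2 p3 r1 r2 r3 t : ℝ, (0 ≤ p1 ∧ p1 ≤ 1) ∧ (0 ≤ p2 ∧ p2 ≤ 1) ∧ (0 ≤ p3 ∧ p3 ≤ 1) ∧
      (0 ≤ r1 ∧ r1 ≤ 1) ∧ (0 ≤ r2 ∧ r2 ≤ 1) ∧ (0 ≤ r3 ∧ r3 ≤ 1) ∧ (0 ≤ t ∧ t ≤ 1) ∧
      p1 + p2 + p3 + r1 + r2 + r3 + t = K ∧ x1 ≤ p1 ∧ x2 ≤ p2 ∧ x3 ≤ p3 ∧
      y1 ≤ p2 + p3 + r1 ∧ y2 ≤ p1 + p3 + r2 ∧ y3 ≤ p1 + p2 + r3 := by
  have step : ∀ p1 p2 p3 : ℝ, x1 ≤ p1 → x2 ≤ p2 → x3 ≤ p3 → p1 ≤ 1 → p2 ≤ 1 → p3 ≤ 1 →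
      p1 + p2 + p3 ≤ K → y1 + p1 ≤ K → y2 + p2 ≤ K → y3 + p3 ≤ K → y2 + y3 - K ≤ p1 →
      y1 + y3 - K ≤ p2 → y1 + y2 - K ≤ p3 → y1 + y2 + y3 - K ≤ p1 + p2 + p3 →
      y1 - 1 ≤ p2 + p3 → y2 - 1 ≤ p1 + p3 → y3 - 1 ≤ p1 + p2 →
      ∃ p1 p2 p3 r1 r2 r3 t : ℝ, (0 ≤ p1 ∧ p1 ≤ 1) ∧ (0 ≤ p2 ∧ p2 ≤ 1) ∧ (0 ≤ p3 ∧ p3 ≤ 1) ∧
      (0 ≤ r1 ∧ r1 ≤ 1) ∧ (0 ≤ r2 ∧ r2 ≤ 1) ∧ (0 ≤ r3 ∧ r3 ≤ 1) ∧ (0 ≤ t ∧ t ≤ 1) ∧
      p1 + p2 + p3 + r1 + r2 + r3 + t = K ∧ x1 ≤ p1 ∧ x2 ≤ p2 ∧ x3 ≤ p3 ∧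
      y1 ≤ p2 + p3 + r1 ∧ y2 ≤ p1 + p3 + r2 ∧ y3 ≤ p1 + p2 + r3 := by
    intro p1 p2 p3 a1 a2 a3 b1 b2 b3 c0 c1 c2 c3 d1 d2 d3 d0 e1 e2 e3
    obtain ⟨r1, f1, g1, k1⟩ : ∃ r, 0 ≤ r ∧ y1 - p2 - p3 ≤ r ∧ (r = 0 ∨ r = y1 - p2 - p3) :=
      ⟨max 0 (y1 - p2 - p3), le_max_left _ _, le_max_right _ _, max_choice _ _⟩
    obtain ⟨r2, f2, g2, k2⟩ : ∃ r, 0 ≤ r ∧ y2 - p1 - p3 ≤ r ∧ (r = 0 ∨ r = y2 - p1 - p3) :=
      ⟨max 0 (y2 - p1 - p3), le_max_left _ _, le_max_right _ _, max_choice _ _⟩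
    obtain ⟨r3, f3, g3, k3⟩ : ∃ r, 0 ≤ r ∧ y3 - p1 - p2 ≤ r ∧ (r = 0 ∨ r = y3 - p1 - p2) :=
      ⟨max 0 (y3 - p1 - p2), le_max_left _ _, le_max_right _ _, max_choice _ _⟩
    have hr1 : r1 ≤ 1 := by rcases k1 with k | k <;> linarith
    have hr2 : r2 ≤ 1 := by rcases k2 with k | k <;> linarith
    have hr3 : r3 ≤ 1 := by rcases k3 with k | k <;> linarith
    have hS : p1 + p2 + p3 + r1 + r2 + r3 ≤ K := by
      rcases k1 with k1 | k1 <;> rcases k2 with k2 | k2 <;> rcases k3 with k3 | k3 <;> linarith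
    obtain ⟨θ, t0, t1, ht⟩ : ∃ θ : ℝ, 0 ≤ θ ∧ θ ≤ 1 ∧ θ * (7 - (p1 + p2 + p3 + r1 + r2 + r3)) =
        K - (p1 + p2 + p3 + r1 + r2 + r3) :=
      ⟨(K - (p1 + p2 + p3 + r1 + r2 + r3)) / (7 - (p1 + p2 + p3 + r1 + r2 + r3)),
        div_nonneg (by linarith) (by linarith), (div_le_one (by linarith)).2 (by linarith),
        div_mul_cancel₀ _ (by linarith)⟩
    have m1 := interp t0 t1 p1 1 b1
    have m2 := interp t0 t1 p2 1 b2
    have m3 := interp t0 t1 p3 1 b3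
    have m4 := interp t0 t1 r1 1 hr1
    have m5 := interp t0 t1 r2 1 hr2
    have m6 := interp t0 t1 r3 1 hr3
    clear k1 k2 k3
    refine ⟨p1 + θ * (1 - p1), p2 + θ * (1 - p2), p3 + θ * (1 - p3), r1 + θ * (1 - r1),
      r2 + θ * (1 - r2), r3 + θ * (1 - r3), θ, ⟨?_, m1.2⟩, ⟨?_, m2.2⟩, ⟨?_, m3.2⟩, ⟨?_, m4.2⟩,
      ⟨?_, m5.2⟩, ⟨?_, m6.2⟩, ⟨t0, t1⟩, ?_, ?_, ?_, ?_, ?_, ?_, ?_⟩ <;> linarith
  obtain ⟨u1, a1, b1, k1⟩ : ∃ u, u ≤ 1 ∧ u ≤ K - y1 ∧ (u = 1 ∨ u = K - y1) :=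
    ⟨min 1 (K - y1), min_le_left _ _, min_le_right _ _, min_choice _ _⟩
  obtain ⟨u2, a2, b2, k2⟩ : ∃ u, u ≤ 1 ∧ u ≤ K - y2 ∧ (u = 1 ∨ u = K - y2) :=
    ⟨min 1 (K - y2), min_le_left _ _, min_le_right _ _, min_choice _ _⟩
  obtain ⟨u3, a3, b3, k3⟩ : ∃ u, u ≤ 1 ∧ u ≤ K - y3 ∧ (u = 1 ∨ u = K - y3) :=
    ⟨min 1 (K - y3), min_le_left _ _, min_le_right _ _, min_choice _ _⟩
  by_cases hu : u1 + u2 + u3 ≤ K
  · apply step u1 u2 u3 <;>
      rcases k1 with k1 | k1 <;> rcases k2 with k2 | k2 <;> rcases k3 with k3 | k3 <;> linarith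
  push Not at hu
  obtain ⟨l1, c1, d1, j1⟩ : ∃ l, x1 ≤ l ∧ y2 + y3 - K ≤ l ∧ (l = x1 ∨ l = y2 + y3 - K) :=
    ⟨max x1 (y2 + y3 - K), le_max_left _ _, le_max_right _ _, max_choice _ _⟩
  obtain ⟨l2, c2, d2, j2⟩ : ∃ l, x2 ≤ l ∧ y1 + y3 - K ≤ l ∧ (l = x2 ∨ l = y1 + y3 - K) :=
    ⟨max x2 (y1 + y3 - K), le_max_left _ _, le_max_right _ _, max_choice _ _⟩
  obtain ⟨l3, c3, d3, j3⟩ : ∃ l, x3 ≤ l ∧ y1 + y2 - K ≤ l ∧ (l = x3 ∨ l = y1 + y2 - K) :=
    ⟨max x3 (y1 + y2 - K), le_max_left _ _, le_max_right _ _, max_choice _ _⟩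
  have e1 : l1 ≤ u1 := by rcases j1 with j | j <;> rcases k1 with k | k <;> linarith
  have e2 : l2 ≤ u2 := by rcases j2 with j | j <;> rcases k2 with k | k <;> linarith
  have e3 : l3 ≤ u3 := by rcases j3 with j | j <;> rcases k3 with k | k <;> linarith
  have e0 : l1 + l2 + l3 ≤ K := by
    rcases j1 with j1 | j1 <;> rcases j2 with j2 | j2 <;> rcases j3 with j3 | j3 <;> linarith
  obtain ⟨θ, t0, t1, ht⟩ : ∃ θ : ℝ, 0 ≤ θ ∧ θ ≤ 1 ∧ θ * (u1 + u2 + u3 - (l1 + l2 + l3)) =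
      K - (l1 + l2 + l3) :=
    ⟨(K - (l1 + l2 + l3)) / (u1 + u2 + u3 - (l1 + l2 + l3)),
      div_nonneg (by linarith) (by linarith), (div_le_one (by linarith)).2 (by linarith),
      div_mul_cancel₀ _ (by linarith)⟩
  have m1 := interp t0 t1 l1 u1 e1
  have m2 := interp t0 t1 l2 u2 e2
  have m3 := interp t0 t1 l3 u3 e3
  apply step (l1 + θ * (u1 - l1)) (l2 + θ * (u2 - l2)) (l3 + θ * (u3 - l3)) <;> linarith

end Pool.Agent.MP_b746ed_mp.KF

end

-- part MP_b746ed_mp.ThreeAll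
section

/-! Three qubits: all unitarily invariant norms. -/

set_option autoImplicit false
open scoped ComplexOrder
open Matrix

namespace Pool.Agent.MP_b746ed_mp.KF

lemma chan_basis {ι α : Type} [Fintype ι] [DecidableEq ι] [Fintype α] [DecidableEq α]
    (q : ι → ℝ) (o : α) :
    chan q (op (Pi.single (fun _ => o) 1) (Pi.single (fun _ => o) 1)) = diagonal fun a : ι → α =>
      ((∏ i, ((1 - q i) / Fintype.card α + q i * if a i = o then 1 else 0) : ℝ) : ℂ) := by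
  have : Nonempty α := ⟨o⟩
  ext a b
  by_cases h : a = b
  · rw [h, diagonal_apply_eq, chan_diag]
  rw [diagonal_apply_ne _ h, chan_apply]
  refine Finset.sum_eq_zero fun S _ => ?_
  by_cases hS : ∀ i ∈ S, a i = b i
  · refine mul_eq_zero_of_right _ (mul_eq_zero_of_right _ (Finset.sum_eq_zero fun c _ => ?_))
    simp only [op_apply, Pi.single_apply]
    split_ifs with h1 h2
    · refine absurd (funext fun i => ?_) h
      by_cases hi : i ∈ S
      · exact hS i hi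
      · have := congrFun (h1.trans h2.symm) i
        simpa [Finset.piecewise, hi] using this
    · simp
    · simp
    · simp
  · push Not at hS
    obtain ⟨i, hi, hne⟩ := hS
    rw [Finset.prod_eq_zero (f := fun i => if a i = b i then (1 : ℂ) else 0) hi (if_neg hne),
      mul_zero, zero_mul]

lemma trace_lift (i : Fin 3) (A : Matrix (Fin 2) (Fin 2) ℂ) : (lift i A).trace = 4 * A.trace := by
  rw [trace, sum_cfg]
  fin_cases i <;> simp [lift_cfg, trace_fin_two] <;> ring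

lemma trace_lift2 {i j : Fin 3} (h : i ≠ j) (A B : Matrix (Fin 2) (Fin 2) ℂ) :
    (lift i A * lift j B).trace = 2 * (A.trace * B.trace) := by
  rw [trace, sum_cfg]
  simp only [diag_apply, lift_mul_lift h]
  fin_cases i <;> fin_cases j <;> first | exact absurd rfl h | (simp [trace_fin_two]; ring)

lemma trace_lift3 (A B C : Matrix (Fin 2) (Fin 2) ℂ) :
    (lift (0 : Fin 3) A * lift 1 B * lift 2 C).trace = A.trace * B.trace * C.trace := by
  rw [trace, sum_cfg]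
  simp only [diag_apply, lift_apply (2 : Fin 3), mul_liftFun, lift_mul_lift (show (0 : Fin 3) ≠ 1 by decide),
    upd2]
  simp [Fin.forall_fin_succ, trace_fin_two]
  ring

theorem proj_bound {q : Fin 3 → ℝ} (hq : ∀ i, 0 ≤ q i ∧ q i ≤ 1) (ψ : (Fin 3 → Fin 2) → ℂ)
    (hψ : ip ψ ψ = 1) {P : Matrix (Fin 3 → Fin 2) (Fin 3 → Fin 2) ℂ} (hP : IsProj P)
    (h1 : 1 ≤ P.trace.re) (h8 : P.trace.re ≤ 8) :
    ∃ π : (Fin 3 → Fin 2) → ℝ, (∀ ω, 0 ≤ π ω ∧ π ω ≤ 1) ∧ ∑ ω, π ω = P.trace.re ∧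
      tp P (chan q (op ψ ψ)) ≤
        ∑ ω, π ω * ∏ i, ((1 - q i) / 2 + q i * if ω i = 0 then 1 else 0) := by
  have hm : ∀ i : Fin 3, (marg (lift i) ψ).trace = 1 := fun i => by rw [marg_trace, hψ]
  have hR : ∀ i : Fin 3, (lift i (marg (lift i) ψ)).PosSemidef := fun i => L_psd _ (marg_psd _ _)
  have hR' : ∀ i : Fin 3, (1 - lift i (marg (lift i) ψ)).PosSemidef := fun i => by
    have := L_psd (lift i) (marg_le_one (lift i) ψ hψ)
    rwa [map_sub, map_one] at this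
  have hM : ∀ i : Fin 3, (tw (lift i) (op ψ ψ)).PosSemidef := fun i => tw_psd _ _
  have hM' : ∀ i : Fin 3, (1 - tw (lift i) (op ψ ψ)).PosSemidef := fun i => tw_le_one _ _ hψ
  have a2 : ∀ i : Fin 3, tp P (tw (lift i) (op ψ ψ)) ≤ 2 := fun i => by
    have h := hP.tp_le (hM i)
    have e := trace_mul_tw (lift i) 1 (op ψ ψ)
    rw [map_one, one_mul, trace_op, hψ] at e
    rw [e] at h
    simpa using h
  have ak : ∀ i : Fin 3, tp P (tw (lift i) (op ψ ψ)) ≤ P.trace.re := fun i =>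
    hP.tp_le_trace (hM' i)
  have aa : ∀ i j : Fin 3, i ≠ j → tp P (tw (lift i) (op ψ ψ)) + tp P (tw (lift j) (op ψ ψ)) ≤
      P.trace.re + 1 := fun i j h => two_tw _ _ (lift_comm i j h) hP ψ hψ
  have aaa := lt_all ψ hψ P hP
  have ab : ∀ i : Fin 3, tp P (lift i (marg (lift i) ψ)) + tp P (tw (lift i) (op ψ ψ)) ≤
      P.trace.re + 1 := fun i => by
    have h := comm_two hP (hR i) (hM i) (hR' i) (hM' i) (tw_comm _ _ _)
    rw [trace_mul_tw, hm, trace_op, hψ] at h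
    simpa using h
  have bk : ∀ i : Fin 3, tp P (lift i (marg (lift i) ψ)) ≤ P.trace.re := fun i =>
    hP.tp_le_trace (hR' i)
  have b4 : ∀ i : Fin 3, tp P (lift i (marg (lift i) ψ)) ≤ 4 := fun i => by
    have h := hP.tp_le (hR i)
    rw [trace_lift, hm] at h
    simpa using h
  have bb : ∀ i j : Fin 3, i ≠ j → tp P (lift i (marg (lift i) ψ)) +
      tp P (lift j (marg (lift j) ψ)) ≤ P.trace.re + 2 := fun i j hij => by
    have h := comm_two hP (hR i) (hR j) (hR' i) (hR' j) (lift_comm j i hij.symm _ _)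
    rw [trace_lift2 hij, hm, hm] at h
    simpa using h
  obtain ⟨bbb, bbb'⟩ := comm_three hP (hR 0) (hR 1) (hR 2) (hR' 0) (hR' 1) (hR' 2)
    (lift_comm 1 0 (by decide) _ _) (lift_comm 2 0 (by decide) _ _) (lift_comm 2 1 (by decide) _ _)
  rw [trace_sub, trace_add, trace_add, trace_lift2 (by decide), trace_lift2 (by decide),
    trace_lift2 (by decide), trace_lift3, hm, hm, hm] at bbb
  rw [trace_lift3, hm, hm, hm] at bbb'
  norm_num at bbb bbb'
  have hψ1 : tp P (op ψ ψ) ≤ 1 := by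
    have := hP.tp_le (posSemidef_vecMulVec_self_star ψ)
    change tp P (op ψ ψ) ≤ (op ψ ψ).trace.re at this
    rwa [trace_op, hψ, Complex.one_re] at this
  rw [chan_three q ψ hψ]
  simp only [tp_add, tp_smul, tp_one]
  have a20 := a2 0
  have a21 := a2 1
  have a22 := a2 2
  have ak0 := ak 0
  have ak1 := ak 1
  have ak2 := ak 2
  have aa01 := aa 0 1 (by decide)
  have aa02 := aa 0 2 (by decide)
  have aa12 := aa 1 2 (by decide)
  have ab0 := ab 0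
  have ab1 := ab 1
  have ab2 := ab 2
  have bk0 := bk 0
  have bk1 := bk 1
  have bk2 := bk 2
  have b40 := b4 0
  have b41 := b4 1
  have b42 := b4 2
  have bb01 := bb 0 1 (by decide)
  have bb02 := bb 0 2 (by decide)
  have bb12 := bb 1 2 (by decide)
  clear a2 ak aa ab bk b4 bb hM hM' hR hR' hm
  generalize tp P (tw (lift 0) (op ψ ψ)) = a0 at *
  generalize tp P (tw (lift 1) (op ψ ψ)) = a1 at *
  generalize tp P (tw (lift 2) (op ψ ψ)) = a2 at *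
  generalize tp P (lift 0 (marg (lift 0) ψ)) = b0 at *
  generalize tp P (lift 1 (marg (lift 1) ψ)) = b1 at *
  generalize tp P (lift 2 (marg (lift 2) ψ)) = b2 at *
  generalize tp P (op ψ ψ) = c at *
  generalize P.trace.re = k at *
  obtain ⟨x0, e0, f0, g0⟩ : ∃ r, 0 ≤ r ∧ a0 - 1 ≤ r ∧ (r = 0 ∨ r = a0 - 1) :=
    ⟨max 0 (a0 - 1), le_max_left _ _, le_max_right _ _, max_choice _ _⟩
  obtain ⟨x1, e1, f1, g1⟩ : ∃ r, 0 ≤ r ∧ a1 - 1 ≤ r ∧ (r = 0 ∨ r = a1 - 1) :=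
    ⟨max 0 (a1 - 1), le_max_left _ _, le_max_right _ _, max_choice _ _⟩
  obtain ⟨x2, e2, f2, g2⟩ : ∃ r, 0 ≤ r ∧ a2 - 1 ≤ r ∧ (r = 0 ∨ r = a2 - 1) :=
    ⟨max 0 (a2 - 1), le_max_left _ _, le_max_right _ _, max_choice _ _⟩
  obtain ⟨p0, p1, p2, r0, r1, r2, t, hp0, hp1, hp2, hr0, hr1, hr2, ht, hs, u0, u1, u2, v0, v1, v2⟩ :=
    exists_frac (k - 1) x0 x1 x2 (b0 - 1) (b1 - 1) (b2 - 1) (by linarith) e0 e1 e2
      (by rcases g0 with g | g <;> linarith) (by rcases g1 with g | g <;> linarith)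
      (by rcases g2 with g | g <;> linarith)
      (by rcases g0 with g0 | g0 <;> rcases g1 with g1 | g1 <;> rcases g2 with g2 | g2 <;> linarith)
      (by rcases g0 with g | g <;> linarith) (by rcases g1 with g | g <;> linarith)
      (by rcases g2 with g | g <;> linarith) (by linarith) (by linarith) (by linarith)
      (by linarith) (by linarith) (by linarith) (by linarith) (by linarith)
  refine ⟨fun ω => ![![![1, p2], ![p1, r0]], ![![p0, r1], ![r2, t]]] (ω 0) (ω 1) (ω 2),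
    fun ω => ?_, ?_, ?_⟩
  · obtain ⟨x, y, z, rfl⟩ := cfg_eta ω
    fin_cases x <;> fin_cases y <;> fin_cases z <;> simp [*]
  · rw [sum_cfg]
    simp
    linarith
  · rw [sum_cfg]
    obtain ⟨q0, q0'⟩ := hq 0
    obtain ⟨q1, q1'⟩ := hq 1
    obtain ⟨q2, q2'⟩ := hq 2
    have s0 : 0 ≤ (1 - q 0) / 2 := by linarith
    have s1 : 0 ≤ (1 - q 1) / 2 := by linarith
    have s2 : 0 ≤ (1 - q 2) / 2 := by linarith
    simp only [Fin.sum_univ_two, Fin.prod_univ_three, cons_val_zero, cons_val_one, cons_val,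
      if_true, one_ne_zero, if_false]
    generalize (1 - q 0) / 2 = w0 at *
    generalize (1 - q 1) / 2 = w1 at *
    generalize (1 - q 2) / 2 = w2 at *
    have t0 := mul_le_mul_of_nonneg_left hψ1 (mul_nonneg (mul_nonneg q0 q1) q2)
    have t1 := mul_le_mul_of_nonneg_left (show a0 ≤ 1 + p0 by linarith)
      (mul_nonneg (mul_nonneg s0 q1) q2)
    have t2 := mul_le_mul_of_nonneg_left (show a1 ≤ 1 + p1 by linarith)
      (mul_nonneg (mul_nonneg q0 s1) q2)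
    have t3 := mul_le_mul_of_nonneg_left (show a2 ≤ 1 + p2 by linarith)
      (mul_nonneg (mul_nonneg q0 q1) s2)
    have t4 := mul_le_mul_of_nonneg_left (show b2 ≤ 1 + p0 + p1 + r2 by linarith)
      (mul_nonneg (mul_nonneg s0 s1) q2)
    have t5 := mul_le_mul_of_nonneg_left (show b1 ≤ 1 + p0 + p2 + r1 by linarith)
      (mul_nonneg (mul_nonneg s0 q1) s2)
    have t6 := mul_le_mul_of_nonneg_left (show b0 ≤ 1 + p1 + p2 + r0 by linarith)
      (mul_nonneg (mul_nonneg q0 s1) s2)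
    have t7 : w0 * w1 * w2 * k = w0 * w1 * w2 * (1 + p0 + p1 + p2 + r0 + r1 + r2 + t) := by
      rw [show k = 1 + p0 + p1 + p2 + r0 + r1 + r2 + t by linarith]
    linarith

theorem norm_pure {q : Fin 3 → ℝ} (hq : ∀ i, 0 ≤ q i ∧ q i ≤ 1)
    (N : Matrix (Fin 3 → Fin 2) (Fin 3 → Fin 2) ℂ → ℝ)
    (hadd : ∀ X Y, N (X + Y) ≤ N X + N Y) (hsmul : ∀ (c : ℂ) X, N (c • X) = ‖c‖ * N X)
    (hU : ∀ X U V, U ∈ unitaryGroup (Fin 3 → Fin 2) ℂ → V ∈ unitaryGroup (Fin 3 → Fin 2) ℂ →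
      N (U * X * V) = N X) (ψ : (Fin 3 → Fin 2) → ℂ) (hψ : ip ψ ψ = 1) :
    N (chan q (op ψ ψ)) ≤ N (chan q (op (Pi.single (fun _ => 0) 1) (Pi.single (fun _ => 0) 1))) := by
  obtain ⟨b, l, hb, hb1, hX, hl⟩ :=
    spectral_op (chan_psd hq (posSemidef_vecMulVec_self_star ψ)).isHermitian
  change chan q (op ψ ψ) = _ at hX
  set U : Matrix (Fin 3 → Fin 2) (Fin 3 → Fin 2) ℂ := Matrix.of fun i k => b k i with hUdef
  have hU1 : U ∈ unitaryGroup (Fin 3 → Fin 2) ℂ := by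
    rw [mem_unitaryGroup_iff, ← hb1]
    ext i j
    simp [hUdef, Matrix.mul_apply, Matrix.sum_apply, op_apply]
  have hX' : chan q (op ψ ψ) = U * (diagonal fun k => (l k : ℂ)) * star U := by
    rw [hX]
    ext i j
    simp only [hUdef, Matrix.mul_apply (N := star _), mul_diagonal, Matrix.sum_apply, op_apply,
      Matrix.smul_apply, of_apply, star_apply, smul_eq_mul]
    refine Finset.sum_congr rfl fun k _ => ?_
    ring
  have hA : ∀ A : Finset (Fin 3 → Fin 2), IsProj (∑ k ∈ A, op (b k) (b k)) ∧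
      (∑ k ∈ A, op (b k) (b k)).trace.re = A.card ∧
      tp (∑ k ∈ A, op (b k) (b k)) (chan q (op ψ ψ)) = ∑ k ∈ A, l k := by
    intro A
    refine ⟨⟨by simp only [conjTranspose_sum, op_conjTranspose], ?_⟩, ?_, ?_⟩
    · rw [Finset.sum_mul_sum]
      refine Finset.sum_congr rfl fun k hk => ?_
      simp [op_mul_op, hb, hk]
    · simp [trace_sum, trace_op, hb]
    · rw [hX, tp, Finset.sum_mul_sum, trace_sum, Complex.re_sum]
      refine Finset.sum_congr rfl fun k hk => ?_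
      simp [op_mul_op, hb, trace_op, -Complex.coe_smul]
  rw [hX', hU _ _ _ hU1 (Unitary.star_mem hU1), chan_basis]
  simp only [Fintype.card_fin, Nat.cast_ofNat]
  refine norm_diag_le N hadd hsmul hU l _ ?_ fun A => ?_
  · obtain ⟨-, -, h⟩ := hA Finset.univ
    have e : ∀ i : Fin 3, (tw (lift i) (op ψ ψ)).trace = 2 := fun i => by
      have e := trace_mul_tw (lift i) 1 (op ψ ψ)
      rw [map_one, one_mul, trace_op, hψ] at e
      simpa using e
    rw [← h, hb1, tp, one_mul, chan_three q ψ hψ, sum_cfg]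
    simp only [trace_add, trace_smul, e, trace_lift, marg_trace, trace_op, hψ, trace_one,
      smul_eq_mul, Complex.add_re, Complex.re_ofReal_mul]
    simp [Fin.prod_univ_three]
    ring
  · rcases A.eq_empty_or_nonempty with rfl | hne
    · exact ⟨fun _ => 0, by simp, by simp, by simp⟩
    obtain ⟨h1, h2, h3⟩ := hA A
    have h4 : A.card ≤ 8 := by simpa using A.card_le_univ
    have h := proj_bound hq ψ hψ h1 (by rw [h2]; exact_mod_cast hne.card_pos)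
      (by rw [h2]; exact_mod_cast h4)
    rwa [h2, h3] at h

theorem norm_three {q : Fin 3 → ℝ} (hq : ∀ i, 0 ≤ q i ∧ q i ≤ 1)
    (N : Matrix (Fin 3 → Fin 2) (Fin 3 → Fin 2) ℂ → ℝ)
    (hadd : ∀ X Y, N (X + Y) ≤ N X + N Y) (hsmul : ∀ (c : ℂ) X, N (c • X) = ‖c‖ * N X)
    (hU : ∀ X U V, U ∈ unitaryGroup (Fin 3 → Fin 2) ℂ → V ∈ unitaryGroup (Fin 3 → Fin 2) ℂ →
      N (U * X * V) = N X) {ρ : Matrix (Fin 3 → Fin 2) (Fin 3 → Fin 2) ℂ} (hρ : ρ.PosSemidef)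
    (htr : ρ.trace = 1) :
    N (chan q ρ) ≤ N (chan q (op (Pi.single (fun _ => 0) 1) (Pi.single (fun _ => 0) 1))) := by
  obtain ⟨m, g, hg⟩ := Matrix.posSemidef_iff_eq_sum_vecMulVec.1 hρ
  have hg' : ρ = ∑ r, op (g r) (g r) := hg
  have h1 : ∑ r, (ip (g r) (g r)).re = 1 := by
    rw [hg', trace_sum] at htr
    rw [← Complex.re_sum, ← Complex.one_re, ← htr]
    simp only [trace_op]
  have h2 : ∀ (s : Finset (Fin m)) (Y : Fin m → Matrix (Fin 3 → Fin 2) (Fin 3 → Fin 2) ℂ),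
      N (∑ r ∈ s, Y r) ≤ ∑ r ∈ s, N (Y r) := by
    intro s Y
    induction s using Finset.induction_on with
    | empty => simpa using (hsmul 0 0).le
    | insert a s ha ih =>
      rw [Finset.sum_insert ha, Finset.sum_insert ha]
      linarith [hadd (Y a) (∑ r ∈ s, Y r)]
  rw [hg', map_sum]
  refine (h2 _ _).trans (avg_le (fun φ => N (chan q (op φ φ))) (fun s φ => ?_) _
    (norm_pure hq N hadd hsmul hU) g h1)
  simp only [op_smul_left, op_smul_right, smul_smul, map_smul, hsmul]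
  simp [sq]

end Pool.Agent.MP_b746ed_mp.KF

end
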